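import Pool.Agent.W_4481e3_h6.PastR
import Pool.Agent.W_4481e3_q59.ConsumerPQ
import Pool.Agent.W_4481e3_q42.Close

/-!
Kill certificate seen from the time `0` (phase `1`, base point `2 / 15`): `u k`, `b k` are the point
and the slope at the time `-k`, `k ≤ n`; `uf j`, `bf j` those at the time `j ≤ m`.
-/

namespace Pool.Agent.W_4481e3_h6

open Pool.Agent.W_4481e3_q42 Pool.Agent.W_4481e3_q59

/-- phase of the time `-k` -/
def ph (k : ℕ) : ℕ := (1 + 3 * k) % 4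

/-- The situation. -/
structure Sit (ε : ℂ) (n m : ℕ) (β κ τ : ℕ → ℝ → ℝ) (u b uf bf : ℕ → ℂ) : Prop where
  alive : ∀ k ≤ n, Alive ε (2 ^ ph k / 15) (u k)
  pt : ∀ k < n, u k = u (k + 1) + cc (ph (k + 1)) * (ε ^ 2 - u (k + 1) ^ 2)
  sl : ∀ k < n, b k = ((1 - 2 * cc (ph (k + 1)) * u (k + 1)) * b (k + 1) +
    dd (ph (k + 1)) * (ε ^ 2 - u (k + 1) ^ 2)) / 2
  bd : ∀ k ≤ n, ‖b k‖ ≤ β (ph k) ‖b 0‖
  test : ∀ k ≤ n, ∀ s : ℝ, |s| ≤ τ (ph k) ‖b 0‖ →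
    ∃ Z : ℂ, ‖Z - (u k + b k * s)‖ ≤ κ (ph k) ‖b 0‖ * s ^ 2 / 2 ∧ Alive ε (2 ^ ph k / 15 + s) Z
  uf0 : uf 0 = u 0
  bf0 : bf 0 = b 0
  ptf : ∀ j < m, uf (j + 1) = uf j + cc ((1 + j) % 4) * (ε ^ 2 - uf j ^ 2)
  slf : ∀ j < m, bf (j + 1) = ((1 - 2 * cc ((1 + j) % 4) * uf j) * bf j +
    dd ((1 + j) % 4) * (ε ^ 2 - uf j ^ 2)) / 2
  alivef : ∀ j ≤ m, Alive ε (2 ^ ((1 + j) % 4) / 15) (uf j)
  bdf : ∀ j ≤ m, ‖bf j‖ ≤ β ((1 + j) % 4) ‖b 0‖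
  testf : ∀ j ≤ m, ∀ s : ℝ, |s| ≤ τ ((1 + j) % 4) ‖b 0‖ →
    ∃ Z : ℂ, ‖Z - (uf j + bf j * s)‖ ≤ κ ((1 + j) % 4) ‖b 0‖ * s ^ 2 / 2 ∧
      Alive ε (2 ^ ((1 + j) % 4) / 15 + s) Z

/-- the orbit of the centre stays alive -/
lemma alive_ww {ε : ℂ} {p : ℕ} {w : ℂ} (h : Alive ε (2 ^ p / 15) w) (j : ℕ) :
    Alive ε (2 ^ (p + j) / 15) (ww (ε ^ 2) p w j) := by
  induction j with
  | zero => exact h
  | succ j ih =>
    have h1 := ih.next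
    have e1 : 2 * ((2:ℝ) ^ (p + j) / 15) = 2 ^ (p + (j + 1)) / 15 := by
      rw [← add_assoc, pow_succ]; ring
    rw [e1] at h1
    exact h1

lemma alive_mod {ε : ℂ} {k : ℕ} {s : ℝ} {Z : ℂ} (h : Alive ε (2 ^ k / 15 + s) Z) :
    Alive ε (2 ^ (k % 4) / 15 + s) Z := by
  obtain ⟨n, hn⟩ := base_mod k
  have h1 := Pool.Agent.W_4481e3_h1.Alive.add_int h n
  rwa [add_right_comm, hn] at h1

lemma alive_mod0 {ε : ℂ} {k : ℕ} {Z : ℂ} (h : Alive ε (2 ^ k / 15) Z) : Alive ε (2 ^ (k % 4) / 15) Z := by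
  have h1 : Alive ε (2 ^ k / 15 + (0:ℝ)) Z := by rwa [add_zero]
  have h2 := alive_mod h1
  rwa [add_zero] at h2

lemma mod_val {γ : Type*} {f : ℕ → γ} (hf : ∀ p, f (p + 4) = f p) (k : ℕ) : f k = f (k % 4) := by
  simpa using per_mod hf k 0

/-- **From the situation to the kill certificate.** -/
theorem kill_of_sit {ε : ℂ} {n m : ℕ} {β κ τ : ℕ → ℝ → ℝ} (hκ4 : ∀ p A, κ (p + 4) A = κ p A)
    (hτ4 : ∀ p A, τ (p + 4) A = τ p A) (hβ4 : ∀ p A, β (p + 4) A = β p A) {A₁ A₂ : ℝ}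
    (H : ∀ u b uf bf, Sit ε n m β κ τ u b uf bf → A₁ ≤ ‖b 0‖ → ‖b 0‖ ≤ A₂ → False) {A : ℝ}
    (h1 : A₁ ≤ A) (h2 : A ≤ A₂) : KillAtQ ε (n + m) β κ τ 1 A 1 n := by
  intro p w a _ hpn hal hA hb
  rw [mul_one] at hA
  by_contra hcon
  push Not at hcon
  have hno : ∀ j ≤ n + m, ∀ s : ℝ, |s| ≤ τ (p + j) A → ∃ Z : ℂ,
      ‖Z - (ww (ε ^ 2) p w j + aa (ε ^ 2) p w a j * s)‖ ≤ κ (p + j) A * s ^ 2 / 2 ∧
        Alive ε (2 ^ (p + j) / 15 + s) Z := by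
    intro j hj s hs
    have h3 := hcon j hj
    unfold TestDead at h3
    push Not at h3
    exact h3 s hs
  have hphk : ∀ k ≤ n, (p + (n - k)) % 4 = ph k := fun k hk => by unfold ph; omega
  have hphj : ∀ j, (p + (n + j)) % 4 = (1 + j) % 4 := fun j => by omega
  have hcc := mod_val (f := cc) cc_add_four
  have hdd := mod_val (f := dd) dd_add_four
  have hβ' : ∀ k A, β k A = β (k % 4) A := fun k A => mod_val (f := fun p => β p A) (fun p => hβ4 p A) k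
  have hκ' : ∀ k A, κ k A = κ (k % 4) A := fun k A => mod_val (f := fun p => κ p A) (fun p => hκ4 p A) k
  have hτ' : ∀ k A, τ k A = τ (k % 4) A := fun k A => mod_val (f := fun p => τ p A) (fun p => hτ4 p A) k
  have hsub : ∀ k < n, n - k = (n - (k + 1)) + 1 := fun k hk => by omega
  refine H (fun k => ww (ε ^ 2) p w (n - k)) (fun k => aa (ε ^ 2) p w a (n - k))
    (fun j => ww (ε ^ 2) p w (n + j)) (fun j => aa (ε ^ 2) p w a (n + j)) ?_ ?_ ?_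
  · have hA' : ‖aa (ε ^ 2) p w a (n - 0)‖ = A := hA
    refine ⟨fun k hk => ?_, fun k hk => ?_, fun k hk => ?_, fun k hk => ?_, fun k hk s hs => ?_, rfl, rfl,
      fun j hj => ?_, fun j hj => ?_, fun j hj => ?_, fun j hj => ?_, fun j hj s hs => ?_⟩
    · have h3 := alive_mod0 (alive_ww hal (n - k))
      rwa [hphk k hk] at h3
    · show ww (ε ^ 2) p w (n - k) = _
      rw [hsub k hk, ww, hcc (p + (n - (k + 1))), hphk (k + 1) (by omega)]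
    · show aa (ε ^ 2) p w a (n - k) = _
      rw [hsub k hk, aa, hcc (p + (n - (k + 1))), hdd (p + (n - (k + 1))), hphk (k + 1) (by omega)]
    · show ‖aa (ε ^ 2) p w a (n - k)‖ ≤ _
      have h3 := hb (n - k) (by omega)
      rw [hβ', hphk k hk] at h3
      simp only [hA']
      exact h3
    · simp only [hA'] at hs ⊢
      rw [← hphk k hk, ← hτ'] at hs
      obtain ⟨Z, hZ, hZA⟩ := hno (n - k) (by omega) s hs
      rw [hκ', hphk k hk] at hZ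
      have h3 := alive_mod hZA
      rw [hphk k hk] at h3
      exact ⟨Z, hZ, h3⟩
    · show ww (ε ^ 2) p w (n + (j + 1)) = _
      rw [← add_assoc, ww, hcc (p + (n + j)), hphj j]
    · show aa (ε ^ 2) p w a (n + (j + 1)) = _
      rw [← add_assoc, aa, hcc (p + (n + j)), hdd (p + (n + j)), hphj j]
    · have h3 := alive_mod0 (alive_ww hal (n + j))
      rwa [hphj j] at h3
    · show ‖aa (ε ^ 2) p w a (n + j)‖ ≤ _
      have h3 := hb (n + j) (by omega)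
      rw [hβ', hphj j] at h3
      simp only [hA']
      exact h3
    · simp only [hA'] at hs ⊢
      rw [← hphj j, ← hτ'] at hs
      obtain ⟨Z, hZ, hZA⟩ := hno (n + j) (by omega) s hs
      rw [hκ', hphj j] at hZ
      have h3 := alive_mod hZA
      rw [hphj j] at h3
      exact ⟨Z, hZ, h3⟩
  · show A₁ ≤ ‖aa (ε ^ 2) p w a n‖
    rw [hA]; exact h1
  · show ‖aa (ε ^ 2) p w a n‖ ≤ A₂
    rw [hA]; exact h2

section
variable {ε : ℂ} {n m : ℕ} {β κ τ : ℕ → ℝ → ℝ} {u b uf bf : ℕ → ℂ}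

/-- at the phase `4 / 15` the point lies in the near half plane -/
theorem Sit.half (h : Sit ε n m β κ τ u b uf bf) {k : ℕ} (hk : k ≤ n) (hp : ph k = 2) :
    2 * cc 2 * (u k).re < 1 := by
  have h1 := (h.alive k hk).half 0 0
  rw [hp] at h1
  simp only [pow_zero, one_mul, Int.cast_zero, sub_zero, orb] at h1
  exact h1 (by norm_num) (by norm_num)

/-- the test point at the time `-k` -/
theorem Sit.no_test (h : Sit ε n m β κ τ u b uf bf) {k : ℕ} (hk : k ≤ n) {s : ℝ}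
    (hs : |s| ≤ τ (ph k) ‖b 0‖)
    (hd : ∀ Z : ℂ, ‖Z - (u k + b k * s)‖ ≤ κ (ph k) ‖b 0‖ * s ^ 2 / 2 → ¬ Alive ε (2 ^ ph k / 15 + s) Z) :
    False := by
  obtain ⟨Z, hZ, hA⟩ := h.test k hk s hs
  exact hd Z hZ hA

/-- all bounds of the alive point -/
theorem Sit.bound (h : Sit ε n m β κ τ u b uf bf) {k : ℕ} (hk : k ≤ n) : ‖u k‖ ≤ 30 :=
  (h.alive k hk).bd 0

/-- the past form of the slope extends by one digit -/
theorem Sit.pb_step (h : Sit ε n m β κ τ u b uf bf) {k : ℕ} (hk : k < n) {Gc Sc ec v : ℂ} {gr sr R ρ : ℝ}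
    (hp : PB (b 0) (b k) Gc Sc gr sr) (hx : ‖u (k + 1) - v‖ ≤ R) (he : ‖ε ^ 2 - ec‖ ≤ ρ) :
    PB (b 0) (b (k + 1)) (Gc * (1 - 2 * cc (ph (k + 1)) * v) / 2)
      (Sc + Gc * dd (ph (k + 1)) * (ec - v ^ 2) / 2)
      ((‖Gc‖ * (2 * ‖(cc (ph (k + 1)) : ℂ)‖ * R) +
        gr * (‖1 - 2 * cc (ph (k + 1)) * v‖ + 2 * ‖(cc (ph (k + 1)) : ℂ)‖ * R)) / 2)
      (sr + ‖Gc‖ * ‖(dd (ph (k + 1)) : ℂ)‖ / 2 * (ρ + 2 * ‖v‖ * R + R ^ 2) +
        gr * ‖(dd (ph (k + 1)) : ℂ)‖ / 2 * (‖ec - v ^ 2‖ + (ρ + 2 * ‖v‖ * R + R ^ 2))) :=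
  hp.step (h.sl k hk) hx he

end

end Pool.Agent.W_4481e3_h6
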