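import Mathlib

/-!
Slope chain: the real step.
-/

namespace Pool.Agent.W_4481e3_h6.Ev

open Complex

/-- state of the slope chain: `W`, `A` are the scaled point and slope (`2 ^ 24`), `G` is the
product of the half derivatives -/
structure SS (η ω π : ℂ) (j : ℕ) (W A G v p q : ℂ) (r : ℕ) (y yE yW : ℂ) (R nW ny M : ℕ) :
    Prop where
  fw : ‖W - (v + p / 65536 * η + q / 65536 * ω)‖ ≤ r
  fa : ‖A - (y + yE / 65536 * η + yW / 65536 * ω + q / 65536 / 2 ^ j * π)‖ ≤ R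
  hq : ‖q‖ ≤ nW
  hy : ‖y‖ ≤ 16777216 * ny
  hM : 65536 * ‖G‖ ≤ M

lemma nadd8 (a b c d e f g h : ℂ) :
    ‖a + b + c + d + e + f + g + h‖ ≤ ‖a‖ + ‖b‖ + ‖c‖ + ‖d‖ + ‖e‖ + ‖f‖ + ‖g‖ + ‖h‖ := by
  have h1 := norm_add_le (a + b + c + d + e + f + g) h
  have h2 := norm_add_le (a + b + c + d + e + f) g
  have h3 := norm_add_le (a + b + c + d + e) f
  have h4 := norm_add_le (a + b + c + d) e
  have h5 := norm_add_le (a + b + c) d
  have h6 := norm_add_le (a + b) c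
  have h7 := norm_add_le a b
  linarith

lemma nm2 {x y : ℂ} {a b : ℝ} (hx : ‖x‖ ≤ a) (hy : ‖y‖ ≤ b) : ‖x * y‖ ≤ a * b := by
  rw [norm_mul]
  exact mul_le_mul hx hy (norm_nonneg _) ((norm_nonneg _).trans hx)

lemma nr1 {x : ℝ} {a : ℝ} (hx : |x| ≤ a) : ‖(x : ℂ)‖ ≤ a := by
  rw [Complex.norm_real]; exact hx

/-- the point -/
theorem stepW {c cz : ℝ} {C t dl nf dw r : ℝ} {K η ω v p q ρ θ1 θ2 θ3 : ℂ}
    (hc : |c - cz / 16777216| ≤ 1 / 16777216) (hcC : |cz| ≤ C)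
    (hη : ‖η‖ ≤ t) (hω : ‖ω‖ ≤ dl) (hK : ‖K‖ ≤ 33554432) (hv : ‖v‖ ≤ 86000000)
    (hf : ‖1 - 2 * (cz : ℂ) * v / 281474976710656‖ ≤ nf)
    (hρ : ‖ρ‖ ≤ r) (hΔ : ‖p / 65536 * η + q / 65536 * ω + ρ‖ ≤ dw)
    (h1 : ‖θ1‖ ≤ 14143 / 10000) (h2 : ‖θ2‖ ≤ 14143 / 10000) (h3 : ‖θ3‖ ≤ 14143 / 10000) :
    ‖((v + p / 65536 * η + q / 65536 * ω + ρ) +
        c * ((K + η) - (v + p / 65536 * η + q / 65536 * ω + ρ) ^ 2 / 16777216)) -
      ((v + cz / 16777216 * (K - v ^ 2 / 16777216) + θ1) +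
        ((1 - 2 * (cz : ℂ) * v / 281474976710656) * p + cz / 256 + θ2) / 65536 * η +
        ((1 - 2 * (cz : ℂ) * v / 281474976710656) * q + θ3) / 65536 * ω)‖ ≤
      nf * r + (C + 1) * dw * dw / 281474976710656 + 11 * dw / 16777216 +
        (t + dl) * (22 / 1000000) + 298 / 10 := by
  set Δ : ℂ := p / 65536 * η + q / 65536 * ω + ρ with hΔd
  set f : ℂ := 1 - 2 * (cz : ℂ) * v / 281474976710656 with hfd
  set γ : ℝ := c - cz / 16777216 with hγd
  have hcc : (c : ℂ) = cz / 16777216 + γ := by rw [hγd]; push_cast; ring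
  have key : ((v + p / 65536 * η + q / 65536 * ω + ρ) +
        c * ((K + η) - (v + p / 65536 * η + q / 65536 * ω + ρ) ^ 2 / 16777216)) -
      ((v + cz / 16777216 * (K - v ^ 2 / 16777216) + θ1) +
        (f * p + cz / 256 + θ2) / 65536 * η +
        (f * q + θ3) / 65536 * ω) =
      (-θ1) + (-θ2) * (η / 65536) + (-θ3) * (ω / 65536) + f * ρ +
        γ * (K - v * v / 16777216) + γ * η + γ * ((-2 / 16777216) * (v * Δ)) +
        c * ((-1 / 16777216) * (Δ * Δ)) := by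
    rw [hcc, hfd, hΔd]; ring
  rw [key]
  refine (nadd8 _ _ _ _ _ _ _ _).trans ?_
  have hγ := nr1 hc
  have ht : 0 ≤ t := (norm_nonneg _).trans hη
  have hdl : 0 ≤ dl := (norm_nonneg _).trans hω
  have hdw : 0 ≤ dw := (norm_nonneg _).trans hΔ
  have hc1 : ‖(c : ℂ)‖ ≤ (C + 1) / 16777216 := by
    rw [Complex.norm_real, Real.norm_eq_abs]
    have e1 : c = cz / 16777216 + γ := by rw [hγd]; ring
    have e2 : |cz / 16777216| ≤ C / 16777216 := by
      rw [abs_div, abs_of_pos (by norm_num : (0:ℝ) < 16777216)]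
      exact div_le_div_of_nonneg_right hcC (by norm_num)
    have e3 := abs_add_le (cz / 16777216) γ
    rw [← e1] at e3
    have : (C + 1) / 16777216 = C / 16777216 + 1 / 16777216 := by ring
    linarith
  have n65 : ‖η / 65536‖ ≤ t / 65536 := by
    rw [norm_div]; simp only [Complex.norm_ofNat]; gcongr
  have o65 : ‖ω / 65536‖ ≤ dl / 65536 := by
    rw [norm_div]; simp only [Complex.norm_ofNat]; gcongr
  have b1 : ‖-θ1‖ ≤ 14143 / 10000 := by rw [norm_neg]; exact h1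
  have b2 : ‖(-θ2) * (η / 65536)‖ ≤ 14143 / 10000 * (t / 65536) := nm2 (by rw [norm_neg]; exact h2) n65
  have b3 : ‖(-θ3) * (ω / 65536)‖ ≤ 14143 / 10000 * (dl / 65536) := nm2 (by rw [norm_neg]; exact h3) o65
  have b4 : ‖f * ρ‖ ≤ nf * r := nm2 hf hρ
  have vv : ‖v * v / 16777216‖ ≤ 86000000 * 86000000 / 16777216 := by
    rw [norm_div]; simp only [Complex.norm_ofNat]
    exact div_le_div_of_nonneg_right (nm2 hv hv) (by norm_num)
  have b5 : ‖γ * (K - v * v / 16777216)‖ ≤ 1 / 16777216 * (33554432 + 86000000 * 86000000 / 16777216) :=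
    nm2 hγ ((norm_sub_le _ _).trans (add_le_add hK vv))
  have b6 : ‖γ * η‖ ≤ 1 / 16777216 * t := nm2 hγ hη
  have b7 : ‖γ * ((-2 / 16777216) * (v * Δ))‖ ≤ 1 / 16777216 * (2 / 16777216 * (86000000 * dw)) := by
    refine nm2 hγ (nm2 ?_ (nm2 hv hΔ))
    rw [norm_div, norm_neg]; simp
  have b8 : ‖c * ((-1 / 16777216) * (Δ * Δ))‖ ≤ (C + 1) / 16777216 * (1 / 16777216 * (dw * dw)) := by
    refine nm2 hc1 (nm2 ?_ (nm2 hΔ hΔ))
    rw [norm_div, norm_neg]; simp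
  have e8 : (C + 1) / 16777216 * (1 / 16777216 * (dw * dw)) = (C + 1) * dw * dw / 281474976710656 := by ring
  rw [e8] at b8
  linarith

/-- the slope -/
theorem stepA {c cz d dz : ℝ} {C D t dl ra nf nh dw da r R ny : ℝ} {j : ℕ}
    {K η ω π v p q ρ y yE yW ρa θ3 θ4 θ5 θ6 : ℂ}
    (hc : |c - cz / 16777216| ≤ 1 / 16777216) (hcC : |cz| ≤ C)
    (hd : |d - dz / 16777216| ≤ 11 / 16777216) (hdD : |dz| ≤ D)
    (hη : ‖η‖ ≤ t) (hω : ‖ω‖ ≤ dl) (hπ : ‖π‖ ≤ ra) (hK : ‖K‖ ≤ 33554432) (hv : ‖v‖ ≤ 86000000)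
    (hf : ‖1 - 2 * (cz : ℂ) * v / 281474976710656‖ ≤ nf)
    (hh : ‖(2 * (cz : ℂ) * y + 2 * dz * v) / 281474976710656‖ ≤ 2 * nh)
    (hρ : ‖ρ‖ ≤ r) (hΔ : ‖p / 65536 * η + q / 65536 * ω + ρ‖ ≤ dw)
    (hρa : ‖ρa‖ ≤ R) (hm : ‖yE / 65536 * η + yW / 65536 * ω + q / 65536 / 2 ^ j * π + ρa‖ ≤ da)
    (hy : ‖y‖ ≤ 16777216 * ny)
    (h3 : ‖θ3‖ ≤ 14143 / 10000) (h4 : ‖θ4‖ ≤ 14143 / 10000) (h5 : ‖θ5‖ ≤ 14143 / 10000)
    (h6 : ‖θ6‖ ≤ 14143 / 10000) :
    ‖((1 - 2 * c * ((v + p / 65536 * η + q / 65536 * ω + ρ) / 16777216)) *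
          (y + yE / 65536 * η + yW / 65536 * ω + q / 65536 / 2 ^ j * π + ρa) +
        d * ((K + η) - (v + p / 65536 * η + q / 65536 * ω + ρ) ^ 2 / 16777216)) / 2 -
      ((((1 - 2 * (cz : ℂ) * v / 281474976710656) * y + dz / 16777216 * (K - v ^ 2 / 16777216)) / 2 + θ4) +
        (((1 - 2 * (cz : ℂ) * v / 281474976710656) * yE + dz / 256 -
          (2 * (cz : ℂ) * y + 2 * dz * v) / 281474976710656 * p) / 2 + θ5) / 65536 * η +
        (((1 - 2 * (cz : ℂ) * v / 281474976710656) * yW -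
          (2 * (cz : ℂ) * y + 2 * dz * v) / 281474976710656 * q) / 2 + θ6) / 65536 * ω +
        ((1 - 2 * (cz : ℂ) * v / 281474976710656) * q + θ3) / 65536 / 2 ^ (j + 1) * π)‖ ≤
      nf * R / 2 + nh * r + (C + 1) * dw * da / 281474976710656 + 11 * da / 16777216 +
        (D + 11) * dw * dw / 562949953421312 + (2 * ny + 119) * dw / 16777216 + 52 / 10 * ny +
        (t + dl) * (228 / 10000000) + 11 / 1000000 * ra + 158 := by
  set Δ : ℂ := p / 65536 * η + q / 65536 * ω + ρ with hΔd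
  set m : ℂ := yE / 65536 * η + yW / 65536 * ω + q / 65536 / 2 ^ j * π + ρa with hmd
  set f : ℂ := 1 - 2 * (cz : ℂ) * v / 281474976710656 with hfd
  set h : ℂ := (2 * (cz : ℂ) * y + 2 * dz * v) / 281474976710656 with hhd
  set γ : ℝ := c - cz / 16777216 with hγd
  set κ : ℝ := d - dz / 16777216 with hκd
  have hcc : (c : ℂ) = cz / 16777216 + γ := by rw [hγd]; push_cast; ring
  have hdd : (d : ℂ) = dz / 16777216 + κ := by rw [hκd]; push_cast; ring
  have h2j : (2:ℂ) ^ j ≠ 0 := pow_ne_zero j (by norm_num)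
  have key : ((1 - 2 * c * ((v + p / 65536 * η + q / 65536 * ω + ρ) / 16777216)) *
          (y + yE / 65536 * η + yW / 65536 * ω + q / 65536 / 2 ^ j * π + ρa) +
        d * ((K + η) - (v + p / 65536 * η + q / 65536 * ω + ρ) ^ 2 / 16777216)) / 2 -
      (((f * y + dz / 16777216 * (K - v ^ 2 / 16777216)) / 2 + θ4) +
        ((f * yE + dz / 256 - h * p) / 2 + θ5) / 65536 * η +
        ((f * yW - h * q) / 2 + θ6) / 65536 * ω +
        (f * q + θ3) / 65536 / 2 ^ (j + 1) * π) =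
      ((-θ4) + (-θ5) * (η / 65536) + (-θ6) * (ω / 65536) + (-θ3) * (1 / 2 ^ j * (π / 131072)) +
        f * (ρa / 2) + h * (-ρ / 2) + γ * ((-1 / 16777216) * (v * y)) +
        κ * ((K - v * v / 16777216) / 2)) +
      (κ * (η / 2) + γ * ((-1 / 16777216) * (v * m)) + γ * ((-1 / 16777216) * (y * Δ)) +
        κ * ((-1 / 16777216) * (v * Δ)) + c * ((-1 / 16777216) * (Δ * m)) +
        d * ((-1 / 33554432) * (Δ * Δ)) + 0 + 0) := by
    rw [hcc, hdd, hfd, hhd, hΔd, hmd, pow_succ]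
    field_simp
    ring
  rw [key]
  refine (norm_add_le _ _).trans ?_
  refine (add_le_add (nadd8 _ _ _ _ _ _ _ _) (nadd8 _ _ _ _ _ _ _ _)).trans ?_
  have hγ := nr1 hc
  have hκ := nr1 hd
  have ht : 0 ≤ t := (norm_nonneg _).trans hη
  have hdl : 0 ≤ dl := (norm_nonneg _).trans hω
  have hdw : 0 ≤ dw := (norm_nonneg _).trans hΔ
  have hda : 0 ≤ da := (norm_nonneg _).trans hm
  have hra : 0 ≤ ra := (norm_nonneg _).trans hπ
  have hny : 0 ≤ ny := by have := (norm_nonneg _).trans hy; linarith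
  have hc1 : ‖(c : ℂ)‖ ≤ (C + 1) / 16777216 := by
    rw [Complex.norm_real, Real.norm_eq_abs]
    have e1 : c = cz / 16777216 + γ := by rw [hγd]; ring
    have e2 : |cz / 16777216| ≤ C / 16777216 := by
      rw [abs_div, abs_of_pos (by norm_num : (0:ℝ) < 16777216)]
      exact div_le_div_of_nonneg_right hcC (by norm_num)
    have e3 := abs_add_le (cz / 16777216) γ
    rw [← e1] at e3
    have : (C + 1) / 16777216 = C / 16777216 + 1 / 16777216 := by ring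
    linarith
  have hd1 : ‖(d : ℂ)‖ ≤ (D + 11) / 16777216 := by
    rw [Complex.norm_real, Real.norm_eq_abs]
    have e1 : d = dz / 16777216 + κ := by rw [hκd]; ring
    have e2 : |dz / 16777216| ≤ D / 16777216 := by
      rw [abs_div, abs_of_pos (by norm_num : (0:ℝ) < 16777216)]
      exact div_le_div_of_nonneg_right hdD (by norm_num)
    have e3 := abs_add_le (dz / 16777216) κ
    rw [← e1] at e3
    have : (D + 11) / 16777216 = D / 16777216 + 11 / 16777216 := by ring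
    linarith
  have n65 : ‖η / 65536‖ ≤ t / 65536 := by
    rw [norm_div]; simp only [Complex.norm_ofNat]; gcongr
  have o65 : ‖ω / 65536‖ ≤ dl / 65536 := by
    rw [norm_div]; simp only [Complex.norm_ofNat]; gcongr
  have p65 : ‖π / 131072‖ ≤ ra / 131072 := by
    rw [norm_div]; simp only [Complex.norm_ofNat]; gcongr
  have i2j : ‖1 / (2:ℂ) ^ j‖ ≤ 1 := by
    rw [norm_div, norm_pow]; simp only [norm_one, Complex.norm_ofNat]
    rw [div_le_one (by positivity)]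
    exact one_le_pow₀ (by norm_num)
  have b1 : ‖-θ4‖ ≤ 14143 / 10000 := by rw [norm_neg]; exact h4
  have b2 : ‖(-θ5) * (η / 65536)‖ ≤ 14143 / 10000 * (t / 65536) := nm2 (by rw [norm_neg]; exact h5) n65
  have b3 : ‖(-θ6) * (ω / 65536)‖ ≤ 14143 / 10000 * (dl / 65536) := nm2 (by rw [norm_neg]; exact h6) o65
  have b4 : ‖(-θ3) * (1 / 2 ^ j * (π / 131072))‖ ≤ 14143 / 10000 * (1 * (ra / 131072)) :=
    nm2 (by rw [norm_neg]; exact h3) (nm2 i2j p65)
  have b5 : ‖f * (ρa / 2)‖ ≤ nf * (R / 2) := nm2 hf (by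
    rw [norm_div]; simp only [Complex.norm_ofNat]; gcongr)
  have b6 : ‖h * (-ρ / 2)‖ ≤ (2 * nh) * (r / 2) := nm2 hh (by
    rw [norm_div, norm_neg]; simp only [Complex.norm_ofNat]; gcongr)
  have m1 : ‖(-1 / 16777216 : ℂ)‖ ≤ 1 / 16777216 := by rw [norm_div, norm_neg]; simp
  have m2 : ‖(-1 / 33554432 : ℂ)‖ ≤ 1 / 33554432 := by rw [norm_div, norm_neg]; simp
  have b7 : ‖γ * ((-1 / 16777216) * (v * y))‖ ≤
      1 / 16777216 * (1 / 16777216 * (86000000 * (16777216 * ny))) := nm2 hγ (nm2 m1 (nm2 hv hy))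
  have vv : ‖v * v / 16777216‖ ≤ 86000000 * 86000000 / 16777216 := by
    rw [norm_div]; simp only [Complex.norm_ofNat]
    exact div_le_div_of_nonneg_right (nm2 hv hv) (by norm_num)
  have b8 : ‖κ * ((K - v * v / 16777216) / 2)‖ ≤
      11 / 16777216 * ((33554432 + 86000000 * 86000000 / 16777216) / 2) := by
    refine nm2 hκ ?_
    rw [norm_div]; simp only [Complex.norm_ofNat]
    exact div_le_div_of_nonneg_right ((norm_sub_le _ _).trans (add_le_add hK vv)) (by norm_num)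
  have b9 : ‖κ * (η / 2)‖ ≤ 11 / 16777216 * (t / 2) := by
    refine nm2 hκ ?_
    rw [norm_div]; simp only [Complex.norm_ofNat]; gcongr
  have b10 : ‖γ * ((-1 / 16777216) * (v * m))‖ ≤ 1 / 16777216 * (1 / 16777216 * (86000000 * da)) :=
    nm2 hγ (nm2 m1 (nm2 hv hm))
  have b11 : ‖γ * ((-1 / 16777216) * (y * Δ))‖ ≤
      1 / 16777216 * (1 / 16777216 * ((16777216 * ny) * dw)) := nm2 hγ (nm2 m1 (nm2 hy hΔ))
  have b12 : ‖κ * ((-1 / 16777216) * (v * Δ))‖ ≤ 11 / 16777216 * (1 / 16777216 * (86000000 * dw)) :=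
    nm2 hκ (nm2 m1 (nm2 hv hΔ))
  have b13 : ‖c * ((-1 / 16777216) * (Δ * m))‖ ≤ (C + 1) / 16777216 * (1 / 16777216 * (dw * da)) :=
    nm2 hc1 (nm2 m1 (nm2 hΔ hm))
  have b14 : ‖d * ((-1 / 33554432) * (Δ * Δ))‖ ≤ (D + 11) / 16777216 * (1 / 33554432 * (dw * dw)) :=
    nm2 hd1 (nm2 m2 (nm2 hΔ hΔ))
  have e13 : (C + 1) / 16777216 * (1 / 16777216 * (dw * da)) = (C + 1) * dw * da / 281474976710656 := by
    ring
  have e14 : (D + 11) / 16777216 * (1 / 33554432 * (dw * dw)) = (D + 11) * dw * dw / 562949953421312 := by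
    ring
  have e11 : 1 / 16777216 * (1 / 16777216 * ((16777216 * ny) * dw)) = ny * dw / 16777216 := by ring
  have e12 : (2 * ny + 119) * dw / 16777216 = 2 * (ny * dw / 16777216) + 119 * dw / 16777216 := by ring
  have e5 : nf * (R / 2) = nf * R / 2 := by ring
  have e6 : (2 * nh) * (r / 2) = nh * r := by ring
  have hnd : 0 ≤ ny * dw / 16777216 := by positivity
  rw [e13] at b13
  rw [e14] at b14
  rw [e11] at b11
  rw [e5] at b5
  rw [e6] at b6
  rw [e12]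
  simp only [norm_zero]
  linarith

end Pool.Agent.W_4481e3_h6.Ev
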