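import Pool.Agent.W_4481e3_h6.SndP
import Pool.Agent.W_4481e3_h6.StepR

/-!
Slope chain: the state.
-/

namespace Pool.Agent.W_4481e3_h6.Ev

open Complex

/-- packed state; `W`, `A` scaled point and slope (`2 ^ 24`), `G` product of half derivatives -/
def StP (β : ℝ) (η ω π : ℂ) (j : ℕ) (W A G : ℂ) (zv zp zq r zy zE zW R nW ny M : ℕ) : Prop :=
  ∃ v p q y yE yW : ℂ, Pk zv v ∧ Pk zp p ∧ Pk zq q ∧ Pk zy y ∧ Pk zE yE ∧ Pk zW yW ∧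
    SS η ω π j W A G v p q r y yE yW R nW ny M ∧
    ‖p‖ ≤ 8589934592 * β ∧ ‖q‖ ≤ 8589934592 * β ∧ ‖y‖ ≤ 8796093022208 * β ∧
    ‖yE‖ ≤ 1125899906842624 * (β * β) ∧ ‖yW‖ ≤ 1125899906842624 * (β * β)

/-- the linear radius: `|η| ≤ t`, `|ω| ≤ dl` -/
lemma lin2 {η ω a b : ℂ} {t dl : ℕ} {na nb : ℕ} (hη : ‖η‖ ≤ t) (hω : ‖ω‖ ≤ dl) (ha : ‖a‖ ≤ na)
    (hb : ‖b‖ ≤ nb) : ‖a / 65536 * η + b / 65536 * ω‖ ≤ (na * t + nb * dl) / 65536 := by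
  refine (norm_add_le _ _).trans ?_
  rw [norm_mul, norm_mul, norm_div, norm_div]
  simp only [Complex.norm_ofNat]
  have h1 : ‖a‖ * ‖η‖ ≤ na * t := mul_le_mul ha hη (norm_nonneg _) (Nat.cast_nonneg _)
  have h2 : ‖b‖ * ‖ω‖ ≤ nb * dl := mul_le_mul hb hω (norm_nonneg _) (Nat.cast_nonneg _)
  have e1 : ‖a‖ / 65536 * ‖η‖ + ‖b‖ / 65536 * ‖ω‖ = (‖a‖ * ‖η‖ + ‖b‖ * ‖ω‖) / 65536 := by ring
  rw [e1]
  gcongr

lemma shr_lower (x n : ℕ) : (x:ℝ) / 2 ^ n - 1 < ((Nat.shiftRight x n : ℕ) : ℝ) := by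
  have h := Pool.Agent.W_MP_4481e3_an.Ev.div_lower x (2 ^ n) (by positivity)
  have e : Nat.shiftRight x n = x / 2 ^ n := Nat.shiftRight_eq_div_pow x n
  rw [e]
  push_cast at h
  exact h

lemma shr_low (x n : ℕ) {m : ℝ} (hm : (2:ℝ) ^ n = m) : (x:ℝ) / m - 1 ≤ ((Nat.shiftRight x n : ℕ) : ℝ) :=
  hm ▸ (shr_lower x n).le

lemma shr_upper (x n : ℕ) : ((Nat.shiftRight x n : ℕ) : ℝ) ≤ (x:ℝ) / 2 ^ n := by
  have h := Pool.Agent.W_MP_4481e3_an.Ev.div_upper x (2 ^ n)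
  have e : Nat.shiftRight x n = x / 2 ^ n := Nat.shiftRight_eq_div_pow x n
  rw [e]
  push_cast at h
  exact h

/-- the total radius of the slope without the slope part -/
lemma dzf_sound {β : ℝ} {η ω π : ℂ} {W A G : ℂ} {zv zp zq r zy zE zW R nW ny M : ℕ}
    (h : StP β η ω π 4 W A G zv zp zq r zy zE zW R nW ny M) {t dl : ℕ} (hη : ‖η‖ ≤ t) (hω : ‖ω‖ ≤ dl) :
    ∃ y q : ℂ, Pk zy y ∧ Pk zq q ∧ ‖q‖ ≤ nW ∧ ‖y‖ ≤ 8796093022208 * β ∧ ‖q‖ ≤ 8589934592 * β ∧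
      ‖A - (y + q / 1048576 * π)‖ + 1 ≤ dzf t dl zE zW R := by
  obtain ⟨v, p, q, y, yE, yW, -, -, hq, hy, hE, hW, hS, -, hqβ, hyβ, -, -⟩ := h
  refine ⟨y, q, hy, hq, hS.hq, hyβ, hqβ, ?_⟩
  have h1 := hS.fa
  have h2 := lin2 hη hω (np2_sound hE) (np2_sound hW)
  have h3 := shr_low (np2 zE * t + np2 zW * dl) 16 (m := 65536) (by norm_num)
  unfold dzf
  simp only [Nat.add_eq, Nat.mul_eq]
  push_cast at h3 ⊢
  have e : A - (y + q / 1048576 * π) =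
      (A - (y + yE / 65536 * η + yW / 65536 * ω + q / 65536 / 2 ^ 4 * π)) +
        (yE / 65536 * η + yW / 65536 * ω) := by ring
  have h4 := norm_add_le (A - (y + yE / 65536 * η + yW / 65536 * ω + q / 65536 / 2 ^ 4 * π))
    (yE / 65536 * η + yW / 65536 * ω)
  rw [← e] at h4
  linarith

end Pool.Agent.W_4481e3_h6.Ev
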