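import Pool.Agent.W_4481e3_h6.SndX
import Pool.Agent.W_4481_h69.GsProps

/-!
Soundness of the slope leaves.
-/

namespace Pool.Agent.W_4481e3_h6.Ev

open Pool.Agent.W_4481e3_q25.EvR (GsOK)

/-- **The slope leaves are sound.** -/
theorem gsOK (K TAU A1 A2 : ℕ) : GsOK K TAU A1 A2 (gs A1 A2) :=
  Pool.Agent.W_4481_h69.gsOK_of_slc slcOK K TAU A1 A2

end Pool.Agent.W_4481e3_h6.Ev
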