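import Mathlib

/-!
Gaussian integers as residues: `a + b i` is stored as a natural number congruent to `a + b t` modulo
`M = t ^ 2 + 1`, `t = 2 ^ 256`.  One multiplication of naturals = one complex multiplication.
-/

set_option exponentiation.threshold 600

namespace Pool.Agent.W_4481e3_h6.Gau

/-- `t` -/
abbrev tz : ℤ := 2 ^ 256
/-- `M` -/
abbrev Mz : ℤ := 2 ^ 512 + 1

lemma tz_sq : tz * tz = Mz - 1 := by
  show (2:ℤ) ^ 256 * 2 ^ 256 = 2 ^ 512 + 1 - 1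
  rw [← pow_add]; ring

/-- `x` represents `a + b i` -/
def Rp (x : ℕ) (a b : ℤ) : Prop := (x : ℤ) ≡ a + b * tz [ZMOD Mz]

theorem Rp.congr {x : ℕ} {a b a' b' : ℤ} (h : Rp x a b) (ha : a = a') (hb : b = b') : Rp x a' b' := by
  subst ha; subst hb; exact h

theorem Rp.add {x y : ℕ} {a b c d : ℤ} (hx : Rp x a b) (hy : Rp y c d) : Rp (x + y) (a + c) (b + d) := by
  unfold Rp at *
  push_cast
  have := hx.add hy
  have e : a + b * tz + (c + d * tz) = a + c + (b + d) * tz := by ring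
  rwa [e] at this

theorem Rp.mul {x y : ℕ} {a b c d : ℤ} (hx : Rp x a b) (hy : Rp y c d) :
    Rp (x * y) (a * c - b * d) (a * d + b * c) := by
  unfold Rp at *
  push_cast
  have h1 := hx.mul hy
  refine h1.trans ?_
  rw [Int.modEq_iff_dvd]
  refine ⟨-(b * d), ?_⟩
  have := tz_sq
  linear_combination (-(b * d)) * this

theorem Rp.smul {x : ℕ} {a b : ℤ} (hx : Rp x a b) (n : ℕ) : Rp (n * x) (n * a) (n * b) := by
  unfold Rp at *
  push_cast
  have := hx.mul_left (n : ℤ)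
  have e : (n : ℤ) * (a + b * tz) = n * a + n * b * tz := by ring
  rwa [e] at this

/-- subtraction, `K` a multiple of `M` -/
theorem Rp.sub {x y K : ℕ} {a b c d : ℤ} (hx : Rp x a b) (hy : Rp y c d) (hK : Mz ∣ (K : ℤ))
    (h : y ≤ x + K) : Rp (x + K - y) (a - c) (b - d) := by
  unfold Rp at *
  rw [Nat.cast_sub h]
  push_cast
  have h1 : ((x : ℤ) + K) ≡ a + b * tz + 0 [ZMOD Mz] := hx.add (Int.modEq_zero_iff_dvd.2 hK)
  have h2 := h1.sub hy
  have e : a + b * tz + 0 - (c + d * tz) = a - c + (b - d) * tz := by ring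
  rwa [e] at h2

theorem Rp.const (n : ℕ) : Rp n n 0 := by
  unfold Rp
  rw [zero_mul, add_zero]

/-- a constant `K` congruent to `a + b t` -/
theorem Rp.of_dvd {K : ℕ} {a b : ℤ} (h : Mz ∣ (K : ℤ) - (a + b * tz)) : Rp K a b :=
  (Int.modEq_iff_dvd.2 (by
    have : a + b * tz - (K : ℤ) = -((K : ℤ) - (a + b * tz)) := by ring
    rw [this]; exact (Int.dvd_neg).2 h))

theorem Rp.mod {x : ℕ} {a b : ℤ} (hx : Rp x a b) : Rp (x % (2 ^ 512 + 1)) a b := by
  unfold Rp at *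
  have : ((x % (2 ^ 512 + 1) : ℕ) : ℤ) = (x : ℤ) % Mz := by push_cast; rfl
  rw [this]
  exact (Int.mod_modEq _ _).trans hx

/-- extraction -/
theorem Rp.eq {x : ℕ} {a b : ℕ} (hx : Rp x a b) (ha : a < 2 ^ 256) (hb : b < 2 ^ 256) :
    x % (2 ^ 512 + 1) = a + b * 2 ^ 256 := by
  have h1 : (x : ℤ) % Mz = ((a : ℤ) + b * tz) % Mz := hx
  have h2 : a + b * 2 ^ 256 < 2 ^ 512 + 1 := by
    have : b ≤ 2 ^ 256 - 1 := by omega
    have : b * 2 ^ 256 ≤ (2 ^ 256 - 1) * 2 ^ 256 := Nat.mul_le_mul_right _ this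
    omega
  have h3 : (x : ℤ) % Mz = ((x % (2 ^ 512 + 1) : ℕ) : ℤ) := by push_cast; rfl
  have h4 : ((a : ℤ) + b * tz) % Mz = ((a + b * 2 ^ 256 : ℕ) : ℤ) := by
    rw [Int.emod_eq_of_lt]
    · push_cast; rfl
    · positivity
    · have : (((a + b * 2 ^ 256 : ℕ)) : ℤ) < ((2 ^ 512 + 1 : ℕ) : ℤ) := by exact_mod_cast h2
      push_cast at this
      exact this
  rw [h3, h4] at h1
  exact_mod_cast h1

/-- shift and mask, any field width -/
theorem field_shift' {k m a b : ℕ} (hm : m ≤ k) (ha : a < 2 ^ k) (hb : b < 2 ^ k) :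
    ((a + b * 2 ^ k) >>> m) &&& ((2 ^ (k - m) - 1) * 2 ^ k + (2 ^ (k - m) - 1)) =
      a / 2 ^ m + b / 2 ^ m * 2 ^ k := by
  set n := k - m with hn
  have hmn : (2:ℕ) ^ k = 2 ^ n * 2 ^ m := by rw [← pow_add]; congr 1; omega
  have hpm : 0 < 2 ^ m := Nat.two_pow_pos m
  have hpn : 0 < 2 ^ n := Nat.two_pow_pos n
  have hnk : 2 ^ n ≤ 2 ^ k := Nat.pow_le_pow_right (by norm_num) (by omega)
  set A := a / 2 ^ m with hA
  set h := b / 2 ^ m with hh
  set l := b % 2 ^ m with hl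
  have hAlt : A < 2 ^ n := by
    rw [hA, Nat.div_lt_iff_lt_mul hpm, ← hmn]; exact ha
  have hhlt : h < 2 ^ n := by
    rw [hh, Nat.div_lt_iff_lt_mul hpm, ← hmn]; exact hb
  have hllt : l < 2 ^ m := Nat.mod_lt _ hpm
  have hb' : b = h * 2 ^ m + l := by
    rw [hh, hl, mul_comm]; exact (Nat.div_add_mod b (2 ^ m)).symm
  set y := (a + b * 2 ^ k) >>> m with hy
  have hy1 : y = A + (h * 2 ^ m + l) * 2 ^ n := by
    rw [hy, Nat.shiftRight_eq_div_pow, hmn, ← mul_assoc, Nat.add_mul_div_right _ _ hpm, ← hb']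
  set p := 2 ^ n - 1 with hp
  have hplt : p < 2 ^ k := by omega
  have hmask : p * 2 ^ k + p = (p <<< k) ||| p := by
    rw [← Nat.shiftLeft_add_eq_or_of_lt hplt, Nat.shiftLeft_eq]
  rw [hmask, Nat.and_or_distrib_left]
  have e1 : y &&& p = A := by
    rw [hp, Nat.and_two_pow_sub_one_eq_mod, hy1, Nat.add_mul_mod_self_right, Nat.mod_eq_of_lt hAlt]
  have e2 : y &&& (p <<< k) = h <<< k := by
    have e3 : y >>> k = h := by
      rw [Nat.shiftRight_eq_div_pow, hy1, hmn]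
      have : A + (h * 2 ^ m + l) * 2 ^ n = (A + l * 2 ^ n) + h * (2 ^ n * 2 ^ m) := by ring
      rw [this, Nat.add_mul_div_right _ _ (by positivity)]
      have : A + l * 2 ^ n < 2 ^ n * 2 ^ m := by
        have h1 : l + 1 ≤ 2 ^ m := hllt
        have h2 : (l + 1) * 2 ^ n ≤ 2 ^ m * 2 ^ n := Nat.mul_le_mul_right _ h1
        have h3 : (l + 1) * 2 ^ n = l * 2 ^ n + 2 ^ n := by ring
        have h4 : 2 ^ m * 2 ^ n = 2 ^ n * 2 ^ m := by ring
        omega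
      rw [Nat.div_eq_of_lt this, zero_add]
    apply Nat.eq_of_testBit_eq
    intro i
    rw [Nat.testBit_and, Nat.testBit_shiftLeft, Nat.testBit_shiftLeft]
    rcases le_or_gt k i with hi | hi
    · have e4 : y.testBit i = (y >>> k).testBit (i - k) := by
        have h7 : (y >>> k).testBit (i - k) = y.testBit (k + (i - k)) := Nat.testBit_shiftRight ..
        rw [h7, Nat.add_sub_cancel' hi]
      simp only [ge_iff_le, hi, decide_true, Bool.true_and]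
      rw [e4, e3]
      have e5 : (h &&& p).testBit (i - k) = h.testBit (i - k) := by
        rw [hp, Nat.and_two_pow_sub_one_eq_mod, Nat.mod_eq_of_lt hhlt]
      rw [← e5, Nat.testBit_and]
      rcases hx : h.testBit (i - k) <;> rcases hq : p.testBit (i - k) <;> rfl
    · have : ¬ (i ≥ k) := by omega
      simp [this]
  rw [e1, e2]
  have hAk : A < 2 ^ k := lt_of_lt_of_le hAlt hnk
  rw [← Nat.shiftLeft_add_eq_or_of_lt hAk, Nat.shiftLeft_eq, add_comm]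

/-- shift and mask: both fields are divided by `2 ^ m` -/
theorem field_shift {m a b : ℕ} (hm : m ≤ 256) (ha : a < 2 ^ 256) (hb : b < 2 ^ 256) :
    ((a + b * 2 ^ 256) >>> m) &&& ((2 ^ (256 - m) - 1) * 2 ^ 256 + (2 ^ (256 - m) - 1)) =
      a / 2 ^ m + b / 2 ^ m * 2 ^ 256 := field_shift' hm ha hb

/-- **Rounding.**  `K` is the offset `o (1 + t)`, `o = 2 ^ m * q`; the result has both fields
`⌊a / 2 ^ m⌋ + q`. -/
theorem Rp.rnd {x m q K : ℕ} {a b : ℤ} (hx : Rp x a b) (hm : m ≤ 256)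
    (hK : Rp K (2 ^ m * q) (2 ^ m * q))
    (ha0 : -(2 ^ m * q) ≤ a) (ha1 : a + 2 ^ m * q < 2 ^ 256) (hb0 : -(2 ^ m * q) ≤ b)
    (hb1 : b + 2 ^ m * q < 2 ^ 256) :
    ∃ A B : ℕ, (A : ℤ) = a / 2 ^ m + q ∧ (B : ℤ) = b / 2 ^ m + q ∧ A < 2 ^ 256 ∧ B < 2 ^ 256 ∧
      (((x + K) % (2 ^ 512 + 1)) >>> m) &&& ((2 ^ (256 - m) - 1) * 2 ^ 256 + (2 ^ (256 - m) - 1)) =
        A + B * 2 ^ 256 := by
  obtain ⟨a', ha'⟩ := Int.eq_ofNat_of_zero_le (by linarith : 0 ≤ a + 2 ^ m * q)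
  obtain ⟨b', hb'⟩ := Int.eq_ofNat_of_zero_le (by linarith : 0 ≤ b + 2 ^ m * q)
  have h1 : Rp (x + K) a' b' := (hx.add hK).congr ha' hb'
  have ha2 : a' < 2 ^ 256 := by
    have : (a' : ℤ) < 2 ^ 256 := by rw [← ha']; exact ha1
    exact_mod_cast this
  have hb2 : b' < 2 ^ 256 := by
    have : (b' : ℤ) < 2 ^ 256 := by rw [← hb']; exact hb1
    exact_mod_cast this
  have hpm : (0 : ℤ) < 2 ^ m := by positivity
  refine ⟨a' / 2 ^ m, b' / 2 ^ m, ?_, ?_, ?_, ?_, ?_⟩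
  · push_cast
    rw [← ha', Int.add_mul_ediv_left _ _ hpm.ne']
  · push_cast
    rw [← hb', Int.add_mul_ediv_left _ _ hpm.ne']
  · exact (Nat.div_le_self _ _).trans_lt ha2
  · exact (Nat.div_le_self _ _).trans_lt hb2
  · rw [h1.eq ha2 hb2]
    exact field_shift hm ha2 hb2

/-- the value of a result -/
theorem Rp.of_fields {x A B : ℕ} (h : x = A + B * 2 ^ 256) : Rp x A B := by
  unfold Rp
  rw [h]
  push_cast
  rfl

/-- conjugate: `lo` is the low field -/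
theorem Rp.conj {x A B K : ℕ} (h : x = A + B * 2 ^ 256) (hK : Mz ∣ (K : ℤ)) (hle : x ≤ 2 * A + K) :
    Rp (2 * A + K - x) A (-B) := by
  have h1 : Rp (2 * A) ((2:ℕ) * (A:ℤ)) ((2:ℕ) * 0) := (Rp.const A).smul 2
  have h2 := h1.sub (Rp.of_fields h) hK hle
  exact h2.congr (by push_cast; ring) (by push_cast; ring)

/-- exact norm -/
theorem Rp.norm {x y : ℕ} {a b : ℤ} (hx : Rp x a b) (hy : Rp y a (-b)) (h : a ^ 2 + b ^ 2 < Mz) :
    ((x * y % (2 ^ 512 + 1) : ℕ) : ℤ) = a ^ 2 + b ^ 2 := by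
  have h1 : Rp (x * y) (a ^ 2 + b ^ 2) 0 := (hx.mul hy).congr (by ring) (by ring)
  have h2 : ((x * y : ℕ) : ℤ) % Mz = (a ^ 2 + b ^ 2 + 0 * tz) % Mz := h1
  have h3 : ((x * y % (2 ^ 512 + 1) : ℕ) : ℤ) = ((x * y : ℕ) : ℤ) % Mz := by push_cast; rfl
  rw [h3, h2, zero_mul, add_zero]
  exact Int.emod_eq_of_lt (by positivity) h

end Pool.Agent.W_4481e3_h6.Gau
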