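import Pool.Agent.W_MP_4481e3_low.BoundB
import Pool.Agent.W_4481e3_q59.Esc

/-!
Compactness half for `L = 2`: common definitions.
-/

open MeasureTheory Filter Topology Set

namespace Pool.Agent.W_MP_4481e3_an

/-- A chain of rescaled leaves over the base orbit of `b` (doubling map). -/
structure Chain (α : ℂ) (b : ℝ) (V : ℕ → ℂ → ℂ) : Prop where
  diff : ∀ i, Differentiable ℂ (V i)
  recur : ∀ i s, V (i + 1) (2 * s) = V i s +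
    α * Complex.cos (2 * Real.pi * (2 ^ i * (b : ℂ) + s)) * V i s * (1 - V i s)

/-- the rescaled leaf of `z` at time `n` at the point `u` -/
noncomputable def leafV (α : ℂ) (z : ℂ) (u : ℝ) (n : ℕ) (s : ℂ) : ℂ :=
  O α 2 n (u + s / 2 ^ n) z

/-- the escape radius of `fall_infE` -/
noncomputable def Rp (α : ℂ) : ℝ := 4 * Real.exp 4 / ‖α‖

/-- the tameness constant -/
noncomputable def Ct (α : ℂ) : ℝ := 12 * Real.exp Real.pi * Rp α ^ 2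

/-- tame on the disc of radius `r` -/
def Tame (α : ℂ) (V : ℂ → ℂ) (r : ℝ) : Prop := ∀ s : ℂ, ‖s‖ ≤ r → ‖V s‖ ≤ Ct α

/-- on the real interval of radius `x` the leaf is above the escape radius only on a set of
relative density at most `δ` -/
def Spars (α : ℂ) (V : ℂ → ℂ) (δ x : ℝ) : Prop :=
  volume {t : ℝ | |t| ≤ x ∧ Rp α < ‖V t‖} ≤ ENNReal.ofReal (δ * x)

lemma leafV_diff (α z : ℂ) (u : ℝ) (n : ℕ) : Differentiable ℂ (leafV α z u n) := by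
  have h := O_scaled_diff (α := α) (L := 2) n (u : ℂ) z
  have e : leafV α z u n = fun ζ : ℂ => O α 2 n (u + ζ / ((2:ℕ) : ℂ) ^ n) z := by
    funext s; simp [leafV]
  rw [e]; exact h

lemma leafV_chain (α z : ℂ) (u : ℝ) (n : ℕ) :
    Chain α (2 ^ n * u) (fun i => leafV α z u (n + i)) := by
  refine ⟨fun i => leafV_diff α z u (n + i), fun i s => ?_⟩
  have harg : (u : ℂ) + 2 * s / 2 ^ (n + (i + 1)) = u + s / 2 ^ (n + i) := by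
    congr 1
    rw [← add_assoc, pow_succ]
    field_simp
  simp only [leafV]
  rw [harg, ← add_assoc, O_succ]
  have h1 : ((2:ℕ) : ℂ) ^ (n + i) * ((u : ℂ) + s / 2 ^ (n + i)) =
      2 ^ i * ((2 ^ n * u : ℝ) : ℂ) + s := by
    push_cast
    rw [pow_add]
    field_simp
  rw [h1]

lemma Tame.mono {α : ℂ} {V : ℂ → ℂ} {r s : ℝ} (h : Tame α V r) (hs : s ≤ r) : Tame α V s :=
  fun x hx => h x (hx.trans hs)

/-- **GAIN** (frozen block `(01)^K`): statement. -/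
def GainStmt (α : ℂ) : Prop :=
  ∀ N : ℕ, ∃ K : ℕ, 0 < K ∧ ∃ δ > (0:ℝ), ∀ x0 > (0:ℝ), ∃ r0 > (0:ℝ),
    ∀ (b : ℝ) (V : ℕ → ℂ → ℂ) (q : ℤ) (r : ℝ), Chain α b V → ¬ (3:ℤ) ∣ q →
      |b - q / 3| ≤ (1 / 4) ^ K → 0 < r → r ≤ r0 → Tame α (V 0) r →
      (∀ i ≤ 2 * K, ∀ x, 0 < x → x ≤ x0 → Spars α (V i) δ x) → Tame α (V (2 * K)) (N * r)

/-- The one sided family over the base orbit of `1/15` (output of the compactness half), in the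
coordinate `Z = α (z - 1/2)`, `ε = α / 2`. -/
structure Fam2 (ε : ℂ) (ρ A K : ℝ) (V : ℕ → ℝ → ℂ) : Prop where
  pos : 0 < ρ
  lip : ∀ s t : ℝ, |s| ≤ ρ → |t| ≤ ρ → ‖V 0 s - V 0 t‖ ≤ K * |s - t|
  c11 : ∃ (a : ℂ) (B : ℝ), ∀ t : ℝ, |t| ≤ ρ → ‖V 0 t - V 0 0 - a * t‖ ≤ B * t ^ 2
  recur : ∀ (k : ℕ) (t : ℝ), |t| ≤ ρ * 2 ^ k → V (k + 1) (2 * t) =
    V k t + (Real.cos (2 * Real.pi * (2 ^ k * (1 / 15) + t)) : ℂ) * (ε ^ 2 - V k t ^ 2)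
  growth : ∀ (k : ℕ) (t : ℝ), |t| ≤ ρ * 2 ^ k → ‖V k t‖ ≤ Real.exp (A * (31 / 20) ^ k)
  near : ∀ ℓ > (0:ℝ), ∃ R > (0:ℝ), ∀ (k : ℕ) (a : ℝ), -(ρ * 2 ^ k) ≤ a → a + ℓ ≤ ρ * 2 ^ k →
    (∃ t ∈ Icc a (a + ℓ), R ≤ ‖V k t - ε‖) ∧ (∃ t ∈ Icc a (a + ℓ), R ≤ ‖V k t + ε‖)

/-- the drift theorem: statement -/
def TameStmt (α z : ℂ) : Prop :=
  volume (Fall α 2 z)ᶜ ≠ 0 → ∃ u : ℝ, u ∉ Fall α 2 z ∧
    (∀ T > (0:ℝ), ∀ δ > (0:ℝ), ∃ n₀ : ℕ, ∀ n ≥ n₀,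
      volume (Fall α 2 z ∩ Metric.closedBall u (T / 2 ^ n)) ≤ ENNReal.ofReal (δ / 2 ^ n)) ∧
    ∃ r0 > (0:ℝ), ∃ᶠ n in (atTop : Filter ℕ), Tame α (leafV α z u n) r0

end Pool.Agent.W_MP_4481e3_an
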