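import Mathlib

/-!
Finite slopes along the periodic block, from a (backward) contraction certificate.
-/

open Filter Topology Set Finset

namespace Pool.Agent.W_4481e3_h6

/-- the cosine at base `2^k / 15 + t` -/
noncomputable def cb (k : ℕ) (t : ℝ) : ℝ := Real.cos (2 * Real.pi * (2 ^ k * (1 / 15) + t))

/-- the derivative of the cosine in `t` at the centre -/
noncomputable def cd (k : ℕ) : ℝ := -(2 * Real.pi) * Real.sin (2 * Real.pi * (2 ^ k * (1 / 15)))

lemma cb_abs (k : ℕ) (t : ℝ) : |cb k t| ≤ 1 := Real.abs_cos_le_one _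

lemma cos_lip (x y : ℝ) : |Real.cos x - Real.cos y| ≤ |x - y| := by
  rw [Real.cos_sub_cos]
  have h1 : |Real.sin ((x + y) / 2)| ≤ 1 := Real.abs_sin_le_one _
  have h2 : |Real.sin ((x - y) / 2)| ≤ |(x - y) / 2| := Real.abs_sin_le_abs
  have h3 : |(x - y) / 2| = |x - y| / 2 := by rw [abs_div]; norm_num
  rw [abs_mul, abs_mul]
  have h4 : |(-2:ℝ)| = 2 := by norm_num
  rw [h4]
  rw [h3] at h2
  have h5 := abs_nonneg (Real.sin ((x - y) / 2))
  have h6 := abs_nonneg (Real.sin ((x + y) / 2))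
  nlinarith

lemma cb_lip (k : ℕ) (s t : ℝ) : |cb k s - cb k t| ≤ 7 * |s - t| := by
  unfold cb
  refine (cos_lip _ _).trans ?_
  have h1 : 2 * Real.pi * (2 ^ k * (1 / 15) + s) - 2 * Real.pi * (2 ^ k * (1 / 15) + t) =
      2 * Real.pi * (s - t) := by ring
  rw [h1, abs_mul, abs_of_pos (by positivity)]
  have := Real.pi_lt_d2
  have := abs_nonneg (s - t)
  nlinarith

/-- one-sided family, bounded -/
structure One (e : ℂ) (ρ K : ℝ) (V : ℕ → ℝ → ℂ) : Prop where
  pos : 0 < ρ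
  lip : ∀ s t : ℝ, |s| ≤ ρ → |t| ≤ ρ → ‖V 0 s - V 0 t‖ ≤ K * |s - t|
  recur : ∀ (k : ℕ) (t : ℝ), |t| ≤ ρ * 2 ^ k → V (k + 1) (2 * t) =
    V k t + (cb k t : ℂ) * (e - V k t ^ 2)
  bd : ∀ (k : ℕ) (t : ℝ), |t| ≤ ρ * 2 ^ k → ‖V k t‖ ≤ 30

/-- the multiplier at the centre -/
noncomputable def Fk (V : ℕ → ℝ → ℂ) (k : ℕ) : ℝ := ‖1 - 2 * (cb k 0 : ℂ) * V k 0‖

variable {e : ℂ} {ρ K : ℝ} {V : ℕ → ℝ → ℂ}

lemma One.step_two (hV : One e ρ K V) (he : ‖e‖ ≤ 1) {k : ℕ} {s t : ℝ} (hs : |s| ≤ ρ * 2 ^ k)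
    (ht : |t| ≤ ρ * 2 ^ k) : ‖V (k + 1) (2 * s) - V (k + 1) (2 * t)‖ ≤
      (Fk V k + (420 * |s| + ‖V k s - V k 0‖ + ‖V k t - V k 0‖)) * ‖V k s - V k t‖ +
        6307 * |s - t| := by
  rw [hV.recur k s hs, hV.recur k t ht]
  have hk : 0 < ρ * 2 ^ k := by have := hV.pos; positivity
  have b0 := hV.bd k 0 (by rw [abs_zero]; exact hk.le)
  have bs := hV.bd k s hs
  have bt := hV.bd k t ht
  set p := V k s with hp
  set q := V k t with hq
  set v := V k 0 with hv
  have h1 : p + (cb k s : ℂ) * (e - p ^ 2) - (q + (cb k t : ℂ) * (e - q ^ 2)) =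
      (1 - 2 * (cb k 0 : ℂ) * v) * (p - q) +
      (-((cb k s - cb k 0 : ℝ) : ℂ) * (p + q) - (cb k 0 : ℂ) * ((p - v) + (q - v))) * (p - q) +
      ((cb k s - cb k t : ℝ) : ℂ) * (e - q ^ 2) := by
    push_cast; ring
  rw [h1]
  refine (norm_add_le _ _).trans ?_
  have hc0 : ‖(cb k 0 : ℂ)‖ ≤ 1 := by
    rw [Complex.norm_real, Real.norm_eq_abs]; exact cb_abs k 0
  have h2 : ‖-((cb k s - cb k 0 : ℝ) : ℂ) * (p + q) - (cb k 0 : ℂ) * ((p - v) + (q - v))‖ ≤
      420 * |s| + ‖p - v‖ + ‖q - v‖ := by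
    refine (norm_sub_le _ _).trans ?_
    rw [norm_mul, norm_mul, norm_neg, Complex.norm_real, Real.norm_eq_abs]
    have h3 := cb_lip k s 0
    rw [sub_zero] at h3
    have h4 : ‖p + q‖ ≤ 60 := (norm_add_le _ _).trans (by linarith)
    have h5 : ‖(p - v) + (q - v)‖ ≤ ‖p - v‖ + ‖q - v‖ := norm_add_le _ _
    have h6 : |cb k s - cb k 0| * ‖p + q‖ ≤ (7 * |s|) * 60 := by gcongr
    have h7 : ‖(cb k 0 : ℂ)‖ * ‖(p - v) + (q - v)‖ ≤ 1 * (‖p - v‖ + ‖q - v‖) := by gcongr
    linarith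
  have h8 : ‖((cb k s - cb k t : ℝ) : ℂ) * (e - q ^ 2)‖ ≤ 6307 * |s - t| := by
    rw [norm_mul, Complex.norm_real, Real.norm_eq_abs]
    have h3 := cb_lip k s t
    have h4 : ‖e - q ^ 2‖ ≤ 901 := by
      refine (norm_sub_le _ _).trans ?_
      rw [norm_pow]
      nlinarith [norm_nonneg q]
    calc |cb k s - cb k t| * ‖e - q ^ 2‖ ≤ (7 * |s - t|) * 901 := by gcongr
      _ = 6307 * |s - t| := by ring
  have h9 : ‖(1 - 2 * (cb k 0 : ℂ) * v) * (p - q) +
      (-((cb k s - cb k 0 : ℝ) : ℂ) * (p + q) - (cb k 0 : ℂ) * ((p - v) + (q - v))) * (p - q)‖ ≤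
      (Fk V k + (420 * |s| + ‖p - v‖ + ‖q - v‖)) * ‖p - q‖ := by
    rw [← add_mul, norm_mul]
    gcongr
    refine (norm_add_le _ _).trans ?_
    gcongr
    exact le_rfl
  linarith

lemma One.Fk_le (hV : One e ρ K V) (k : ℕ) : Fk V k ≤ 61 := by
  have hk : 0 < ρ * 2 ^ k := by have := hV.pos; positivity
  have b0 := hV.bd k 0 (by rw [abs_zero]; exact hk.le)
  unfold Fk
  refine (norm_sub_le _ _).trans ?_
  rw [norm_one, norm_mul, norm_mul, Complex.norm_real, Real.norm_eq_abs]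
  have := cb_abs k 0
  have h2 : ‖(2:ℂ)‖ = 2 := by simp
  rw [h2]
  nlinarith [norm_nonneg (V k 0), abs_nonneg (cb k 0)]

lemma Fk_nonneg (V : ℕ → ℝ → ℂ) (k : ℕ) : 0 ≤ Fk V k := norm_nonneg _

lemma One.step_crude (hV : One e ρ K V) (he : ‖e‖ ≤ 1) {k : ℕ} {s t : ℝ} (hs : |s| ≤ ρ * 2 ^ k)
    (ht : |t| ≤ ρ * 2 ^ k) : ‖V (k + 1) (2 * s) - V (k + 1) (2 * t)‖ ≤
      61 * ‖V k s - V k t‖ + 6307 * |s - t| := by
  rw [hV.recur k s hs, hV.recur k t ht]
  have bs := hV.bd k s hs
  have bt := hV.bd k t ht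
  set p := V k s with hp
  set q := V k t with hq
  have h1 : p + (cb k s : ℂ) * (e - p ^ 2) - (q + (cb k t : ℂ) * (e - q ^ 2)) =
      (1 - (cb k s : ℂ) * (p + q)) * (p - q) + ((cb k s - cb k t : ℝ) : ℂ) * (e - q ^ 2) := by
    push_cast; ring
  rw [h1]
  refine (norm_add_le _ _).trans ?_
  have hc0 : ‖(cb k s : ℂ)‖ ≤ 1 := by
    rw [Complex.norm_real, Real.norm_eq_abs]; exact cb_abs k s
  have h8 : ‖((cb k s - cb k t : ℝ) : ℂ) * (e - q ^ 2)‖ ≤ 6307 * |s - t| := by
    rw [norm_mul, Complex.norm_real, Real.norm_eq_abs]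
    have h3 := cb_lip k s t
    have h4 : ‖e - q ^ 2‖ ≤ 901 := by
      refine (norm_sub_le _ _).trans ?_
      rw [norm_pow]
      nlinarith [norm_nonneg q]
    calc |cb k s - cb k t| * ‖e - q ^ 2‖ ≤ (7 * |s - t|) * 901 := by gcongr
      _ = 6307 * |s - t| := by ring
  have h9 : ‖(1 - (cb k s : ℂ) * (p + q)) * (p - q)‖ ≤ 61 * ‖p - q‖ := by
    rw [norm_mul]
    gcongr
    refine (norm_sub_le _ _).trans ?_
    rw [norm_one, norm_mul]
    have h4 : ‖p + q‖ ≤ 60 := (norm_add_le _ _).trans (by linarith)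
    nlinarith [norm_nonneg (p + q), norm_nonneg (cb k s : ℂ)]
  linarith

/-- crude Lipschitz bounds after `j` steps -/
lemma One.crude_lip (hV : One e ρ K V) (he : ‖e‖ ≤ 1) {L r : ℝ} {k : ℕ} (hL : 0 ≤ L)
    (hr : r ≤ ρ * 2 ^ k)
    (h : ∀ s t : ℝ, |s| ≤ r → |t| ≤ r → ‖V k s - V k t‖ ≤ L * |s - t|) (j : ℕ) :
    ∀ s t : ℝ, |s| ≤ r * 2 ^ j → |t| ≤ r * 2 ^ j →
      ‖V (k + j) s - V (k + j) t‖ ≤ 31 ^ j * (L + 7000) * |s - t| := by
  have key : ∀ s t : ℝ, |s| ≤ r * 2 ^ j → |t| ≤ r * 2 ^ j →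
      ‖V (k + j) s - V (k + j) t‖ ≤ (31 ^ j * (L + 7000) - 7000) * |s - t| := by
    induction j with
    | zero => intro s t hs ht; simpa using h s t (by simpa using hs) (by simpa using ht)
    | succ j ih =>
      intro s t hs ht
      have hs' : |s / 2| ≤ r * 2 ^ j := by
        rw [abs_div, abs_two, div_le_iff₀ (by norm_num)]
        rw [pow_succ] at hs; linarith
      have ht' : |t / 2| ≤ r * 2 ^ j := by
        rw [abs_div, abs_two, div_le_iff₀ (by norm_num)]
        rw [pow_succ] at ht; linarith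
      have hw : r * 2 ^ j ≤ ρ * 2 ^ (k + j) := by
        rw [pow_add]
        have : (0:ℝ) < 2 ^ j := by positivity
        nlinarith
      have h1 := hV.step_crude he (hs'.trans hw) (ht'.trans hw)
      rw [mul_div_cancel₀ s (by norm_num : (2:ℝ) ≠ 0), mul_div_cancel₀ t (by norm_num : (2:ℝ) ≠ 0)] at h1
      have h2 := ih (s / 2) (t / 2) hs' ht'
      have h3 : |s / 2 - t / 2| = |s - t| / 2 := by
        rw [← sub_div, abs_div, abs_two]
      rw [h3] at h1 h2
      rw [← add_assoc]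
      have h4 : (1:ℝ) ≤ 31 ^ j := one_le_pow₀ (by norm_num)
      have h5 := abs_nonneg (s - t)
      have h6 : 61 * ((31 ^ j * (L + 7000) - 7000) * (|s - t| / 2)) + 6307 * (|s - t| / 2) ≤
          (31 ^ (j + 1) * (L + 7000) - 7000) * |s - t| := by
        have h7 : 0 ≤ (31 ^ (j + 1) * (L + 7000) - 7000) -
            (61 / 2 * (31 ^ j * (L + 7000) - 7000) + 6307 / 2) := by
          rw [pow_succ]
          have h8 : 7000 ≤ 31 ^ j * (L + 7000) := by nlinarith
          linarith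
        nlinarith
      linarith
  intro s t hs ht
  refine (key s t hs ht).trans ?_
  have := abs_nonneg (s - t)
  nlinarith

/-- abstract product estimate -/
lemma prod_est {n : ℕ} {y F : ℕ → ℝ} {η S : ℝ} (hη : 0 ≤ η) (hη1 : η ≤ 1) (hS : 0 ≤ S)
    (hF : ∀ j, 0 ≤ F j) (hF1 : ∀ j, F j ≤ 61) (hy : 0 ≤ y 0)
    (h : ∀ j < n, y (j + 1) ≤ (F j + η) * y j + S * 2 ^ j) :
    y n ≤ (∏ j ∈ range n, F j + η * n * 62 ^ n) * y 0 + S * n * 62 ^ n := by
  have key : ∀ m ≤ n, y m ≤ (∏ j ∈ range m, F j + η * m * 62 ^ m) * y 0 + S * m * 62 ^ m := by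
    intro m
    induction m with
    | zero => intro _; simp
    | succ m ih =>
      intro hm
      have h1 := ih (by omega)
      have h2 := h m (by omega)
      have hP0 : 0 ≤ ∏ j ∈ range m, F j := prod_nonneg fun j _ => hF j
      have hP1 : ∏ j ∈ range m, F j ≤ 62 ^ m := by
        calc ∏ j ∈ range m, F j ≤ ∏ _j ∈ range m, (62:ℝ) :=
              prod_le_prod (fun j _ => hF j) fun j _ => (hF1 j).trans (by norm_num)
          _ = 62 ^ m := by simp
      have h3 : (F m + η) * y m ≤ (F m + η) *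
          ((∏ j ∈ range m, F j + η * m * 62 ^ m) * y 0 + S * m * 62 ^ m) :=
        mul_le_mul_of_nonneg_left h1 (add_nonneg (hF m) hη)
      have h62 : (0:ℝ) < 62 ^ m := by positivity
      have h2m : (2:ℝ) ^ m ≤ 62 ^ m := pow_le_pow_left₀ (by norm_num) (by norm_num) m
      have hm0 : (0:ℝ) ≤ m := Nat.cast_nonneg m
      have hFm := hF m
      have hFm1 := hF1 m
      rw [prod_range_succ]
      push_cast
      rw [pow_succ]
      have h4 : (F m + η) * ((∏ j ∈ range m, F j + η * m * 62 ^ m) * y 0) ≤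
          ((∏ j ∈ range m, F j) * F m + η * (m + 1) * (62 ^ m * 62)) * y 0 := by
        rw [← mul_assoc]
        apply mul_le_mul_of_nonneg_right _ hy
        have h5 : (F m + η) * (η * m * 62 ^ m) ≤ 62 * (η * m * 62 ^ m) := by
          apply mul_le_mul_of_nonneg_right (by linarith) (by positivity)
        have h6 : η * ∏ j ∈ range m, F j ≤ η * 62 ^ m := by gcongr
        have h7 : 0 ≤ η * 62 ^ m := by positivity
        nlinarith
      have h8 : (F m + η) * (S * m * 62 ^ m) + S * 2 ^ m ≤ S * (m + 1) * (62 ^ m * 62) := by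
        have h9 : (F m + η) * (S * m * 62 ^ m) ≤ 62 * (S * m * 62 ^ m) :=
          mul_le_mul_of_nonneg_right (by linarith) (by positivity)
        have h10 : S * 2 ^ m ≤ S * 62 ^ m := by gcongr
        have h11 : 0 ≤ S * 62 ^ m := by positivity
        nlinarith
      nlinarith
  exact key n le_rfl

/-- **Finite slopes (two points).** -/
theorem One.lip_all (hV : One e ρ K V) (he : ‖e‖ ≤ 1) (hK : 0 ≤ K) {N : ℕ} {σ : ℕ → ℝ} {m M : ℝ}
    (hm : 0 < m) (hσm : ∀ k, m ≤ σ k) (hσM : ∀ k, σ k ≤ M)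
    (hc : ∀ k ≥ N, ∃ n, 1 ≤ n ∧ n ≤ N ∧
      (∏ j ∈ range n, Fk V (k - n + j)) * σ (k - n) ≤ 19 / 20 * 2 ^ n * σ k) :
    ∃ L τ : ℝ, 0 ≤ L ∧ 0 < τ ∧ τ ≤ ρ ∧ ∀ (k : ℕ) (s t : ℝ), |s| ≤ τ → |t| ≤ τ →
      ‖V k s - V k t‖ ≤ L * |s - t| := by
  have hM : 0 < M := lt_of_lt_of_le hm ((hσm 0).trans (hσM 0))
  have hpos := hV.pos
  set N' : ℝ := N + 1 with hN'
  have hN'0 : 0 < N' := by positivity
  -- the constants
  set η : ℝ := min 1 (m / (40 * N' * 62 ^ N * M)) with hη
  have hη0 : 0 < η := lt_min one_pos (by positivity)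
  have hη1 : η ≤ 1 := min_le_left _ _
  have hη2 : η * N' * 62 ^ N * M ≤ m / 40 := by
    have h1 : η ≤ m / (40 * N' * 62 ^ N * M) := min_le_right _ _
    rw [le_div_iff₀ (by positivity)] at h1
    linarith
  set K1 : ℝ := (31 ^ N * (K + 7000) + 40 * 6307 * N' * 62 ^ N) / m with hK1
  have hK10 : 0 < K1 := by positivity
  have hK1a : 31 ^ N * (K + 7000) ≤ K1 * m := by
    rw [hK1, div_mul_cancel₀ _ hm.ne']
    have : 0 ≤ 40 * 6307 * N' * 62 ^ N := by positivity
    linarith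
  have hK1b : 40 * 6307 * N' * 62 ^ N ≤ K1 * m := by
    rw [hK1, div_mul_cancel₀ _ hm.ne']
    have : 0 ≤ 31 ^ N * (K + 7000) := by positivity
    linarith
  set τ : ℝ := min ρ (η / (420 + 2 * (K1 * M))) with hτ
  have hτ0 : 0 < τ := lt_min hpos (by positivity)
  have hτρ : τ ≤ ρ := min_le_left _ _
  have hτη : (420 + 2 * (K1 * M)) * τ ≤ η := by
    have h1 : τ ≤ η / (420 + 2 * (K1 * M)) := min_le_right _ _
    rw [le_div_iff₀ (by positivity)] at h1
    linarith
  have hτk : ∀ k : ℕ, τ ≤ ρ * 2 ^ k := by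
    intro k
    have : (1:ℝ) ≤ 2 ^ k := one_le_pow₀ (by norm_num)
    nlinarith
  have key : ∀ (k : ℕ) (s t : ℝ), |s| ≤ τ → |t| ≤ τ → ‖V k s - V k t‖ ≤ K1 * σ k * |s - t| := by
    intro k
    induction k using Nat.strong_induction_on with
    | _ k ih =>
      intro s t hs ht
      rcases lt_or_ge k N with hk | hk
      · -- small times
        have h1 := hV.crude_lip he (k := 0) (r := ρ) hK (by simp) (fun s t hs ht => hV.lip s t hs ht) k
          s t (hs.trans (hτk k)) (ht.trans (hτk k))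
        rw [zero_add] at h1
        refine h1.trans (mul_le_mul_of_nonneg_right ?_ (abs_nonneg _))
        calc (31:ℝ) ^ k * (K + 7000) ≤ 31 ^ N * (K + 7000) := by
              gcongr
              norm_num
          _ ≤ K1 * m := hK1a
          _ ≤ K1 * σ k := by gcongr; exact hσm k
      · obtain ⟨n, hn1, hnN, hn⟩ := hc k hk
        set p := k - n with hp
        have hkp : k = p + n := by omega
        have h2n : (0:ℝ) < 2 ^ n := by positivity
        set s' := s / 2 ^ n with hs'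
        set t' := t / 2 ^ n with ht'
        have hss : ∀ j ≤ n, |2 ^ j * s'| ≤ τ := by
          intro j hj
          rw [hs', abs_mul, abs_div, abs_of_pos h2n, abs_of_pos (by positivity : (0:ℝ) < 2 ^ j)]
          refine le_trans ?_ hs
          rw [mul_div_assoc', div_le_iff₀ h2n, mul_comm]
          gcongr
          norm_num
        have htt : ∀ j ≤ n, |2 ^ j * t'| ≤ τ := by
          intro j hj
          rw [ht', abs_mul, abs_div, abs_of_pos h2n, abs_of_pos (by positivity : (0:ℝ) < 2 ^ j)]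
          refine le_trans ?_ ht
          rw [mul_div_assoc', div_le_iff₀ h2n, mul_comm]
          gcongr
          norm_num
        set y : ℕ → ℝ := fun j => ‖V (p + j) (2 ^ j * s') - V (p + j) (2 ^ j * t')‖ with hy
        have hst : |s' - t'| = |s - t| / 2 ^ n := by
          rw [hs', ht', ← sub_div, abs_div, abs_of_pos h2n]
        have hstep : ∀ j < n, y (j + 1) ≤ (Fk V (p + j) + η) * y j + 6307 * |s' - t'| * 2 ^ j := by
          intro j hj
          have h1 := hV.step_two he (k := p + j) (s := 2 ^ j * s') (t := 2 ^ j * t')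
            ((hss j hj.le).trans (hτk _)) ((htt j hj.le).trans (hτk _))
          have e1 : 2 * (2 ^ j * s') = 2 ^ (j + 1) * s' := by rw [pow_succ]; ring
          have e2 : 2 * (2 ^ j * t') = 2 ^ (j + 1) * t' := by rw [pow_succ]; ring
          rw [e1, e2] at h1
          have h2 := ih (p + j) (by omega) (2 ^ j * s') 0 (hss j hj.le) (by rw [abs_zero]; exact hτ0.le)
          have h3 := ih (p + j) (by omega) (2 ^ j * t') 0 (htt j hj.le) (by rw [abs_zero]; exact hτ0.le)
          rw [sub_zero] at h2 h3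
          have h4 : K1 * σ (p + j) ≤ K1 * M := by gcongr; exact hσM _
          have h5 : ‖V (p + j) (2 ^ j * s') - V (p + j) 0‖ ≤ K1 * M * τ :=
            h2.trans (mul_le_mul h4 (hss j hj.le) (abs_nonneg _) (by positivity))
          have h6 : ‖V (p + j) (2 ^ j * t') - V (p + j) 0‖ ≤ K1 * M * τ :=
            h3.trans (mul_le_mul h4 (htt j hj.le) (abs_nonneg _) (by positivity))
          have h7 : 420 * |2 ^ j * s'| + ‖V (p + j) (2 ^ j * s') - V (p + j) 0‖ +
              ‖V (p + j) (2 ^ j * t') - V (p + j) 0‖ ≤ η := by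
            have := hss j hj.le
            linarith
          have h8 : |2 ^ j * s' - 2 ^ j * t'| = |s' - t'| * 2 ^ j := by
            rw [← mul_sub, abs_mul, abs_of_pos (by positivity : (0:ℝ) < 2 ^ j)]; ring
          rw [h8] at h1
          show ‖V (p + (j + 1)) (2 ^ (j + 1) * s') - V (p + (j + 1)) (2 ^ (j + 1) * t')‖ ≤ _
          refine h1.trans ?_
          have h9 : (Fk V (p + j) + (420 * |2 ^ j * s'| + ‖V (p + j) (2 ^ j * s') - V (p + j) 0‖ +
              ‖V (p + j) (2 ^ j * t') - V (p + j) 0‖)) * y j ≤ (Fk V (p + j) + η) * y j := by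
            apply mul_le_mul_of_nonneg_right (by linarith) (norm_nonneg _)
          linarith
        have hest := prod_est (n := n) (y := y) (F := fun j => Fk V (p + j)) hη0.le hη1
          (S := 6307 * |s' - t'|) (by positivity) (fun j => Fk_nonneg V _) (fun j => hV.Fk_le _)
          (norm_nonneg _) hstep
        have hyn : y n = ‖V k s - V k t‖ := by
          simp only [hy]
          rw [← hkp, hs', ht', mul_div_cancel₀ _ h2n.ne', mul_div_cancel₀ _ h2n.ne']
        rw [hyn] at hest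
        have hy0 : y 0 ≤ K1 * σ p * |s' - t'| := by
          have := ih p (by omega) s' t' (by simpa using hss 0 (by omega)) (by simpa using htt 0 (by omega))
          simpa [hy] using this
        refine hest.trans ?_
        have hnN' : (n:ℝ) ≤ N' := by
          rw [hN']
          have : (n:ℝ) ≤ N := by exact_mod_cast hnN
          linarith
        have h62 : (62:ℝ) ^ n ≤ 62 ^ N := pow_le_pow_right₀ (by norm_num) hnN
        have hP0 : 0 ≤ ∏ j ∈ range n, Fk V (p + j) := prod_nonneg fun j _ => Fk_nonneg V _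
        have hσp : 0 < σ p := lt_of_lt_of_le hm (hσm p)
        have hσk : 0 < σ k := lt_of_lt_of_le hm (hσm k)
        have h10 : η * n * 62 ^ n * σ p ≤ m / 40 := by
          refine le_trans ?_ hη2
          gcongr
          exact hσM p
        have h11 : (∏ j ∈ range n, Fk V (p + j) + η * n * 62 ^ n) * y 0 ≤
            (19 / 20 * 2 ^ n * σ k + m / 40) * K1 * |s' - t'| := by
          calc (∏ j ∈ range n, Fk V (p + j) + η * n * 62 ^ n) * y 0
              ≤ (∏ j ∈ range n, Fk V (p + j) + η * n * 62 ^ n) * (K1 * σ p * |s' - t'|) := by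
                gcongr
            _ = ((∏ j ∈ range n, Fk V (p + j)) * σ p + η * n * 62 ^ n * σ p) * K1 * |s' - t'| := by ring
            _ ≤ _ := by gcongr
        have h12 : 6307 * |s' - t'| * n * 62 ^ n ≤ (K1 * m / 40) * |s' - t'| := by
          have h13 : 6307 * (n:ℝ) * 62 ^ n ≤ K1 * m / 40 := by
            have h14 : 6307 * (n:ℝ) * 62 ^ n ≤ 6307 * N' * 62 ^ N := by gcongr
            linarith
          calc 6307 * |s' - t'| * n * 62 ^ n = (6307 * (n:ℝ) * 62 ^ n) * |s' - t'| := by ring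
            _ ≤ _ := by gcongr
        have h15 : m ≤ 2 ^ n * σ k := by
          have : (1:ℝ) ≤ 2 ^ n := one_le_pow₀ (by norm_num)
          nlinarith [hσm k]
        calc (∏ j ∈ range n, Fk V (p + j) + η * n * 62 ^ n) * y 0 + 6307 * |s' - t'| * n * 62 ^ n
            ≤ (19 / 20 * 2 ^ n * σ k + m / 40) * K1 * |s' - t'| + (K1 * m / 40) * |s' - t'| :=
              add_le_add h11 h12
          _ = (19 / 20 * (2 ^ n * σ k) + m / 20) * K1 * |s' - t'| := by ring
          _ ≤ (2 ^ n * σ k) * K1 * |s' - t'| := by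
              gcongr
              linarith
          _ = K1 * σ k * |s - t| := by
              rw [hst]; field_simp
  refine ⟨K1 * M, τ, by positivity, hτ0, hτρ, fun k s t hs ht => (key k s t hs ht).trans ?_⟩
  gcongr
  exact hσM k

end Pool.Agent.W_4481e3_h6
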