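import Pool.Agent.W_MP_4481e3_an.Zero

/-!
The admissible region in closed form: `∫ log |1 + α cos 2πx| < 0` iff
`3 |e|² < 2 Re e + |e|⁴` for `e = (α/2)²`.
-/

open MeasureTheory Filter Topology Set Real

namespace Pool.Agent.W_MP_4481e3_an

lemma int_log_exp {a : ℂ} (ha : ‖a‖ < 1) :
    ∫ x in (0:ℝ)..1, Real.log ‖Complex.exp (2 * Real.pi * x * Complex.I) - a‖ = 0 := by
  have h := circleAverage_log_norm_sub_const₀ ha
  rw [Real.circleAverage_def] at h
  have hpi := Real.pi_pos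
  rw [smul_eq_zero] at h
  have h2 : ∫ θ in (0:ℝ)..2 * π, Real.log ‖circleMap 0 1 θ - a‖ = 0 := by
    rcases h with h | h
    · exact absurd h (by positivity)
    · exact h
  have h3 := intervalIntegral.integral_comp_mul_left (a := (0:ℝ)) (b := 1)
    (fun θ : ℝ => Real.log ‖circleMap 0 1 θ - a‖) (c := 2 * π) (by positivity)
  rw [mul_zero, mul_one, h2, smul_zero] at h3
  refine Eq.trans ?_ h3
  apply intervalIntegral.integral_congr
  intro x _
  simp only [circleMap, zero_add, Complex.ofReal_one, one_mul]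
  push_cast
  rfl

lemma int_log_exp' {a : ℂ} (ha : ‖a‖ < 1) :
    ∫ x in (0:ℝ)..1, Real.log ‖Complex.exp (-(2 * Real.pi * x * Complex.I)) - a‖ = 0 := by
  have h := intervalIntegral.integral_comp_sub_left (a := (0:ℝ)) (b := 1)
    (fun x : ℝ => Real.log ‖Complex.exp (2 * Real.pi * x * Complex.I) - a‖) 1
  simp only [sub_self, sub_zero] at h
  refine Eq.trans ?_ (h.trans (int_log_exp ha))
  apply intervalIntegral.integral_congr
  intro x _
  have e : (2 * Real.pi * ((1 - x : ℝ) : ℂ) * Complex.I) =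
      -(2 * Real.pi * x * Complex.I) + 2 * Real.pi * Complex.I := by push_cast; ring
  simp only
  rw [e, Complex.exp_add, Complex.exp_two_pi_mul_I, mul_one]

/-- the algebraic form of the region -/
lemma region_alg {x y : ℝ} (hx : 1 / 2 < x) (hv : x ^ 2 + y ^ 2 < 1) :
    3 * ((x ^ 2 + y ^ 2) * ((1 - x) ^ 2 + y ^ 2)) <
      2 * (x - x ^ 2 + y ^ 2) + ((x ^ 2 + y ^ 2) * ((1 - x) ^ 2 + y ^ 2)) ^ 2 := by
  set ρ := x ^ 2 + y ^ 2 with hρ
  set m := (1 - x) ^ 2 + y ^ 2 with hm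
  have hm1 : m < 1 := by rw [hm]; nlinarith
  have hm0 : 0 ≤ m := by rw [hm]; positivity
  have hρ0 : 0 < ρ := by rw [hρ]; nlinarith [sq_nonneg y]
  have key : 2 * (x - x ^ 2 + y ^ 2) + (ρ * m) ^ 2 - 3 * (ρ * m) =
      (1 - ρ) * (m * (1 - m) + ρ * (1 - m ^ 2)) := by
    rw [hρ, hm]; ring
  have h1 : 0 < m * (1 - m) + ρ * (1 - m ^ 2) := by
    have h2 : 0 ≤ m * (1 - m) := mul_nonneg hm0 (by linarith)
    have h3 : 0 < ρ * (1 - m ^ 2) := mul_pos hρ0 (by nlinarith)
    linarith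
  have h4 : 0 < (1 - ρ) * (m * (1 - m) + ρ * (1 - m ^ 2)) := mul_pos (by linarith) h1
  linarith

/-- **The admissible region.** -/
theorem adm_region {α : ℂ} (hα0 : α ≠ 0) (hα : ‖α‖ < 1) (h0 : ∫ x in (0:ℝ)..1, logf α x < 0) :
    3 * ‖(α / 2) ^ 2‖ ^ 2 < 2 * ((α / 2) ^ 2).re + ‖(α / 2) ^ 2‖ ^ 4 ∧
      ‖(α / 2) ^ 2‖ < 1 / 4 ∧ 0 < ((α / 2) ^ 2).re := by
  -- the square root
  obtain ⟨s, hs, hsre⟩ : ∃ s : ℂ, s ^ 2 = 1 - α ^ 2 ∧ 0 < s.re := by
    obtain ⟨s, hs⟩ := IsAlgClosed.exists_pow_nat_eq (1 - α ^ 2) (n := 2) (by norm_num)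
    have hne : s.re ≠ 0 := by
      intro h
      have h1 : (s ^ 2).re = -(s.im ^ 2) := by
        rw [pow_two, Complex.mul_re, h]; ring
      have h2 : (1 - α ^ 2).re = 1 - (α ^ 2).re := by simp
      have h3 : (α ^ 2).re ≤ ‖α‖ ^ 2 := by
        rw [← norm_pow]; exact Complex.re_le_norm _
      rw [hs, h2] at h1
      nlinarith [sq_nonneg s.im, norm_nonneg α]
    rcases lt_or_gt_of_ne hne with h | h
    · exact ⟨-s, by rw [neg_sq]; exact hs, by simpa using h⟩
    · exact ⟨s, hs, h⟩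
  have h1s : 1 + s ≠ 0 := by
    intro h
    have := congrArg Complex.re h
    simp at this
    linarith
  set v : ℂ := (1 + s) / 2 with hv
  set B : ℂ := α / (1 + s) with hB
  have hv0 : v ≠ 0 := div_ne_zero h1s two_ne_zero
  have hvre : 1 / 2 < v.re := by
    have : v.re = (1 + s.re) / 2 := by rw [hv]; simp
    rw [this]; linarith
  have e1 : v * (1 + B ^ 2) = 1 := by
    rw [hv, hB]
    field_simp
    linear_combination hs
  have e2 : v * B * 2 = α := by
    rw [hv, hB]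
    field_simp
  have hBn : ‖B‖ < 1 := by
    have h2 : ‖1 - s‖ < ‖1 + s‖ := by
      have h3 : ‖1 - s‖ ^ 2 < ‖1 + s‖ ^ 2 := by
        rw [Complex.sq_norm, Complex.sq_norm, Complex.normSq_apply, Complex.normSq_apply]
        simp only [Complex.sub_re, Complex.one_re, Complex.sub_im, Complex.one_im, Complex.add_re,
          Complex.add_im]
        nlinarith
      exact lt_of_pow_lt_pow_left₀ 2 (norm_nonneg _) h3
    have h4 : α ^ 2 = (1 - s) * (1 + s) := by linear_combination hs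
    have h5 : ‖α‖ ^ 2 = ‖1 - s‖ * ‖1 + s‖ := by rw [← norm_pow, h4, norm_mul]
    have h6 : 0 < ‖1 + s‖ := norm_pos_iff.2 h1s
    have h7 : ‖α‖ < ‖1 + s‖ := by
      have : ‖α‖ ^ 2 < ‖1 + s‖ ^ 2 := by nlinarith
      exact lt_of_pow_lt_pow_left₀ 2 (norm_nonneg _) this
    rw [hB, norm_div, div_lt_one h6]
    exact h7
  have hBn' : ‖-B‖ < 1 := by rw [norm_neg]; exact hBn
  -- the factorisation
  have hfac : ∀ x : ℝ, logf α x = Real.log ‖v‖ +
      (Real.log ‖Complex.exp (-(2 * Real.pi * x * Complex.I)) - (-B)‖ +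
        Real.log ‖Complex.exp (2 * Real.pi * x * Complex.I) - (-B)‖) := by
    intro x
    set ζ := Complex.exp (2 * Real.pi * x * Complex.I) with hζ
    have hζn : Complex.exp (-(2 * Real.pi * x * Complex.I)) = ζ⁻¹ := by rw [Complex.exp_neg]
    have hn : ‖ζ‖ = 1 := by
      have : (2 * Real.pi * x * Complex.I) = ((2 * Real.pi * x : ℝ) : ℂ) * Complex.I := by
        push_cast; ring
      rw [hζ, this, Complex.norm_exp_ofReal_mul_I]
    have hζ0 : ζ ≠ 0 := by
      intro h; rw [h, norm_zero] at hn; norm_num at hn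
    rw [hζn, sub_neg_eq_add, sub_neg_eq_add]
    have p1 : ‖ζ⁻¹ + B‖ ≠ 0 := by
      have h1 : ‖ζ⁻¹‖ ≤ ‖ζ⁻¹ + B‖ + ‖B‖ := by
        have := norm_sub_le (ζ⁻¹ + B) B
        simpa using this
      rw [norm_inv, hn, inv_one] at h1
      intro h; rw [h] at h1; linarith
    have p2 : ‖ζ + B‖ ≠ 0 := by
      have h1 : ‖ζ‖ ≤ ‖ζ + B‖ + ‖B‖ := by
        have := norm_sub_le (ζ + B) B
        simpa using this
      rw [hn] at h1
      intro h; rw [h] at h1; linarith
    rw [← Real.log_mul p1 p2, ← Real.log_mul (norm_ne_zero_iff.2 hv0) (mul_ne_zero p1 p2),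
      ← norm_mul, ← norm_mul]
    unfold logf
    congr 2
    have hcos : ((Real.cos (2 * Real.pi * x) : ℝ) : ℂ) = (ζ + ζ⁻¹) / 2 := by
      rw [Complex.ofReal_cos, Complex.cos, ← hζn, hζ]
      push_cast
      congr 3
      ring
    rw [hcos]
    have h8 : v * ((ζ⁻¹ + B) * (ζ + B)) = v * (1 + B ^ 2) + v * B * 2 * ((ζ + ζ⁻¹) / 2) := by
      field_simp
      ring
    rw [h8, e1, e2]
  have hint : ∫ x in (0:ℝ)..1, logf α x = Real.log ‖v‖ := by
    have c1 : Continuous fun x : ℝ =>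
        Real.log ‖Complex.exp (-(2 * Real.pi * x * Complex.I)) - (-B)‖ := by
      apply Continuous.log
      · fun_prop
      · intro x
        have hn : ‖Complex.exp (-(2 * Real.pi * x * Complex.I))‖ = 1 := by
          have : (-(2 * Real.pi * x * Complex.I)) = ((-(2 * Real.pi * x) : ℝ) : ℂ) * Complex.I := by
            push_cast; ring
          rw [this, Complex.norm_exp_ofReal_mul_I]
        have h1 : ‖Complex.exp (-(2 * Real.pi * x * Complex.I))‖ ≤
            ‖Complex.exp (-(2 * Real.pi * x * Complex.I)) - (-B)‖ + ‖-B‖ := by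
          have := norm_add_le (Complex.exp (-(2 * Real.pi * x * Complex.I)) - (-B)) (-B)
          simpa using this
        intro h; rw [h, hn] at h1; linarith
    have c2 : Continuous fun x : ℝ =>
        Real.log ‖Complex.exp (2 * Real.pi * x * Complex.I) - (-B)‖ := by
      apply Continuous.log
      · fun_prop
      · intro x
        have hn : ‖Complex.exp (2 * Real.pi * x * Complex.I)‖ = 1 := by
          have : (2 * Real.pi * x * Complex.I) = ((2 * Real.pi * x : ℝ) : ℂ) * Complex.I := by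
            push_cast; ring
          rw [this, Complex.norm_exp_ofReal_mul_I]
        have h1 : ‖Complex.exp (2 * Real.pi * x * Complex.I)‖ ≤
            ‖Complex.exp (2 * Real.pi * x * Complex.I) - (-B)‖ + ‖-B‖ := by
          have := norm_add_le (Complex.exp (2 * Real.pi * x * Complex.I) - (-B)) (-B)
          simpa using this
        intro h; rw [h, hn] at h1; linarith
    have hcongr : ∫ x in (0:ℝ)..1, logf α x = ∫ x in (0:ℝ)..1, (Real.log ‖v‖ +
      (Real.log ‖Complex.exp (-(2 * Real.pi * x * Complex.I)) - (-B)‖ +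
        Real.log ‖Complex.exp (2 * Real.pi * x * Complex.I) - (-B)‖)) :=
      intervalIntegral.integral_congr fun x _ => hfac x
    have c3 : Continuous fun x : ℝ =>
        Real.log ‖Complex.exp (-(2 * Real.pi * x * Complex.I)) - (-B)‖ +
        Real.log ‖Complex.exp (2 * Real.pi * x * Complex.I) - (-B)‖ := c1.add c2
    rw [hcongr, intervalIntegral.integral_add (continuous_const.intervalIntegrable _ _)
      (c3.intervalIntegrable _ _), intervalIntegral.integral_add
      (c1.intervalIntegrable _ _) (c2.intervalIntegrable _ _), int_log_exp hBn', int_log_exp' hBn']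
    simp
  rw [hint] at h0
  have hvn : ‖v‖ < 1 := by
    by_contra hcon
    push Not at hcon
    have := Real.log_nonneg hcon
    linarith
  have hsq : v.re ^ 2 + v.im ^ 2 < 1 := by
    have := Complex.sq_norm v
    rw [Complex.normSq_apply] at this
    nlinarith [norm_nonneg v]
  have he : (α / 2) ^ 2 = v * (1 - v) := by
    rw [hv]
    have : α ^ 2 = 1 - s ^ 2 := by rw [hs]; ring
    rw [div_pow, this]; ring
  have hα4 : ‖(α / 2) ^ 2‖ < 1 / 4 := by
    rw [norm_pow, norm_div]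
    have : ‖(2:ℂ)‖ = 2 := by simp
    rw [this]
    have h1 : ‖α‖ / 2 < 1 / 2 := by linarith
    have h2 : 0 ≤ ‖α‖ / 2 := by positivity
    nlinarith
  have hsqe : ‖(α / 2) ^ 2‖ ^ 2 =
      (v.re ^ 2 + v.im ^ 2) * ((1 - v.re) ^ 2 + v.im ^ 2) := by
    rw [he, norm_mul, mul_pow, Complex.sq_norm, Complex.sq_norm, Complex.normSq_apply,
      Complex.normSq_apply]
    simp only [Complex.sub_re, Complex.one_re, Complex.sub_im, Complex.one_im]
    ring
  have hre : ((α / 2) ^ 2).re = v.re - v.re ^ 2 + v.im ^ 2 := by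
    rw [he, Complex.mul_re]
    simp only [Complex.sub_re, Complex.one_re, Complex.sub_im, Complex.one_im]
    ring
  have hmain := region_alg hvre hsq
  rw [← hsqe, ← hre] at hmain
  have h4 : (‖(α / 2) ^ 2‖ ^ 2) ^ 2 = ‖(α / 2) ^ 2‖ ^ 4 := by ring
  rw [h4] at hmain
  refine ⟨hmain, hα4, ?_⟩
  have hpos : 0 < ‖(α / 2) ^ 2‖ := norm_pos_iff.2 (pow_ne_zero 2 (div_ne_zero hα0 two_ne_zero))
  have h5 : ‖(α / 2) ^ 2‖ ^ 4 ≤ ‖(α / 2) ^ 2‖ ^ 2 := by
    have h6 : ‖(α / 2) ^ 2‖ ^ 2 ≤ 1 := by nlinarith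
    have h7 : ‖(α / 2) ^ 2‖ ^ 4 = ‖(α / 2) ^ 2‖ ^ 2 * ‖(α / 2) ^ 2‖ ^ 2 := by ring
    rw [h7]
    nlinarith [sq_nonneg ‖(α / 2) ^ 2‖]
  nlinarith [pow_pos hpos 2]

end Pool.Agent.W_MP_4481e3_an
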