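import Pool.Agent.W_4481e3_q12.SndB
import Pool.Agent.W_4481e3_q42.Stmt

/-!
Certified values of the derivative `dd p` of the cosine at the base points, scale `2 ^ 24`.
-/

namespace Pool.Agent.W_4481e3_h6

open Pool.Agent.W_4481e3_q42

/-- from a certified cosine to the derivative -/
lemma dd_aux {s : ℝ} {t T : ℝ} (h : |(1 - s) * 16777216 - t| ≤ 1) (ht : |16777216 - t| ≤ 16777216)
    (hT : |2 * 3.14159265358979323846 * (16777216 - t) - T| ≤ 4) :
    |2 * Real.pi * s * 16777216 - T| ≤ 11 := by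
  have hp1 := Real.pi_gt_d20
  have hp2 := Real.pi_lt_d20
  have h1 : |s * 16777216 - (16777216 - t)| ≤ 1 := by
    have e1 : s * 16777216 - (16777216 - t) = -((1 - s) * 16777216 - t) := by ring
    rw [e1, abs_neg]; exact h
  have e2 : 2 * Real.pi * s * 16777216 - T = 2 * Real.pi * (s * 16777216 - (16777216 - t)) +
      2 * (Real.pi - 3.14159265358979323846) * (16777216 - t) +
      (2 * 3.14159265358979323846 * (16777216 - t) - T) := by ring
  rw [e2]
  have m1 : |2 * Real.pi * (s * 16777216 - (16777216 - t))| ≤ 2 * Real.pi * 1 := by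
    rw [abs_mul, abs_of_pos (by positivity : 0 < 2 * Real.pi)]
    gcongr
  have m2 : |2 * (Real.pi - 3.14159265358979323846) * (16777216 - t)| ≤ 2 * (1 / 10 ^ 20) * 16777216 := by
    rw [abs_mul]
    apply mul_le_mul _ ht (abs_nonneg _) (by norm_num)
    rw [abs_le]
    constructor <;> linarith
  have m3 := abs_add_le (2 * Real.pi * (s * 16777216 - (16777216 - t)) +
      2 * (Real.pi - 3.14159265358979323846) * (16777216 - t))
      (2 * 3.14159265358979323846 * (16777216 - t) - T)
  have m4 := abs_add_le (2 * Real.pi * (s * 16777216 - (16777216 - t)))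
      (2 * (Real.pi - 3.14159265358979323846) * (16777216 - t))
  linarith

lemma cos_chk60 {k tgt : ℕ} (h : Pool.Agent.W_MP_4481e3_an.Ev.cosChk k 60 tgt = true) :
    |(1 - Real.cos (2 * Real.pi * (k / 60))) * 16777216 - tgt| ≤ 1 := by
  have := Pool.Agent.W_MP_4481e3_an.Ev.cosChk_sound h
  push_cast at this
  exact this

theorem dd0 : |dd 0 * 16777216 - (-42875882)| ≤ 11 := by
  have h := cos_chk60 (k := 11) (tgt := 9953307) (by decide +kernel)
  push_cast at h
  have e1 : dd 0 = -(2 * Real.pi * Real.cos (2 * Real.pi * (11 / 60))) := by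
    unfold dd
    rw [show 2 * Real.pi * (2 ^ 0 / 15) = Real.pi / 2 - 2 * Real.pi * (11 / 60) by ring,
      Real.sin_pi_div_two_sub]
  have h2 := dd_aux (T := 42875882) h (by norm_num) (by norm_num)
  rw [e1, show -(2 * Real.pi * Real.cos (2 * Real.pi * (11 / 60))) * 16777216 - -42875882 =
    -(2 * Real.pi * Real.cos (2 * Real.pi * (11 / 60)) * 16777216 - 42875882) by ring, abs_neg]
  exact h2

theorem dd1 : |dd 1 * 16777216 - (-78338134)| ≤ 11 := by
  have h := cos_chk60 (k := 7) (tgt := 4309315) (by decide +kernel)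
  push_cast at h
  have e1 : dd 1 = -(2 * Real.pi * Real.cos (2 * Real.pi * (7 / 60))) := by
    unfold dd
    rw [show 2 * Real.pi * (2 ^ 1 / 15) = Real.pi / 2 - 2 * Real.pi * (7 / 60) by ring,
      Real.sin_pi_div_two_sub]
  have h2 := dd_aux (T := 78338134) h (by norm_num) (by norm_num)
  rw [e1, show -(2 * Real.pi * Real.cos (2 * Real.pi * (7 / 60))) * 16777216 - -78338134 =
    -(2 * Real.pi * Real.cos (2 * Real.pi * (7 / 60)) * 16777216 - 78338134) by ring, abs_neg]
  exact h2

theorem dd2 : |dd 2 * 16777216 - (-104836886)| ≤ 11 := by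
  have h := cos_chk60 (k := 1) (tgt := 91907) (by decide +kernel)
  push_cast at h
  have e1 : dd 2 = -(2 * Real.pi * Real.cos (2 * Real.pi * (1 / 60))) := by
    unfold dd
    rw [show 2 * Real.pi * (2 ^ 2 / 15) = 2 * Real.pi * (1 / 60) + Real.pi / 2 by ring,
      Real.sin_add_pi_div_two]
  have h2 := dd_aux (T := 104836886) h (by norm_num) (by norm_num)
  rw [e1, show -(2 * Real.pi * Real.cos (2 * Real.pi * (1 / 60))) * 16777216 - -104836886 =
    -(2 * Real.pi * Real.cos (2 * Real.pi * (1 / 60)) * 16777216 - 104836886) by ring, abs_neg]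
  exact h2

theorem dd3 : |dd 3 * 16777216 - 21916877| ≤ 11 := by
  have h := cos_chk60 (k := 17) (tgt := 20265395) (by decide +kernel)
  push_cast at h
  have e1 : dd 3 = -(2 * Real.pi * Real.cos (2 * Real.pi * (17 / 60))) := by
    unfold dd
    rw [show 2 * Real.pi * (2 ^ 3 / 15) = 2 * Real.pi * (17 / 60) + Real.pi / 2 by ring,
      Real.sin_add_pi_div_two]
  have h2 := dd_aux (T := -21916877) h (by norm_num) (by norm_num)
  rw [e1, show -(2 * Real.pi * Real.cos (2 * Real.pi * (17 / 60))) * 16777216 - 21916877 =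
    -(2 * Real.pi * Real.cos (2 * Real.pi * (17 / 60)) * 16777216 - -21916877) by ring, abs_neg]
  exact h2

/-- the integer approximations -/
def ddi (p : ℕ) : ℤ :=
  if p % 4 = 0 then -42875882 else if p % 4 = 1 then -78338134 else if p % 4 = 2 then -104836886
  else 21916877

/-- the integer approximations of the cosines -/
def cci (p : ℕ) : ℤ :=
  if p % 4 = 0 then 15326749 else if p % 4 = 1 then 11226149 else if p % 4 = 2 then -1753697
  else -16410594

theorem dd_approx {p : ℕ} (hp : p < 4) : |dd p * 16777216 - ddi p| ≤ 11 := by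
  rcases (by omega : p = 0 ∨ p = 1 ∨ p = 2 ∨ p = 3) with rfl | rfl | rfl | rfl
  · have := dd0; simpa [ddi] using this
  · have := dd1; simpa [ddi] using this
  · have := dd2; simpa [ddi] using this
  · have := dd3; simpa [ddi] using this

theorem cc_approx {p : ℕ} (hp : p < 4) : |cc p * 16777216 - cci p| ≤ 1 := by
  have hc : ∀ p, cc p = Pool.Agent.W_4481e3_q12.Ev.cph p := fun p => rfl
  rcases (by omega : p = 0 ∨ p = 1 ∨ p = 2 ∨ p = 3) with rfl | rfl | rfl | rfl
  · have := Pool.Agent.W_4481e3_q12.Ev.chk0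
    rw [hc, show Pool.Agent.W_4481e3_q12.Ev.cph 0 * 16777216 - (cci 0 : ℤ) =
      -((1 - Pool.Agent.W_4481e3_q12.Ev.cph 0) * 16777216 - 1450467) by simp [cci]; ring, abs_neg]
    exact this
  · have := Pool.Agent.W_4481e3_q12.Ev.chk1
    rw [hc, show Pool.Agent.W_4481e3_q12.Ev.cph 1 * 16777216 - (cci 1 : ℤ) =
      -((1 - Pool.Agent.W_4481e3_q12.Ev.cph 1) * 16777216 - 5551067) by simp [cci]; ring, abs_neg]
    exact this
  · have := Pool.Agent.W_4481e3_q12.Ev.chk2
    rw [hc, show Pool.Agent.W_4481e3_q12.Ev.cph 2 * 16777216 - (cci 2 : ℤ) =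
      -((1 - Pool.Agent.W_4481e3_q12.Ev.cph 2) * 16777216 - 18530913) by simp [cci]; ring, abs_neg]
    exact this
  · have := Pool.Agent.W_4481e3_q12.Ev.chk3'
    rw [hc, show Pool.Agent.W_4481e3_q12.Ev.cph 3 * 16777216 - (cci 3 : ℤ) =
      -((1 - Pool.Agent.W_4481e3_q12.Ev.cph 3) * 16777216 - 33187810) by simp [cci]; ring, abs_neg]
    exact this

end Pool.Agent.W_4481e3_h6
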