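import Pool.Agent.W_4481e3_h6.PastF

/-!
First order forms `FO η ω x v E W r` in two parameters: product, the factor `1 - 2 c x`, the source
`d (e - x ^ 2)`; the slope `a₀ = G a + S` with `G`, `S` given by such forms.
-/

namespace Pool.Agent.W_4481e3_h6

open Pool.Agent.W_4481e3_q42

section
variable {η ω : ℂ} {ρ δ : ℝ}

/-- product of two forms; `mp`, `mq` bound the linear parts -/
theorem FO.mul {x y p pE pW q qE qW : ℂ} {r s mp mq : ℝ} (hx : FO η ω x p pE pW r)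
    (hy : FO η ω y q qE qW s) (hp : ‖pE * η + pW * ω‖ ≤ mp) (hq : ‖qE * η + qW * ω‖ ≤ mq) :
    FO η ω (x * y) (p * q) (p * qE + q * pE) (p * qW + q * pW)
      (mp * mq + r * (‖q‖ + mq + s) + s * (‖p‖ + mp)) := by
  unfold FO at *
  set L := pE * η + pW * ω with hL
  set M := qE * η + qW * ω with hM
  have e1 : x * y - (p * q + ((p * qE + q * pE) * η + (p * qW + q * pW) * ω)) =
      L * M + (x - (p + L)) * (q + M + (y - (q + M))) + (y - (q + M)) * (p + L) := by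
    rw [hL, hM]; ring
  rw [e1]
  have n1 := norm_add_le (L * M + (x - (p + L)) * (q + M + (y - (q + M)))) ((y - (q + M)) * (p + L))
  have n2 := norm_add_le (L * M) ((x - (p + L)) * (q + M + (y - (q + M))))
  have hmp : 0 ≤ mp := (norm_nonneg _).trans hp
  have hr : 0 ≤ r := (norm_nonneg _).trans hx
  have hs : 0 ≤ s := (norm_nonneg _).trans hy
  have n3 : ‖L * M‖ ≤ mp * mq := by rw [norm_mul]; gcongr
  have n4 : ‖q + M + (y - (q + M))‖ ≤ ‖q‖ + mq + s :=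
    (norm_add_le _ _).trans (add_le_add ((norm_add_le _ _).trans (by gcongr)) hy)
  have n5 : ‖(x - (p + L)) * (q + M + (y - (q + M)))‖ ≤ r * (‖q‖ + mq + s) := by
    rw [norm_mul]; gcongr
  have n6 : ‖(y - (q + M)) * (p + L)‖ ≤ s * (‖p‖ + mp) := by
    rw [norm_mul]
    have : ‖p + L‖ ≤ ‖p‖ + mp := (norm_add_le _ _).trans (by gcongr)
    gcongr
  linarith

theorem FO.add {x y p pE pW q qE qW : ℂ} {r s : ℝ} (hx : FO η ω x p pE pW r)
    (hy : FO η ω y q qE qW s) : FO η ω (x + y) (p + q) (pE + qE) (pW + qW) (r + s) := by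
  unfold FO at *
  have e1 : x + y - (p + q + ((pE + qE) * η + (pW + qW) * ω)) =
      (x - (p + (pE * η + pW * ω))) + (y - (q + (qE * η + qW * ω))) := by ring
  rw [e1]
  exact (norm_add_le _ _).trans (add_le_add hx hy)

theorem FO.smul {x p pE pW : ℂ} {r : ℝ} (hx : FO η ω x p pE pW r) (c : ℂ) :
    FO η ω (c * x) (c * p) (c * pE) (c * pW) (‖c‖ * r) := by
  unfold FO at *
  have e1 : c * x - (c * p + (c * pE * η + c * pW * ω)) = c * (x - (p + (pE * η + pW * ω))) := by ring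
  rw [e1, norm_mul]
  gcongr

theorem FO.half {x p pE pW : ℂ} {r : ℝ} (hx : FO η ω x p pE pW r) :
    FO η ω (x / 2) (p / 2) (pE / 2) (pW / 2) (r / 2) := by
  have h := FO.smul hx (1 / 2)
  unfold FO at *
  have e1 : x / 2 - (p / 2 + (pE / 2 * η + pW / 2 * ω)) =
      1 / 2 * x - (1 / 2 * p + (1 / 2 * pE * η + 1 / 2 * pW * ω)) := by ring
  rw [e1]
  refine h.trans (le_of_eq ?_)
  rw [norm_div, norm_one, Complex.norm_ofNat]
  ring

/-- the factor `1 - 2 c x` -/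
theorem FO.fac {x v E W : ℂ} {r : ℝ} (hx : FO η ω x v E W r) (c : ℂ) :
    FO η ω (1 - 2 * c * x) (1 - 2 * c * v) (-(2 * c * E)) (-(2 * c * W)) (2 * ‖c‖ * r) := by
  unfold FO at *
  have e1 : 1 - 2 * c * x - (1 - 2 * c * v + (-(2 * c * E) * η + -(2 * c * W) * ω)) =
      -(2 * c * (x - (v + (E * η + W * ω)))) := by ring
  rw [e1, norm_neg, norm_mul, norm_mul, Complex.norm_ofNat]
  gcongr

/-- the source `d (e - x ^ 2)`, `e = ec + η` -/
theorem FO.src {x v E W e ec : ℂ} {r m : ℝ} (hx : FO η ω x v E W r) (he : e = ec + η)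
    (hm : ‖E * η + W * ω‖ ≤ m) (d : ℂ) :
    FO η ω (d * (e - x ^ 2)) (d * (ec - v ^ 2)) (d * (1 - 2 * v * E)) (-(2 * d * v * W))
      (‖d‖ * (2 * ‖v‖ * r + (m + r) ^ 2)) := by
  unfold FO at *
  set L := E * η + W * ω with hL
  have e1 : d * (e - x ^ 2) - (d * (ec - v ^ 2) + (d * (1 - 2 * v * E) * η + -(2 * d * v * W) * ω)) =
      -(d * (2 * v * (x - (v + L)) + (L + (x - (v + L))) ^ 2)) := by
    rw [he, hL]; ring
  rw [e1, norm_neg, norm_mul]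
  have hm0 : 0 ≤ m := (norm_nonneg _).trans hm
  have hr0 : 0 ≤ r := (norm_nonneg _).trans hx
  have n1 : ‖2 * v * (x - (v + L)) + (L + (x - (v + L))) ^ 2‖ ≤ 2 * ‖v‖ * r + (m + r) ^ 2 := by
    refine (norm_add_le _ _).trans ?_
    rw [norm_mul, norm_mul, norm_pow, Complex.norm_ofNat]
    have : ‖L + (x - (v + L))‖ ≤ m + r := (norm_add_le _ _).trans (add_le_add hm hx)
    gcongr
  gcongr

/-- `a₀ = G a + S` with forms -/
def GS (η ω a0 a : ℂ) (g gE gW s sE sW : ℂ) (gr sr : ℝ) : Prop :=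
  ∃ G S : ℂ, a0 = G * a + S ∧ FO η ω G g gE gW gr ∧ FO η ω S s sE sW sr

theorem GS.refl (η ω a : ℂ) : GS η ω a a 1 0 0 0 0 0 0 0 :=
  ⟨1, 0, by ring, by simp [FO], by simp [FO]⟩

/-- rounding -/
theorem GS.round {a0 a g gE gW s sE sW g' gE' gW' s' sE' sW' : ℂ} {gr sr gr' sr' r1 r2 r3 r4 r5 r6 : ℝ}
    (h : GS η ω a0 a g gE gW s sE sW gr sr) (hη : ‖η‖ ≤ ρ) (hω : ‖ω‖ ≤ δ)
    (h1 : ‖g - g'‖ ≤ r1) (h2 : ‖gE - gE'‖ ≤ r2) (h3 : ‖gW - gW'‖ ≤ r3)
    (h4 : ‖s - s'‖ ≤ r4) (h5 : ‖sE - sE'‖ ≤ r5) (h6 : ‖sW - sW'‖ ≤ r6)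
    (hg : gr + r1 + r2 * ρ + r3 * δ ≤ gr') (hs : sr + r4 + r5 * ρ + r6 * δ ≤ sr') :
    GS η ω a0 a g' gE' gW' s' sE' sW' gr' sr' := by
  obtain ⟨G, S, e, hG, hS⟩ := h
  exact ⟨G, S, e, hG.round hη hω h1 h2 h3 hg, hS.round hη hω h4 h5 h6 hs⟩

/-- **One more past digit** (backward), two parameters. -/
theorem GS.back {a0 a b x e ec v E W c d g gE gW s sE sW : ℂ} {gr sr r m mg : ℝ}
    (h : GS η ω a0 a g gE gW s sE sW gr sr)
    (ha : a = ((1 - 2 * c * x) * b + d * (e - x ^ 2)) / 2) (hx : FO η ω x v E W r) (he : e = ec + η)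
    (hm : ‖E * η + W * ω‖ ≤ m) (hmg : ‖gE * η + gW * ω‖ ≤ mg) {mf ms : ℝ}
    (hmf : ‖-(2 * c * E) * η + -(2 * c * W) * ω‖ ≤ mf)
    (hms : ‖d * (1 - 2 * v * E) * η + -(2 * d * v * W) * ω‖ ≤ ms) :
    GS η ω a0 b (g * (1 - 2 * c * v) / 2)
      ((g * (-(2 * c * E)) + (1 - 2 * c * v) * gE) / 2)
      ((g * (-(2 * c * W)) + (1 - 2 * c * v) * gW) / 2)
      (s + g * (d * (ec - v ^ 2)) / 2)
      (sE + (g * (d * (1 - 2 * v * E)) + d * (ec - v ^ 2) * gE) / 2)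
      (sW + (g * (-(2 * d * v * W)) + d * (ec - v ^ 2) * gW) / 2)
      ((mg * mf + gr * (‖1 - 2 * c * v‖ + mf + 2 * ‖c‖ * r) + 2 * ‖c‖ * r * (‖g‖ + mg)) / 2)
      (sr + (mg * ms + gr * (‖d * (ec - v ^ 2)‖ + ms + ‖d‖ * (2 * ‖v‖ * r + (m + r) ^ 2)) +
        ‖d‖ * (2 * ‖v‖ * r + (m + r) ^ 2) * (‖g‖ + mg)) / 2) := by
  obtain ⟨G, S, e1, hG, hS⟩ := h
  refine ⟨G * (1 - 2 * c * x) / 2, S + G * (d * (e - x ^ 2)) / 2, by rw [e1, ha]; ring, ?_, ?_⟩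
  · exact FO.half (FO.mul hG (FO.fac hx c) hmg hmf)
  · exact FO.add hS (FO.half (FO.mul hG (FO.src hx he hm d) hmg hms))

/-- `a₀` at a cell of `a` (forward use): `a = ac + A'`, `‖A'‖ ≤ t` -/
theorem GS.val {a0 a ac g gE gW s sE sW : ℂ} {gr sr mg t : ℝ}
    (h : GS η ω a0 a g gE gW s sE sW gr sr) (hmg : ‖gE * η + gW * ω‖ ≤ mg) (ha : ‖a - ac‖ ≤ t) :
    ‖a0 - (g * ac + s + ((gE * ac + sE) * η + (gW * ac + sW) * ω) + g * (a - ac))‖ ≤
      mg * t + gr * (‖ac‖ + t) + sr := by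
  obtain ⟨G, S, e1, hG, hS⟩ := h
  unfold FO at hG hS
  set u := G - (g + (gE * η + gW * ω)) with hu
  set w := S - (s + (sE * η + sW * ω)) with hw
  have e2 : a0 - (g * ac + s + ((gE * ac + sE) * η + (gW * ac + sW) * ω) + g * (a - ac)) =
      (gE * η + gW * ω) * (a - ac) + u * a + w := by
    rw [e1, hu, hw]; ring
  rw [e2]
  have n1 := norm_add_le ((gE * η + gW * ω) * (a - ac) + u * a) w
  have n2 := norm_add_le ((gE * η + gW * ω) * (a - ac)) (u * a)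
  have n3 : ‖(gE * η + gW * ω) * (a - ac)‖ ≤ mg * t := by
    rw [norm_mul]
    exact mul_le_mul hmg ha (norm_nonneg _) ((norm_nonneg _).trans hmg)
  have n4 : ‖a‖ ≤ ‖ac‖ + t := by
    have := norm_sub_norm_le a ac
    linarith
  have n5 : ‖u * a‖ ≤ gr * (‖ac‖ + t) := by
    rw [norm_mul]
    exact mul_le_mul hG n4 (norm_nonneg _) ((norm_nonneg _).trans hG)
  linarith

/-- **Slope at the past time**: `ac + aE η + aW ω` approximates `(α - S) / G` -/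
theorem GS.slope {a0 a g gE gW s sE sW α ac aE aW : ℂ} {gr sr mg ma r t0 t1 t2 dl : ℝ}
    (h : GS η ω a0 a g gE gW s sE sW gr sr) (hη : ‖η‖ ≤ ρ) (hω : ‖ω‖ ≤ δ) (hα : ‖a0 - α‖ ≤ dl)
    (hmg : ‖gE * η + gW * ω‖ ≤ mg) (hma : ‖aE * η + aW * ω‖ ≤ ma)
    (ht0 : ‖g * ac - (α - s)‖ ≤ t0) (ht1 : ‖sE + gE * ac + g * aE‖ ≤ t1)
    (ht2 : ‖sW + gW * ac + g * aW‖ ≤ t2) (hG : gr + mg < ‖g‖)
    (hr : dl + sr + gr * (‖ac‖ + ma) + t0 + t1 * ρ + t2 * δ + mg * ma ≤ r * (‖g‖ - mg - gr)) :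
    FO η ω a ac aE aW r := by
  obtain ⟨G, S, e1, h1, h2⟩ := h
  unfold FO at h1 h2 ⊢
  have h3 : ‖g‖ - mg - gr ≤ ‖G‖ := by
    have e2 : g = G - (G - (g + (gE * η + gW * ω))) - (gE * η + gW * ω) := by ring
    have m1 : ‖g‖ ≤ ‖G‖ + ‖G - (g + (gE * η + gW * ω))‖ + ‖gE * η + gW * ω‖ := by
      conv_lhs => rw [e2]
      exact (norm_sub_le _ _).trans (by gcongr; exact norm_sub_le _ _)
    linarith
  have e2 : G * (a - (ac + (aE * η + aW * ω))) = (a0 - α) - (S - (s + (sE * η + sW * ω))) -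
      (g * ac - (α - s)) - (sE + gE * ac + g * aE) * η - (sW + gW * ac + g * aW) * ω -
      (G - (g + (gE * η + gW * ω))) * (ac + (aE * η + aW * ω)) -
      (gE * η + gW * ω) * (aE * η + aW * ω) := by
    rw [e1]; ring
  have h4 : ‖G‖ * ‖a - (ac + (aE * η + aW * ω))‖ ≤
      dl + sr + gr * (‖ac‖ + ma) + t0 + t1 * ρ + t2 * δ + mg * ma := by
    rw [← norm_mul, e2]
    have m1 := norm_sub_le ((a0 - α) - (S - (s + (sE * η + sW * ω))) -
      (g * ac - (α - s)) - (sE + gE * ac + g * aE) * η - (sW + gW * ac + g * aW) * ω -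
      (G - (g + (gE * η + gW * ω))) * (ac + (aE * η + aW * ω)))
      ((gE * η + gW * ω) * (aE * η + aW * ω))
    have m2 := norm_sub_le ((a0 - α) - (S - (s + (sE * η + sW * ω))) -
      (g * ac - (α - s)) - (sE + gE * ac + g * aE) * η - (sW + gW * ac + g * aW) * ω)
      ((G - (g + (gE * η + gW * ω))) * (ac + (aE * η + aW * ω)))
    have m3 := norm_sub_le ((a0 - α) - (S - (s + (sE * η + sW * ω))) -
      (g * ac - (α - s)) - (sE + gE * ac + g * aE) * η) ((sW + gW * ac + g * aW) * ω)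
    have m4 := norm_sub_le ((a0 - α) - (S - (s + (sE * η + sW * ω))) -
      (g * ac - (α - s))) ((sE + gE * ac + g * aE) * η)
    have m5 := norm_sub_le ((a0 - α) - (S - (s + (sE * η + sW * ω)))) (g * ac - (α - s))
    have m6 := norm_sub_le (a0 - α) (S - (s + (sE * η + sW * ω)))
    have n1 : ‖(gE * η + gW * ω) * (aE * η + aW * ω)‖ ≤ mg * ma := by
      rw [norm_mul]; exact mul_le_mul hmg hma (norm_nonneg _) ((norm_nonneg _).trans hmg)
    have n2 : ‖(sE + gE * ac + g * aE) * η‖ ≤ t1 * ρ := by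
      rw [norm_mul]; exact mul_le_mul ht1 hη (norm_nonneg _) ((norm_nonneg _).trans ht1)
    have n3 : ‖(sW + gW * ac + g * aW) * ω‖ ≤ t2 * δ := by
      rw [norm_mul]; exact mul_le_mul ht2 hω (norm_nonneg _) ((norm_nonneg _).trans ht2)
    have n4 : ‖ac + (aE * η + aW * ω)‖ ≤ ‖ac‖ + ma := (norm_add_le _ _).trans (by gcongr)
    have n5 : ‖(G - (g + (gE * η + gW * ω))) * (ac + (aE * η + aW * ω))‖ ≤ gr * (‖ac‖ + ma) := by
      rw [norm_mul]; exact mul_le_mul h1 n4 (norm_nonneg _) ((norm_nonneg _).trans h1)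
    linarith
  have h5 : (‖g‖ - mg - gr) * ‖a - (ac + (aE * η + aW * ω))‖ ≤ (‖g‖ - mg - gr) * r := by
    have := mul_le_mul_of_nonneg_right h3 (norm_nonneg (a - (ac + (aE * η + aW * ω))))
    linarith
  exact le_of_mul_le_mul_left h5 (by linarith)

/-- forget the first order part -/
theorem GS.toPB {a0 a g gE gW s sE sW : ℂ} {gr sr mg ms : ℝ}
    (h : GS η ω a0 a g gE gW s sE sW gr sr) (hmg : ‖gE * η + gW * ω‖ ≤ mg)
    (hms : ‖sE * η + sW * ω‖ ≤ ms) : PB a0 a g s (gr + mg) (sr + ms) := by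
  obtain ⟨G, S, e, hG, hS⟩ := h
  unfold FO at hG hS
  refine ⟨G, S, e, ?_, ?_⟩
  · have e1 : G - g = (G - (g + (gE * η + gW * ω))) + (gE * η + gW * ω) := by ring
    rw [e1]
    exact (norm_add_le _ _).trans (add_le_add hG hmg)
  · have e1 : S - s = (S - (s + (sE * η + sW * ω))) + (sE * η + sW * ω) := by ring
    rw [e1]
    exact (norm_add_le _ _).trans (add_le_add hS hms)

/-- form of the test point -/
theorem test_formW {Z w a v D W ac aE aW : ℂ} {s r ra κ : ℝ} (hw : FO η ω w v D W r)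
    (ha : FO η ω a ac aE aW ra) (hZ : ‖Z - (w + a * s)‖ ≤ κ * s ^ 2 / 2) :
    FO η ω Z (v + ac * s) (D + aE * s) (W + aW * s) (r + |s| * ra + κ * s ^ 2 / 2) := by
  unfold FO at *
  have e1 : Z - (v + ac * s + ((D + aE * s) * η + (W + aW * s) * ω)) =
      (Z - (w + a * s)) + (w - (v + (D * η + W * ω))) + (s : ℂ) * (a - (ac + (aE * η + aW * ω))) := by
    ring
  rw [e1]
  have m1 := norm_add_le ((Z - (w + a * s)) + (w - (v + (D * η + W * ω))))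
    ((s : ℂ) * (a - (ac + (aE * η + aW * ω))))
  have m2 := norm_add_le (Z - (w + a * s)) (w - (v + (D * η + W * ω)))
  rw [norm_mul, Complex.norm_real, Real.norm_eq_abs] at m1
  have m3 : |s| * ‖a - (ac + (aE * η + aW * ω))‖ ≤ |s| * ra := by gcongr
  linarith

/-- **Past node, two parameters.** -/
theorem past_nodeW {x w e ec c v D U v0 D0 U0 v2 D2 U2 : ℂ} {r0 r2 r m : ℝ} (hc : c ≠ 0)
    (hη : ‖η‖ ≤ ρ) (hω : ‖ω‖ ≤ δ) (hxw : w = x + c * (e - x ^ 2))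
    (hw : FO η ω w v0 D0 U0 r0)
    (hq : FO η ω ((v + (D * η + U * ω)) + c * (e - (v + (D * η + U * ω)) ^ 2)) v2 D2 U2 r2)
    (hm : m + 2 * ‖c‖ * (‖D‖ * ρ + ‖U‖ * δ) ≤ ‖1 - 2 * c * v‖) (hr : 0 ≤ r) (hr2 : 2 * ‖c‖ * r ≤ m)
    (hR : ‖v2 - v0‖ + ‖D2 - D0‖ * ρ + ‖U2 - U0‖ * δ + r2 + r0 < r * (m - ‖c‖ * r)) :
    FO η ω x v D U r ∨ FO η ω x (1 / c - v) (-D) (-U) r := by
  unfold FO at *
  set q := v + (D * η + U * ω) with hq'
  have h1 : ‖x + c * (e - x ^ 2) - (q + c * (e - q ^ 2))‖ ≤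
      ‖v2 - v0‖ + ‖D2 - D0‖ * ρ + ‖U2 - U0‖ * δ + r2 + r0 := by
    rw [← hxw]
    have e1 : w - (q + c * (e - q ^ 2)) =
        (w - (v0 + (D0 * η + U0 * ω))) - (q + c * (e - q ^ 2) - (v2 + (D2 * η + U2 * ω))) -
          ((v2 - v0) + (D2 - D0) * η + (U2 - U0) * ω) := by ring
    rw [e1]
    refine (norm_sub_le _ _).trans ?_
    have m1 := norm_sub_le (w - (v0 + (D0 * η + U0 * ω)))
      (q + c * (e - q ^ 2) - (v2 + (D2 * η + U2 * ω)))
    have m2 := norm_add_le ((v2 - v0) + (D2 - D0) * η) ((U2 - U0) * ω)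
    have m3 := norm_add_le (v2 - v0) ((D2 - D0) * η)
    rw [norm_mul] at m2 m3
    have m4 : ‖D2 - D0‖ * ‖η‖ ≤ ‖D2 - D0‖ * ρ := by gcongr
    have m5 : ‖U2 - U0‖ * ‖ω‖ ≤ ‖U2 - U0‖ * δ := by gcongr
    linarith
  have h2 : m ≤ ‖1 - 2 * c * q‖ := by
    have e1 : 1 - 2 * c * q = (1 - 2 * c * v) - 2 * c * (D * η + U * ω) := by rw [hq']; ring
    rw [e1]
    have m1 := norm_sub_norm_le (1 - 2 * c * v) (2 * c * (D * η + U * ω))
    have m2 : ‖2 * c * (D * η + U * ω)‖ ≤ 2 * ‖c‖ * (‖D‖ * ρ + ‖U‖ * δ) := by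
      rw [norm_mul, norm_mul, Complex.norm_ofNat]
      have : ‖D * η + U * ω‖ ≤ ‖D‖ * ρ + ‖U‖ * δ := by
        refine (norm_add_le _ _).trans ?_
        rw [norm_mul, norm_mul]; gcongr
      gcongr
    linarith
  rcases back_step hc h1 h2 hr hr2 hR with h | h
  · exact Or.inl h.le
  · right
    have e1 : x - (1 / c - v + (-D * η + -U * ω)) = x - (1 / c - q) := by rw [hq']; ring
    rw [e1]; exact h.le

end

end Pool.Agent.W_4481e3_h6
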