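import Pool.Agent.W_4481e3_h6.LossB

/-!
Windowed growth for `L = 2`: one step multiplies the exponent by at most `1.52`.
-/

open MeasureTheory Filter Topology Set

namespace Pool.Agent.W_MP_4481e3_an

variable {α : ℂ}

/-- two constants on the disc of radius `1/2` -/
theorem lemmaR2 {g : ℂ → ℂ} (hg : Differentiable ℂ g) {X : ℝ} (hX : 0 ≤ X)
    (hb : ∀ w : ℂ, ‖w‖ ≤ 1 → ‖g w‖ ≤ Real.exp X)
    (hm : volume {t : ℝ | |t| ≤ 1 ∧ 1 < ‖g t‖} ≤ ENNReal.ofReal (1 / 500)) {w : ℂ}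
    (hw : ‖w‖ ≤ 1 / 2) :
    ‖g w‖ ≤ 2 * Real.exp (19 / 25 * X) := by
  have hsq : w.re ^ 2 + w.im ^ 2 ≤ 1 / 4 := by
    have := Complex.sq_norm w
    rw [Complex.normSq_apply] at this
    nlinarith [norm_nonneg w]
  by_cases h : w.im ^ 2 < 1 / 100
  · refine (two_const_strip hg hX (by norm_num) hb hm ⟨by nlinarith [sq_nonneg w.im], h⟩).trans ?_
    rw [mul_comm (19/25) X]
    gcongr
    nlinarith [sq_nonneg w.im]
  · push Not at h
    have habs : 1 / 10 ≤ |w.im| := by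
      by_contra hlt
      push Not at hlt
      have : |w.im| ^ 2 < (1/10) ^ 2 := by
        have := abs_nonneg w.im
        nlinarith
      rw [sq_abs] at this
      linarith
    have hne : w.im ≠ 0 := by
      intro h0; rw [h0] at habs; norm_num at habs
    refine (two_const_both hg hX (by norm_num) hb hm (hw.trans (by norm_num)) hne).trans ?_
    have hy : |w.im| ≤ 1 / 2 := (Complex.abs_im_le_norm w).trans hw
    have hdiv : (1 / 500 : ℝ) / |w.im| ≤ 1 / 250 + 1 / 20 * (1 / 2 - |w.im|) := by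
      rw [div_le_iff₀ (by linarith)]
      nlinarith [mul_nonneg (sub_nonneg.2 habs) (sub_nonneg.2 hy)]
    rw [mul_comm (19/25) X]
    have : w.re ^ 2 - w.im ^ 2 + 2 * |w.im| + 1 / 500 / |w.im| ≤ 19 / 25 := by
      have h6 : w.im ^ 2 = |w.im| ^ 2 := (sq_abs _).symm
      rw [h6] at hsq ⊢
      nlinarith [sq_nonneg (|w.im| - 39 / 80)]
    gcongr

/-- the constant of the one step recursion -/
noncomputable def CG (ρ : ℝ) : ℝ := Real.log (12 * Real.exp (2 * Real.pi) * ρ)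

lemma CG_nonneg {ρ : ℝ} (hρ : 1 ≤ ρ) : 0 ≤ CG ρ := by
  apply Real.log_nonneg
  have h1 : (1:ℝ) ≤ Real.exp (2 * Real.pi) := Real.one_le_exp (by positivity)
  nlinarith

lemma G_step (hα : ‖α‖ ≤ 1) {ρ : ℝ} (hρ : 1 ≤ ρ) {z : ℂ} {c : ℝ} {n : ℕ} {X : ℝ}
    (hX : 0 ≤ X) (h1 : ∀ ζ : ℂ, ‖ζ‖ ≤ 1 → ‖O α 2 n (c + ζ / ((2:ℕ) : ℂ) ^ n) z‖ ≤ ρ * Real.exp X)
    (h2 : volume {t : ℝ | |t| ≤ 1 ∧ ρ < ‖O α 2 n (c + t / ((2:ℕ) : ℂ) ^ n) z‖} ≤
      ENNReal.ofReal (1 / 500)) {ζ : ℂ} (hζ : ‖ζ‖ ≤ 1) :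
    ‖O α 2 (n + 1) (c + ζ / ((2:ℕ) : ℂ) ^ (n + 1)) z‖ ≤ ρ * Real.exp (38 / 25 * X + CG ρ) := by
  have hρ0 : 0 < ρ := by linarith
  set g : ℂ → ℂ := fun ζ => O α 2 n (c + ζ / ((2:ℕ) : ℂ) ^ n) z / ρ with hg
  have hgd : Differentiable ℂ g := (O_scaled_diff n c z).div_const _
  have hgn : ∀ ζ, ‖g ζ‖ = ‖O α 2 n (c + ζ / ((2:ℕ) : ℂ) ^ n) z‖ / ρ := by
    intro ζ
    rw [hg]
    simp only [norm_div, Complex.norm_real, Real.norm_eq_abs, abs_of_pos hρ0]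
  have hn2 : ‖ζ / ((2:ℕ) : ℂ)‖ ≤ 1 / 2 := by
    rw [norm_div, Complex.norm_natCast]
    push_cast
    linarith
  have hR := lemmaR2 hgd hX (by
      intro w hw
      rw [hgn, div_le_iff₀ hρ0, mul_comm]
      exact h1 w hw) (by
      refine le_trans (measure_mono ?_) h2
      intro t ht
      refine ⟨ht.1, ?_⟩
      have := ht.2
      rw [hgn, lt_div_iff₀ hρ0, one_mul] at this
      exact this) (w := ζ / ((2:ℕ) : ℂ)) hn2
  rw [hgn, div_le_iff₀ hρ0] at hR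
  set M := 2 * Real.exp (19 / 25 * X) * ρ with hM
  have hM1 : 1 ≤ M := by
    have : 1 ≤ Real.exp (19 / 25 * X) := Real.one_le_exp (by positivity)
    rw [hM]; nlinarith
  have e1 := growth_at hα n c _ z (hn2.trans (by norm_num)) (by norm_num : 1 ≤ 2) hM1 hR
  have hu1 : (c : ℂ) + ζ / ((2:ℕ) : ℂ) / ((2:ℕ) : ℂ) ^ n = c + ζ / ((2:ℕ) : ℂ) ^ (n + 1) := by
    rw [div_div]; congr 2; ring
  rw [hu1] at e1
  refine e1.trans (le_of_eq ?_)
  rw [hM, Real.exp_add, CG, Real.exp_log (by positivity)]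
  have : Real.exp (38 / 25 * X) = Real.exp (19 / 25 * X) ^ 2 := by
    rw [← Real.exp_nat_mul]; congr 1; push_cast; ring
  rw [this]; ring

lemma G_bound (hα : ‖α‖ ≤ 1) {ρ : ℝ} (hρ : 1 ≤ ρ) {z : ℂ} {c : ℝ} {n : ℕ} {X : ℝ}
    (hX : 0 ≤ X) (h1 : ∀ ζ : ℂ, ‖ζ‖ ≤ 1 → ‖O α 2 n (c + ζ / ((2:ℕ) : ℂ) ^ n) z‖ ≤ ρ * Real.exp X)
    (k : ℕ)
    (h2 : ∀ m, n ≤ m → m < n + k →
      volume {t : ℝ | |t| ≤ 1 ∧ ρ < ‖O α 2 m (c + t / ((2:ℕ) : ℂ) ^ m) z‖} ≤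
        ENNReal.ofReal (1 / 500)) :
    ∀ ζ : ℂ, ‖ζ‖ ≤ 1 → ‖O α 2 (n + k) (c + ζ / ((2:ℕ) : ℂ) ^ (n + k)) z‖ ≤
      ρ * Real.exp ((38 / 25) ^ k * (X + 2 * CG ρ)) := by
  have hC0 := CG_nonneg hρ
  have key : ∀ ζ : ℂ, ‖ζ‖ ≤ 1 → ‖O α 2 (n + k) (c + ζ / ((2:ℕ) : ℂ) ^ (n + k)) z‖ ≤
      ρ * Real.exp ((38 / 25) ^ k * (X + 2 * CG ρ) - 25 / 13 * CG ρ) := by
    induction k with
    | zero =>
      intro ζ hζ
      simp only [pow_zero, one_mul, add_zero]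
      refine (h1 ζ hζ).trans ?_
      refine mul_le_mul_of_nonneg_left (Real.exp_le_exp.2 ?_) (by linarith)
      linarith
    | succ k ih =>
      intro ζ hζ
      have ih' := ih (fun m hm hm' => h2 m hm (by omega))
      have hpos : 0 ≤ (38 / 25 : ℝ) ^ k * (X + 2 * CG ρ) - 25 / 13 * CG ρ := by
        have h3 : (1:ℝ) ≤ (38 / 25) ^ k := one_le_pow₀ (by norm_num)
        have h4 : 0 ≤ X + 2 * CG ρ := by linarith
        nlinarith
      have h3 := G_step hα hρ hpos ih' (h2 (n + k) (by omega) (by omega)) hζ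
      rw [← add_assoc]
      refine h3.trans ?_
      refine mul_le_mul_of_nonneg_left (Real.exp_le_exp.2 ?_) (by linarith)
      rw [pow_succ]
      linarith
  intro ζ hζ
  refine (key ζ hζ).trans ?_
  refine mul_le_mul_of_nonneg_left (Real.exp_le_exp.2 ?_) (by linarith)
  linarith

lemma Dens.window2 {z : ℂ} {u₀ ρ : ℝ} {Nc Bad : Set ℝ} (hD : Dens α 2 z u₀ ρ Nc Bad)
    {T δ : ℝ} {n : ℕ} (hn : volume (Nc ∩ Metric.closedBall u₀ (T / ((2:ℕ) : ℝ) ^ n)) ≤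
      ENNReal.ofReal (δ / ((2:ℕ) : ℝ) ^ n)) (hδ : δ ≤ 1 / 1000) {c : ℝ}
    (hc : |c - u₀| ≤ (T - 1) / ((2:ℕ):ℝ) ^ n) :
    volume {t : ℝ | |t| ≤ 1 ∧ ρ < ‖O α 2 n (c + t / ((2:ℕ) : ℂ) ^ n) z‖} ≤
      ENNReal.ofReal (1 / 500) := by
  have hLn : (0:ℝ) < ((2:ℕ):ℝ) ^ n := by positivity
  have hsub : {t : ℝ | |t| ≤ 1 ∧ ρ < ‖O α 2 n (c + t / ((2:ℕ) : ℂ) ^ n) z‖} ⊆
      ((fun t : ℝ => c + (((2:ℕ):ℝ) ^ n)⁻¹ * t) ⁻¹'
        (Nc ∩ Metric.closedBall u₀ (T / ((2:ℕ) : ℝ) ^ n))) ∪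
      ((fun t : ℝ => ((2:ℕ):ℝ)^n * c + 1 * t) ⁻¹'
        (Bad ∩ Icc (((2:ℕ):ℝ)^n * c - 1) (((2:ℕ):ℝ)^n * c + 1))) := by
    intro t ht
    by_contra hcon
    rw [mem_union, not_or] at hcon
    obtain ⟨h1, h2⟩ := hcon
    have hcast : (c : ℂ) + t / ((2:ℕ) : ℂ) ^ n = ((c + (((2:ℕ):ℝ) ^ n)⁻¹ * t : ℝ) : ℂ) := by
      push_cast; rw [div_eq_inv_mul]
    have h3 : c + (((2:ℕ):ℝ) ^ n)⁻¹ * t ∉ Nc := by
      intro h
      apply h1
      refine ⟨h, ?_⟩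
      rw [Metric.mem_closedBall, Real.dist_eq]
      have : c + (((2:ℕ):ℝ) ^ n)⁻¹ * t - u₀ = (c - u₀) + (((2:ℕ):ℝ) ^ n)⁻¹ * t := by ring
      rw [this]
      refine (abs_add_le _ _).trans ?_
      rw [abs_mul, abs_of_pos (inv_pos.2 hLn)]
      have : (((2:ℕ):ℝ) ^ n)⁻¹ * |t| ≤ (((2:ℕ):ℝ) ^ n)⁻¹ * 1 := by
        gcongr
        exact ht.1
      calc |c - u₀| + (((2:ℕ):ℝ) ^ n)⁻¹ * |t| ≤ (T - 1) / ((2:ℕ):ℝ) ^ n + (((2:ℕ):ℝ) ^ n)⁻¹ * 1 := by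
            linarith
        _ = T / ((2:ℕ):ℝ) ^ n := by field_simp; ring
    have h4 : ((2:ℕ) : ℝ) ^ n * (c + (((2:ℕ):ℝ) ^ n)⁻¹ * t) ∉ Bad := by
      intro h
      apply h2
      have h5 : ((2:ℕ) : ℝ) ^ n * (c + (((2:ℕ):ℝ) ^ n)⁻¹ * t) = ((2:ℕ):ℝ)^n * c + 1 * t := by
        field_simp
      rw [h5] at h
      refine ⟨h, ?_⟩
      have := abs_le.1 ht.1
      constructor <;> linarith [this.1, this.2]
    have h6 := hD.esc n _ h3 h4
    have h7 := ht.2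
    rw [hcast] at h7
    linarith
  refine (measure_mono hsub).trans ((measure_union_le _ _).trans ?_)
  rw [vol_affine _ (inv_pos.2 hLn), vol_affine _ one_pos, inv_inv, inv_one, ENNReal.ofReal_one, one_mul]
  have h8 : ENNReal.ofReal (((2:ℕ):ℝ) ^ n) *
      volume (Nc ∩ Metric.closedBall u₀ (T / ((2:ℕ) : ℝ) ^ n)) ≤ ENNReal.ofReal (1 / 1000) := by
    refine (mul_le_mul_right hn _).trans ?_
    rw [← ENNReal.ofReal_mul hLn.le]
    apply ENNReal.ofReal_le_ofReal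
    have : ((2:ℕ):ℝ) ^ n * (δ / ((2:ℕ) : ℝ) ^ n) = δ := by field_simp
    rw [this]; exact hδ
  calc _ ≤ ENNReal.ofReal (1 / 1000) + ENNReal.ofReal (1 / 1000) := add_le_add h8 (hD.bad _)
    _ = ENNReal.ofReal (1 / 500) := by
        rw [← ENNReal.ofReal_add (by norm_num) (by norm_num)]; norm_num

/-- a bound on the whole complex window for each fixed `k`, uniform in `n` -/
lemma pre_bound (hα : ‖α‖ ≤ 1) {r0 : ℝ} (hr1 : r0 ≤ 1) (z : ℂ) (u : ℝ) (k : ℕ) :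
    ∃ B : ℝ, 1 ≤ B ∧ ∀ n, Tame α (leafV α z u n) r0 → ∀ s : ℂ, ‖s‖ ≤ r0 * 2 ^ k →
      ‖leafV α z u (n + k) s‖ ≤ B := by
  induction k with
  | zero =>
    refine ⟨max 1 (Ct α), le_max_left _ _, fun n hn s hs => ?_⟩
    exact (hn s (by simpa using hs)).trans (le_max_right _ _)
  | succ k ih =>
    obtain ⟨B, hB1, hB⟩ := ih
    refine ⟨3 * Real.exp (2 * Real.pi * 2 ^ k) * B ^ 2, ?_, fun n hn s hs => ?_⟩
    · have h1 : 1 ≤ Real.exp (2 * Real.pi * 2 ^ k) := Real.one_le_exp (by positivity)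
      have h2 : 1 ≤ B ^ 2 := one_le_pow₀ hB1
      nlinarith [mul_le_mul h1 h2 (by norm_num) (by positivity)]
    · have h3 : ‖s / 2‖ ≤ r0 * 2 ^ k := by
        rw [norm_div]
        have : ‖(2:ℂ)‖ = 2 := by simp
        rw [this, div_le_iff₀ (by norm_num)]
        rw [pow_succ] at hs; linarith
      have h4 := (leafV_chain α z u n).growth1 hα k (s / 2)
      rw [mul_div_cancel₀ s (by norm_num : (2:ℂ) ≠ 0)] at h4
      have h5 : |(s / 2).im| ≤ 2 ^ k := by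
        refine (Complex.abs_im_le_norm _).trans (h3.trans ?_)
        have : (0:ℝ) < 2 ^ k := by positivity
        nlinarith
      have h6 : max 1 ‖leafV α z u (n + k) (s / 2)‖ ≤ B := max_le hB1 (hB n hn _ h3)
      calc ‖leafV α z u (n + (k + 1)) s‖ ≤ max 1 ‖leafV α z u (n + (k + 1)) s‖ := le_max_right _ _
        _ ≤ _ := h4
        _ ≤ _ := by gcongr

/-- **Windowed growth**, the form needed for `Fam2`. -/
theorem growthW (hα : ‖α‖ ≤ 1) {z : ℂ} {u ρ r0 : ℝ} {Nc Bad : Set ℝ}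
    (hD : Dens α 2 z u ρ Nc Bad) (hρ : 1 ≤ ρ) (hr0 : 0 < r0) (hr1 : r0 ≤ 1) :
    ∃ A : ℝ, 0 ≤ A ∧ ∀ k : ℕ, ∃ N0 : ℕ, ∀ n ≥ N0, Tame α (leafV α z u n) r0 →
      ∀ t : ℝ, |t| ≤ 3 / 4 * r0 * 2 ^ k → ‖leafV α z u (n + k) t‖ ≤ Real.exp (A * (31 / 20) ^ k) := by
  obtain ⟨k0, hk0⟩ : ∃ k0 : ℕ, 4 / r0 < 2 ^ k0 := pow_unbounded_of_one_lt _ (by norm_num)
  rw [div_lt_iff₀ hr0] at hk0
  -- bounds for the first times
  choose B hB1 hB using fun k => pre_bound hα hr1 z u k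
  set S : ℝ := ∑ j ∈ Finset.range (k0 + 1), Real.log (B j) with hS
  have hlog : ∀ j, 0 ≤ Real.log (B j) := fun j => Real.log_nonneg (hB1 j)
  have hBS : ∀ j ≤ k0, Real.log (B j) ≤ S := by
    intro j hj
    exact Finset.single_le_sum (fun i _ => hlog i) (Finset.mem_range.2 (by omega))
  have hS0 : 0 ≤ S := Finset.sum_nonneg fun i _ => hlog i
  have hC0 := CG_nonneg hρ
  have hlr : 0 ≤ Real.log ρ := Real.log_nonneg hρ
  refine ⟨S + 2 * CG ρ + Real.log ρ, by positivity, fun k => ?_⟩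
  obtain ⟨n₀, hn₀⟩ := hD.dens (2 ^ k + 1) (by positivity) (1 / 1000) (by norm_num)
  refine ⟨n₀, fun n hn hT t ht => ?_⟩
  have hpk : (1:ℝ) ≤ (31 / 20) ^ k := one_le_pow₀ (by norm_num)
  rcases le_or_gt k k0 with hk | hk
  · have h1 := hB k n hT (t : ℂ) (by
      rw [Complex.norm_real, Real.norm_eq_abs]
      refine ht.trans ?_
      have : 0 < r0 * 2 ^ k := by positivity
      linarith)
    refine h1.trans ?_
    have h2 : B k = Real.exp (Real.log (B k)) := by rw [Real.exp_log (by linarith [hB1 k])]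
    rw [h2]
    apply Real.exp_le_exp.2
    have := hBS k hk
    nlinarith
  · obtain ⟨j, rfl⟩ : ∃ j, k = k0 + j := ⟨k - k0, by omega⟩
    set c : ℝ := u + t / 2 ^ (n + (k0 + j)) with hc
    have hcu : ∀ m, n ≤ m → m ≤ n + (k0 + j) →
        |c - u| ≤ (2 ^ (k0 + j) + 1 - 1) / ((2:ℕ):ℝ) ^ m := by
      intro m hm hm'
      rw [hc, add_sub_cancel_left, abs_div,
        abs_of_pos (by positivity : (0:ℝ) < 2 ^ (n + (k0 + j))), add_sub_cancel_right]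
      push_cast
      rw [div_le_div_iff₀ (by positivity) (by positivity)]
      have h1 : |t| ≤ 2 ^ (k0 + j) := by
        refine ht.trans ?_
        have : (0:ℝ) < 2 ^ (k0 + j) := by positivity
        nlinarith
      have h2 : (2:ℝ) ^ m ≤ 2 ^ (n + (k0 + j)) := pow_le_pow_right₀ (by norm_num) hm'
      gcongr
    have h1 : ∀ ζ : ℂ, ‖ζ‖ ≤ 1 → ‖O α 2 (n + k0) (c + ζ / ((2:ℕ) : ℂ) ^ (n + k0)) z‖ ≤
        ρ * Real.exp (Real.log (B k0)) := by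
      intro ζ hζ
      have hs : (c : ℂ) + ζ / ((2:ℕ) : ℂ) ^ (n + k0) =
          u + ((t / 2 ^ j : ℝ) + ζ) / 2 ^ (n + k0) := by
        rw [hc]
        push_cast
        rw [← add_assoc n k0 j, pow_add (2:ℂ) (n + k0) j]
        field_simp
        ring
      have hB' := hB k0 n hT (((t / 2 ^ j : ℝ) : ℂ) + ζ) (by
        refine (norm_add_le _ _).trans ?_
        rw [Complex.norm_real, Real.norm_eq_abs, abs_div, abs_of_pos (by positivity : (0:ℝ) < 2 ^ j)]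
        have h3 : |t| / 2 ^ j ≤ 3 / 4 * r0 * 2 ^ k0 := by
          rw [div_le_iff₀ (by positivity)]
          rw [pow_add] at ht
          linarith
        nlinarith)
      unfold leafV at hB'
      rw [hs, Real.exp_log (by linarith [hB1 k0])]
      have h4 : 1 ≤ B k0 := hB1 k0
      refine hB'.trans ?_
      nlinarith
    have h2 := G_bound hα hρ (hlog k0) h1 j (fun m hm hm' =>
      hD.window2 (hn₀ m (by omega)) le_rfl (hcu m (by omega) (by omega))) 0 (by simp)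
    have h3 : (c : ℂ) + 0 / ((2:ℕ) : ℂ) ^ (n + k0 + j) = u + (t : ℂ) / 2 ^ (n + (k0 + j)) := by
      rw [hc]; push_cast; simp
    rw [h3, add_assoc n k0 j] at h2
    unfold leafV
    refine h2.trans ?_
    have h4 : ρ * Real.exp ((38 / 25) ^ j * (Real.log (B k0) + 2 * CG ρ)) =
        Real.exp (Real.log ρ + (38 / 25) ^ j * (Real.log (B k0) + 2 * CG ρ)) := by
      rw [Real.exp_add, Real.exp_log (by linarith)]
    rw [h4]
    apply Real.exp_le_exp.2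
    have h5 : (38 / 25 : ℝ) ^ j ≤ (31 / 20) ^ (k0 + j) := by
      calc (38 / 25 : ℝ) ^ j ≤ (31 / 20) ^ j :=
            pow_le_pow_left₀ (by norm_num) (by norm_num) j
        _ ≤ (31 / 20) ^ (k0 + j) := pow_le_pow_right₀ (by norm_num) (by omega)
    have h6 := hBS k0 le_rfl
    have h7 : (38 / 25 : ℝ) ^ j * (Real.log (B k0) + 2 * CG ρ) ≤
        (31 / 20) ^ (k0 + j) * (S + 2 * CG ρ) := by
      have := hlog k0
      gcongr
    nlinarith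

end Pool.Agent.W_MP_4481e3_an
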