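import Pool.Agent.W_4481e3_h6.FormW
import Pool.Agent.W_4481e3_h6.Sit

/-!
Real lemmas for the slope leaves of the forward tree (start at the time `-4`, phase `2 / 15`).
`b 0 = G (b 4) + S`, `G`, `S` first order forms in `η = e - ec`, `ω = w - wc - μ η`.
-/

namespace Pool.Agent.W_4481e3_h6

open Pool.Agent.W_4481e3_q42 Pool.Agent.W_4481e3_q59

section
variable {η ω : ℂ} {ρ δ : ℝ}

/-- **Forward step** of the affine form of the slope -/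
theorem GS.fwd {a1 a2 a x e ec v E W c d g gE gW s sE sW : ℂ} {gr sr r m mg ms : ℝ}
    (h : GS η ω a1 a g gE gW s sE sW gr sr)
    (ha : a2 = ((1 - 2 * c * x) * a1 + d * (e - x ^ 2)) / 2) (hx : FO η ω x v E W r) (he : e = ec + η)
    (hm : ‖E * η + W * ω‖ ≤ m) (hmg : ‖gE * η + gW * ω‖ ≤ mg) (hms : ‖sE * η + sW * ω‖ ≤ ms) {mf : ℝ}
    (hmf : ‖-(2 * c * E) * η + -(2 * c * W) * ω‖ ≤ mf) :
    GS η ω a2 a ((1 - 2 * c * v) * g / 2)
      (((1 - 2 * c * v) * gE + g * (-(2 * c * E))) / 2)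
      (((1 - 2 * c * v) * gW + g * (-(2 * c * W))) / 2)
      (((1 - 2 * c * v) * s + d * (ec - v ^ 2)) / 2)
      (((1 - 2 * c * v) * sE + s * (-(2 * c * E)) + d * (1 - 2 * v * E)) / 2)
      (((1 - 2 * c * v) * sW + s * (-(2 * c * W)) + -(2 * d * v * W)) / 2)
      ((mf * mg + 2 * ‖c‖ * r * (‖g‖ + mg + gr) + gr * (‖1 - 2 * c * v‖ + mf)) / 2)
      ((mf * ms + 2 * ‖c‖ * r * (‖s‖ + ms + sr) + sr * (‖1 - 2 * c * v‖ + mf) +
        ‖d‖ * (2 * ‖v‖ * r + (m + r) ^ 2)) / 2) := by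
  obtain ⟨G, S, e1, hG, hS⟩ := h
  refine ⟨(1 - 2 * c * x) * G / 2, ((1 - 2 * c * x) * S + d * (e - x ^ 2)) / 2,
    by rw [ha, e1]; ring, ?_, ?_⟩
  · exact FO.half (FO.mul (FO.fac hx c) hG hmf hmg)
  · exact FO.half (FO.add (FO.mul (FO.fac hx c) hS hmf hms) (FO.src hx he hm d))

/-- value of `a₀` in the cell `‖a - ac‖ ≤ t` -/
theorem GS.cell {a0 a ac g gE gW s sE sW : ℂ} {gr sr mg t R : ℝ}
    (h : GS η ω a0 a g gE gW s sE sW gr sr) (hη : ‖η‖ ≤ ρ) (hω : ‖ω‖ ≤ δ)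
    (hmg : ‖gE * η + gW * ω‖ ≤ mg) (ha : ‖a - ac‖ ≤ t)
    (hR : ‖gE * ac + sE‖ * ρ + ‖gW * ac + sW‖ * δ + ‖g‖ * t + mg * t + gr * (‖ac‖ + t) + sr ≤ R) :
    ‖a0 - (g * ac + s)‖ ≤ R := by
  have h1 := h.val hmg ha
  have e1 : a0 - (g * ac + s) =
      (a0 - (g * ac + s + ((gE * ac + sE) * η + (gW * ac + sW) * ω) + g * (a - ac))) +
        (gE * ac + sE) * η + (gW * ac + sW) * ω + g * (a - ac) := by ring
  rw [e1]
  have n1 := norm_add_le ((a0 - (g * ac + s + ((gE * ac + sE) * η + (gW * ac + sW) * ω) + g * (a - ac))) +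
        (gE * ac + sE) * η + (gW * ac + sW) * ω) (g * (a - ac))
  have n2 := norm_add_le ((a0 - (g * ac + s + ((gE * ac + sE) * η + (gW * ac + sW) * ω) + g * (a - ac))) +
        (gE * ac + sE) * η) ((gW * ac + sW) * ω)
  have n3 := norm_add_le (a0 - (g * ac + s + ((gE * ac + sE) * η + (gW * ac + sW) * ω) + g * (a - ac)))
    ((gE * ac + sE) * η)
  have n4 : ‖(gE * ac + sE) * η‖ ≤ ‖gE * ac + sE‖ * ρ := by rw [norm_mul]; gcongr
  have n5 : ‖(gW * ac + sW) * ω‖ ≤ ‖gW * ac + sW‖ * δ := by rw [norm_mul]; gcongr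
  have n6 : ‖g * (a - ac)‖ ≤ ‖g‖ * t := by rw [norm_mul]; gcongr
  linarith

/-- RANGE low -/
theorem range_lo {a0 v : ℂ} {R A₁ : ℝ} (h : ‖a0 - v‖ ≤ R) (h1 : A₁ ≤ ‖a0‖) (hp : ‖v‖ + R < A₁) : False := by
  have := norm_sub_norm_le a0 v
  linarith

/-- RANGE high -/
theorem range_hi {a0 v : ℂ} {R A₂ : ℝ} (h : ‖a0 - v‖ ≤ R) (h1 : ‖a0‖ ≤ A₂) (hp : A₂ + R < ‖v‖) : False := by
  have := norm_sub_norm_le v a0
  rw [norm_sub_rev] at this
  linarith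

/-- PRUNE, uncorrelated -/
theorem prune_ball {a0 a v ac : ℂ} {R t Λ : ℝ} (h : ‖a0 - v‖ ≤ R) (ha : ‖a - ac‖ ≤ t) (hΛ : 0 ≤ Λ)
    (hb : ‖a‖ ≤ Λ * ‖a0‖) (hp : Λ * (‖v‖ + R) + t < ‖ac‖) : False := by
  have h1 := norm_sub_norm_le a0 v
  have h2 := norm_sub_norm_le ac a
  rw [norm_sub_rev] at h2
  have h3 : Λ * ‖a0‖ ≤ Λ * (‖v‖ + R) := by gcongr; linarith
  linarith

/-- PRUNE, correlated in the slope cell: `a₀ = g a + z`, `‖z - zc‖ ≤ R`, `‖a - ac‖ ≤ t`; `u` is a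
direction of `ac` (`‖u‖ ≤ U`), and `x`, `y` bound the real and imaginary part of `T a₀`, `T` a
direction of the value. -/
theorem prune_corr {a0 a g z zc ac u p : ℂ} {R t Λ U T x y : ℝ} (h0 : a0 = g * a + z)
    (hz : ‖z - zc‖ ≤ R) (ha : ‖a - ac‖ ≤ t) (hΛ : 0 ≤ Λ) (hb : ‖a‖ ≤ Λ * ‖a0‖)
    (hU : 0 < U) (hu : ‖u‖ ≤ U) (hT : 0 < T) (hp : T ≤ ‖p‖) (hx0 : 0 < x)
    (hx : x + ‖p‖ * (R + ‖g‖ * t) ≤ (p * (g * ac + zc)).re)
    (hy : |(p * (g * ac + zc)).im| + ‖p‖ * (R + ‖g‖ * t) ≤ y)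
    (hfin : Λ * U * (y ^ 2 / (2 * x)) + ‖(T : ℂ) * u - Λ * U * p * g‖ * t + Λ * U * ‖p‖ * R <
      ((T : ℂ) * (u * ac) - Λ * U * (p * (g * ac + zc))).re) : False := by
  have hv : ‖a0 - (g * ac + zc)‖ ≤ R + ‖g‖ * t := by
    have e1 : a0 - (g * ac + zc) = (z - zc) + g * (a - ac) := by rw [h0]; ring
    rw [e1]
    refine (norm_add_le _ _).trans ?_
    rw [norm_mul]; gcongr
  have hpv : ‖p * a0 - p * (g * ac + zc)‖ ≤ ‖p‖ * (R + ‖g‖ * t) := by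
    rw [← mul_sub, norm_mul]; gcongr
  have h1 : x ≤ (p * a0).re := by
    have h2 := Complex.abs_re_le_norm (p * a0 - p * (g * ac + zc))
    rw [Complex.sub_re] at h2
    have h3 := (abs_le.1 (h2.trans hpv)).1
    linarith
  have h2 : |(p * a0).im| ≤ y := by
    have h2 := Complex.abs_im_le_norm (p * a0 - p * (g * ac + zc))
    rw [Complex.sub_im] at h2
    have h3 : |(p * a0).im| ≤ |(p * (g * ac + zc)).im| + |(p * a0).im - (p * (g * ac + zc)).im| := by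
      have := abs_add_le (p * (g * ac + zc)).im ((p * a0).im - (p * (g * ac + zc)).im)
      rwa [add_sub_cancel] at this
    linarith
  refine absurd hb (not_le.2 (prune (a := a0) (b := a) (u := u) (t := p) (Λ := Λ) (x := x) (y := y)
    (U := U) (T := T) hΛ hU hu hT hp hx0 h1 h2 ?_))
  have e1 : (T : ℂ) * (u * a) - Λ * U * (p * a0) =
      ((T : ℂ) * (u * ac) - Λ * U * (p * (g * ac + zc))) +
        (((T : ℂ) * u - Λ * U * p * g) * (a - ac) - Λ * U * p * (z - zc)) := by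
    rw [h0]; ring
  have e2 : ‖((T : ℂ) * u - Λ * U * p * g) * (a - ac) - Λ * U * p * (z - zc)‖ ≤
      ‖(T : ℂ) * u - Λ * U * p * g‖ * t + Λ * U * ‖p‖ * R := by
    refine (norm_sub_le _ _).trans ?_
    rw [norm_mul, norm_mul, norm_mul, norm_mul, Complex.norm_real, Complex.norm_real, Real.norm_eq_abs,
      Real.norm_eq_abs, abs_of_nonneg hΛ, abs_of_pos hU]
    gcongr
  have e3 := (abs_le.1 ((Complex.abs_re_le_norm _).trans e2)).1
  rw [e1, Complex.add_re]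
  linarith

end

end Pool.Agent.W_4481e3_h6
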