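import Pool.Agent.W_4481e3_h6.CDefs

/-!
Two constants lemma with a free parameter.
-/

open MeasureTheory Filter Topology Set

namespace Pool.Agent.W_MP_4481e3_an

/-- the strip of half width `η` -/
def STe (η : ℝ) : Set ℂ := {w | w.re ^ 2 < 1 - η ^ 2 ∧ w.im ^ 2 < η ^ 2}

lemma isOpen_STe (η : ℝ) : IsOpen (STe η) :=
  (isOpen_lt (Complex.continuous_re.pow 2) continuous_const).inter
    (isOpen_lt (Complex.continuous_im.pow 2) continuous_const)

lemma closure_STe_subset (η : ℝ) : closure (STe η) ⊆ {w | w.re ^ 2 ≤ 1 - η ^ 2 ∧ w.im ^ 2 ≤ η ^ 2} := by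
  apply closure_minimal
  · intro w hw
    exact ⟨hw.1.le, hw.2.le⟩
  · exact (isClosed_le (Complex.continuous_re.pow 2) continuous_const).inter
      (isClosed_le (Complex.continuous_im.pow 2) continuous_const)

lemma norm_le_one_of_STe {η : ℝ} {w : ℂ} (h : w.re ^ 2 ≤ 1 - η ^ 2 ∧ w.im ^ 2 ≤ η ^ 2) : ‖w‖ ≤ 1 := by
  have := Complex.sq_norm w
  rw [Complex.normSq_apply] at this
  have h2 : ‖w‖ ^ 2 ≤ 1 := by nlinarith [h.1, h.2]
  nlinarith [norm_nonneg w]

lemma two_const_stripE {g : ℂ → ℂ} (hg : Differentiable ℂ g) {X δ η : ℝ} (hX : 0 ≤ X) (hδ : 0 ≤ δ)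
    (hη : 0 < η) (hη1 : η ≤ 1)
    (hb : ∀ w : ℂ, ‖w‖ ≤ 1 → ‖g w‖ ≤ Real.exp X)
    (hm : volume {t : ℝ | |t| ≤ 1 ∧ 1 < ‖g t‖} ≤ ENNReal.ofReal δ) {w : ℂ} (hw : w ∈ STe η) :
    ‖g w‖ ≤ 2 * Real.exp (X * (w.re ^ 2 - w.im ^ 2 + 2 * η + δ / η)) := by
  have hδη : 0 ≤ δ / η := by positivity
  set F : ℂ → ℂ := fun w => g w * Complex.exp (-(X : ℂ) * (w ^ 2 + (2 * η + δ / η : ℝ))) with hF
  have hFd : Differentiable ℂ F := by rw [hF]; fun_prop
  have hFnorm : ∀ w : ℂ, ‖F w‖ = ‖g w‖ * Real.exp (-(X * (w.re ^ 2 - w.im ^ 2 + 2 * η + δ / η))) := by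
    intro w
    rw [hF]
    simp only [norm_mul, Complex.norm_exp]
    congr 2
    have h1 : (w ^ 2).re = w.re ^ 2 - w.im ^ 2 := by
      rw [pow_two, Complex.mul_re]; ring
    have h2 : (w ^ 2 + ((2 * η + δ / η : ℝ) : ℂ)).re = w.re ^ 2 - w.im ^ 2 + (2 * η + δ / η) := by
      rw [Complex.add_re, h1, Complex.ofReal_re]
    rw [Complex.mul_re, h2]
    simp only [Complex.neg_re, Complex.ofReal_re, Complex.neg_im, Complex.ofReal_im, neg_zero, zero_mul,
      sub_zero]
    ring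
  have hkey : ‖F w‖ ≤ 2 := by
    refine Complex.norm_le_of_forall_mem_frontier_norm_le (U := STe η) ?_ hFd.diffContOnCl ?_
      (subset_closure hw)
    · refine Bornology.IsBounded.subset (Metric.isBounded_closedBall (x := (0:ℂ)) (r := 1)) ?_
      intro w hw
      simpa using norm_le_one_of_STe ⟨hw.1.le, hw.2.le⟩
    · intro z hz
      have hzc := closure_STe_subset η (frontier_subset_closure hz)
      have hz1 := norm_le_one_of_STe hzc
      have hnot : z ∉ STe η := by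
        intro h
        rw [frontier, (isOpen_STe η).interior_eq] at hz
        exact hz.2 h
      rw [hFnorm]
      by_cases h1 : z.re ^ 2 < 1 - η ^ 2
      · -- horizontal side
        have him : z.im ^ 2 = η ^ 2 := by
          by_contra hne
          exact hnot ⟨h1, lt_of_le_of_ne hzc.2 hne⟩
        have habs : |z.im| = η := by
          rw [← abs_of_pos hη]
          exact (sq_eq_sq_iff_abs_eq_abs _ _).1 him
        have hne : z.im ≠ 0 := by
          intro h; rw [h, abs_zero] at habs; linarith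
        have h5 := two_const_both hg hX hδ hb hm hz1 hne
        rw [habs] at h5
        calc ‖g z‖ * Real.exp (-(X * (z.re ^ 2 - z.im ^ 2 + 2 * η + δ / η)))
            ≤ (2 * Real.exp (X * (z.re ^ 2 - z.im ^ 2 + 2 * η + δ / η))) *
              Real.exp (-(X * (z.re ^ 2 - z.im ^ 2 + 2 * η + δ / η))) := by gcongr
          _ = 2 := by
              rw [mul_assoc, ← Real.exp_add, add_neg_cancel, Real.exp_zero, mul_one]
      · have hre : z.re ^ 2 = 1 - η ^ 2 := le_antisymm hzc.1 (not_lt.1 h1)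
        calc ‖g z‖ * Real.exp (-(X * (z.re ^ 2 - z.im ^ 2 + 2 * η + δ / η)))
            ≤ Real.exp X * Real.exp (-(X * (z.re ^ 2 - z.im ^ 2 + 2 * η + δ / η))) := by
              gcongr
              exact hb z hz1
          _ = Real.exp (X * (1 - (z.re ^ 2 - z.im ^ 2 + 2 * η + δ / η))) := by
              rw [← Real.exp_add]; congr 1; ring
          _ ≤ 1 := by
              rw [Real.exp_le_one_iff]
              apply mul_nonpos_of_nonneg_of_nonpos hX
              nlinarith [hzc.2, mul_nonneg hη.le (sub_nonneg.2 hη1)]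
          _ ≤ 2 := by norm_num
  rw [hFnorm] at hkey
  calc ‖g w‖ = (‖g w‖ * Real.exp (-(X * (w.re ^ 2 - w.im ^ 2 + 2 * η + δ / η)))) *
        Real.exp (X * (w.re ^ 2 - w.im ^ 2 + 2 * η + δ / η)) := by
          rw [mul_assoc, ← Real.exp_add, neg_add_cancel, Real.exp_zero, mul_one]
    _ ≤ _ := by gcongr

/-- **Two constants with a free parameter.** -/
theorem two_const_eta {g : ℂ → ℂ} (hg : Differentiable ℂ g) {X δ η : ℝ} (hX : 0 ≤ X) (hδ : 0 ≤ δ)
    (hη : 0 < η) (hη1 : η ≤ 1 / 2)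
    (hb : ∀ w : ℂ, ‖w‖ ≤ 1 → ‖g w‖ ≤ Real.exp X)
    (hm : volume {t : ℝ | |t| ≤ 1 ∧ 1 < ‖g t‖} ≤ ENNReal.ofReal δ) {w : ℂ} (hw : ‖w‖ ≤ 1 / 2) :
    ‖g w‖ ≤ 2 * Real.exp (X * (w.re ^ 2 + 2 * max |w.im| η + δ / η)) := by
  have hsq : w.re ^ 2 + w.im ^ 2 ≤ 1 / 4 := by
    have := Complex.sq_norm w
    rw [Complex.normSq_apply] at this
    nlinarith [norm_nonneg w]
  rcases lt_or_ge |w.im| η with h | h
  · have h2 : w.im ^ 2 < η ^ 2 := by
      rw [← sq_abs]
      exact pow_lt_pow_left₀ h (abs_nonneg _) (by norm_num)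
    have h3 : w ∈ STe η := by
      refine ⟨?_, h2⟩
      nlinarith [sq_nonneg w.im]
    refine (two_const_stripE hg hX hδ hη (by linarith) hb hm h3).trans ?_
    rw [max_eq_right h.le]
    gcongr
    nlinarith [sq_nonneg w.im]
  · have hpos : 0 < |w.im| := lt_of_lt_of_le hη h
    refine (two_const_both hg hX hδ hb hm (hw.trans (by norm_num)) (abs_pos.1 hpos)).trans ?_
    rw [max_eq_left h]
    gcongr
    nlinarith [sq_nonneg w.im]

/-- scaled form: disc of radius `x` -/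
theorem two_const_scaled {V : ℂ → ℂ} (hV : Differentiable ℂ V) {X δ η R x : ℝ} (hX : 0 ≤ X)
    (hδ : 0 ≤ δ) (hη : 0 < η) (hη1 : η ≤ x / 2) (hR : 0 < R) (hx : 0 < x)
    (hb : ∀ w : ℂ, ‖w‖ ≤ x → ‖V w‖ ≤ R * Real.exp X)
    (hm : volume {t : ℝ | |t| ≤ x ∧ R < ‖V t‖} ≤ ENNReal.ofReal (δ * x)) {w : ℂ}
    (hw : ‖w‖ ≤ x / 2) :
    ‖V w‖ ≤ 2 * R * Real.exp (X * ((w.re / x) ^ 2 + 2 * (max |w.im| η / x) + δ * x / η)) := by
  set g : ℂ → ℂ := fun w => V (x * w) / R with hg
  have hgd : Differentiable ℂ g := (hV.comp (by fun_prop)).div_const _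
  have hgn : ∀ w, ‖g w‖ = ‖V (x * w)‖ / R := by
    intro w
    rw [hg]
    simp only [norm_div, Complex.norm_real, Real.norm_eq_abs, abs_of_pos hR]
  have h1 := two_const_eta hgd hX hδ (η := η / x) (by positivity) (by
      rw [div_le_iff₀ hx]; linarith) (by
      intro w hw
      rw [hgn, div_le_iff₀ hR, mul_comm (Real.exp X) R]
      apply hb
      rw [norm_mul, Complex.norm_real, Real.norm_eq_abs, abs_of_pos hx]
      nlinarith) (by
      have hsub : {t : ℝ | |t| ≤ 1 ∧ 1 < ‖g t‖} =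
          (fun t : ℝ => 0 + x * t) ⁻¹' {t : ℝ | |t| ≤ x ∧ R < ‖V t‖} := by
        ext t
        simp only [mem_ofPred_eq, mem_preimage, zero_add]
        rw [hgn, lt_div_iff₀ hR, one_mul, abs_mul, abs_of_pos hx]
        constructor
        · rintro ⟨h1, h2⟩
          refine ⟨by nlinarith, by push_cast; exact h2⟩
        · rintro ⟨h1, h2⟩
          refine ⟨by
            by_contra hc
            push Not at hc
            nlinarith, by push_cast at h2; exact h2⟩
      rw [hsub, vol_affine _ hx]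
      calc ENNReal.ofReal x⁻¹ * volume {t : ℝ | |t| ≤ x ∧ R < ‖V t‖}
          ≤ ENNReal.ofReal x⁻¹ * ENNReal.ofReal (δ * x) := by gcongr
        _ = ENNReal.ofReal δ := by
            rw [← ENNReal.ofReal_mul (by positivity)]
            congr 1
            field_simp) (w := w / x) (by
      rw [norm_div, Complex.norm_real, Real.norm_eq_abs, abs_of_pos hx, div_le_iff₀ hx]
      linarith)
  have hxc : (x : ℂ) ≠ 0 := by exact_mod_cast hx.ne'
  rw [hgn, mul_div_cancel₀ _ hxc, div_le_iff₀ hR] at h1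
  refine h1.trans (le_of_eq ?_)
  have e1 : (w / x).re = w.re / x := Complex.div_ofReal_re _ _
  have e2 : (w / x).im = w.im / x := Complex.div_ofReal_im _ _
  rw [e1, e2, abs_div, abs_of_pos hx]
  have e3 : max (|w.im| / x) (η / x) = max |w.im| η / x := (max_div_div_right hx.le _ _)
  rw [e3, div_div_eq_mul_div]
  ring

end Pool.Agent.W_MP_4481e3_an
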