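import Pool.Agent.W_4481e3_h6.LossA

/-!
Growth along a chain, the majorant, no loss and crude loss.
-/

open MeasureTheory Filter Topology Set

namespace Pool.Agent.W_MP_4481e3_an

variable {α : ℂ}

/-- the exponent in the majorant -/
noncomputable def L0 (α : ℂ) : ℝ := 2 * Real.log (6 * Real.exp Real.pi * Rp α)

lemma one_le_Rp (hα0 : α ≠ 0) (hα : ‖α‖ ≤ 1) : 1 ≤ Rp α := by
  have h0 : 0 < ‖α‖ := norm_pos_iff.2 hα0
  unfold Rp
  rw [le_div_iff₀ h0]
  have : 1 ≤ Real.exp 4 := Real.one_le_exp (by norm_num)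
  linarith

lemma exp_L0 (hα0 : α ≠ 0) (hα : ‖α‖ ≤ 1) :
    Real.exp (L0 α) = (6 * Real.exp Real.pi * Rp α) ^ 2 := by
  have h1 := one_le_Rp hα0 hα
  have hpos : 0 < 6 * Real.exp Real.pi * Rp α := by positivity
  unfold L0
  rw [two_mul, Real.exp_add, Real.exp_log hpos, pow_two]

lemma exp_half_L0 (hα0 : α ≠ 0) (hα : ‖α‖ ≤ 1) :
    Real.exp (L0 α / 2) = 6 * Real.exp Real.pi * Rp α := by
  have h1 := one_le_Rp hα0 hα
  have hpos : 0 < 6 * Real.exp Real.pi * Rp α := by positivity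
  unfold L0
  rw [mul_div_cancel_left₀ _ (by norm_num : (2:ℝ) ≠ 0), Real.exp_log hpos]

lemma L0_ge (hα0 : α ≠ 0) (hα : ‖α‖ ≤ 1) : 6 ≤ L0 α := by
  have h1 := one_le_Rp hα0 hα
  have hpi := Real.pi_gt_three
  have h2 : Real.log (6 * Real.exp Real.pi * Rp α) ≥ Real.pi := by
    rw [ge_iff_le, Real.le_log_iff_exp_le (by positivity)]
    have := Real.exp_pos Real.pi
    nlinarith
  unfold L0
  linarith

lemma Ct_eq (hα0 : α ≠ 0) (hα : ‖α‖ ≤ 1) : Ct α = 2 * Rp α * Real.exp (L0 α / 2) := by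
  rw [exp_half_L0 hα0 hα]; unfold Ct; ring

lemma one_le_Ct (hα0 : α ≠ 0) (hα : ‖α‖ ≤ 1) : 1 ≤ Ct α := by
  have h1 := one_le_Rp hα0 hα
  have h2 : 1 ≤ Real.exp Real.pi := Real.one_le_exp (by positivity)
  have h3 : 1 ≤ Rp α ^ 2 := one_le_pow₀ h1
  unfold Ct
  nlinarith [mul_le_mul h2 h3 (by norm_num) (by positivity)]

lemma Chain.growth1 {b : ℝ} {V : ℕ → ℂ → ℂ} (hC : Chain α b V) (hα : ‖α‖ ≤ 1) (i : ℕ) (s : ℂ) :
    max 1 ‖V (i + 1) (2 * s)‖ ≤ 3 * Real.exp (2 * Real.pi * |s.im|) * (max 1 ‖V i s‖) ^ 2 := by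
  rw [hC.recur]
  have h := step_growth hα (2 ^ i * (b : ℂ) + s) (V i s)
  have him : (2 ^ i * (b : ℂ) + s).im = s.im := by
    have : (2 ^ i * (b : ℂ)) = ((2 ^ i * b : ℝ) : ℂ) := by push_cast; ring
    rw [this, Complex.add_im, Complex.ofReal_im, zero_add]
  rw [him] at h
  exact h

lemma Chain.bound {b : ℝ} {V : ℕ → ℂ → ℂ} (hC : Chain α b V) (hα0 : α ≠ 0) (hα : ‖α‖ ≤ 1)
    {r : ℝ} {k : ℕ} (hk : 2 ^ k * r ≤ 1) (hT : Tame α (V 0) r) {s : ℂ}
    (hs : ‖s‖ ≤ 2 ^ k * r) : ‖V k s‖ ≤ Real.exp (2 ^ k * L0 α) := by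
  have hCt := one_le_Ct hα0 hα
  have key : ∀ i ≤ k, ∀ s : ℂ, ‖s‖ ≤ 2 ^ i * r →
      3 * max 1 ‖V i s‖ ≤ Real.exp (2 ^ i * (Real.log (3 * Ct α) + Real.pi * i / 2 ^ k)) := by
    intro i
    induction i with
    | zero =>
      intro _ s hs
      simp only [pow_zero, one_mul, Nat.cast_zero, mul_zero, zero_div, add_zero]
      rw [Real.exp_log (by positivity)]
      have h1 := hT s (by simpa using hs)
      have : max 1 ‖V 0 s‖ ≤ Ct α := max_le hCt h1
      linarith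
    | succ i ih =>
      intro hi s hs
      have hs' : ‖s / 2‖ ≤ 2 ^ i * r := by
        rw [norm_div]
        have : ‖(2:ℂ)‖ = 2 := by simp
        rw [this, div_le_iff₀ (by norm_num)]
        rw [pow_succ] at hs; linarith
      have h1 := ih (by omega) (s / 2) hs'
      have h2 := hC.growth1 hα i (s / 2)
      rw [mul_div_cancel₀ s (by norm_num : (2:ℂ) ≠ 0)] at h2
      set E := Real.exp (2 ^ i * (Real.log (3 * Ct α) + Real.pi * i / 2 ^ k)) with hE
      have h3 : 3 * max 1 ‖V (i + 1) s‖ ≤ Real.exp (2 * Real.pi * |(s / 2).im|) * E ^ 2 := by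
        calc 3 * max 1 ‖V (i + 1) s‖ ≤ 3 * (3 * Real.exp (2 * Real.pi * |(s / 2).im|) *
              (max 1 ‖V i (s / 2)‖) ^ 2) := by gcongr
          _ = Real.exp (2 * Real.pi * |(s / 2).im|) * (3 * max 1 ‖V i (s / 2)‖) ^ 2 := by ring
          _ ≤ _ := by gcongr
      refine h3.trans ?_
      rw [hE, ← Real.exp_nat_mul, ← Real.exp_add]
      apply Real.exp_le_exp.2
      have h4 : |(s / 2).im| ≤ 2 ^ i / 2 ^ k := by
        refine (Complex.abs_im_le_norm _).trans (hs'.trans ?_)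
        rw [le_div_iff₀ (by positivity)]
        have : (0:ℝ) < 2 ^ i := by positivity
        nlinarith
      have hpi := Real.pi_pos
      have h5 : 2 * Real.pi * |(s / 2).im| ≤ 2 * Real.pi * (2 ^ i / 2 ^ k) := by gcongr
      push_cast
      rw [pow_succ]
      have h6 : (2 : ℝ) ^ i * 2 * (Real.log (3 * Ct α) + Real.pi * (i + 1) / 2 ^ k) =
          2 * Real.pi * (2 ^ i / 2 ^ k) +
            2 * (2 ^ i * (Real.log (3 * Ct α) + Real.pi * i / 2 ^ k)) := by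
        ring
      rw [h6]
      linarith
  have h1 := key k le_rfl s hs
  have h2 : ‖V k s‖ ≤ Real.exp (2 ^ k * (Real.log (3 * Ct α) + Real.pi * k / 2 ^ k)) := by
    have := le_max_right 1 ‖V k s‖
    have := norm_nonneg (V k s)
    linarith
  refine h2.trans (Real.exp_le_exp.2 ?_)
  gcongr
  have hk2 : (k : ℝ) / 2 ^ k ≤ 1 := by
    rw [div_le_one (by positivity)]
    exact_mod_cast (Nat.lt_two_pow_self (n := k)).le
  have h3 : Real.pi * k / 2 ^ k ≤ Real.pi := by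
    rw [mul_div_assoc]
    have := Real.pi_pos
    nlinarith
  have h4 : L0 α = Real.log (3 * Ct α) + Real.pi := by
    have h5 := one_le_Rp hα0 hα
    rw [← Real.log_exp (L0 α), exp_L0 hα0 hα, ← Real.log_exp Real.pi,
      ← Real.log_mul (by positivity) (by positivity)]
    rw [Real.log_exp Real.pi]
    congr 1
    unfold Ct
    ring
  linarith

/-- **MAJORANT.** -/
theorem Chain.major {b : ℝ} {V : ℕ → ℂ → ℂ} (hC : Chain α b V) (hα0 : α ≠ 0) (hα : ‖α‖ ≤ 1)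
    {r δ e : ℝ} {k : ℕ} (hr : 0 < r) (hk : 2 ^ k * r ≤ 1) (hT : Tame α (V 0) r) (hδ : 0 ≤ δ)
    (hS : Spars α (V k) δ (2 ^ k * r)) (he : 0 < e) (he1 : e ≤ 2 ^ k * r / 2) {s : ℂ}
    (hs : ‖s‖ ≤ 2 ^ k * r / 2) :
    ‖V k s‖ ≤ 2 * Rp α * Real.exp (2 ^ k * L0 α * ((s.re / (2 ^ k * r)) ^ 2 +
      2 * (max |s.im| e / (2 ^ k * r)) + δ * (2 ^ k * r) / e)) := by
  have h1 := one_le_Rp hα0 hα
  have h0 := L0_ge hα0 hα
  refine two_const_scaled (hC.diff k) (by positivity) hδ he he1 (by linarith) (by positivity) ?_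
    hS hs
  intro w hw
  refine (hC.bound hα0 hα hk hT hw).trans ?_
  have := Real.exp_pos (2 ^ k * L0 α)
  nlinarith

/-- **NO LOSS.** -/
theorem Chain.no_loss {b : ℝ} {V : ℕ → ℂ → ℂ} (hC : Chain α b V) (hα0 : α ≠ 0) (hα : ‖α‖ ≤ 1)
    {r : ℝ} {k : ℕ} (hr : 0 < r) (hk : 2 ^ k * r ≤ 1) (hT : Tame α (V 0) r)
    (hS : Spars α (V k) ((1 / 4) ^ k / 64) (2 ^ k * r)) : Tame α (V k) (r / 8) := by
  intro s hs
  have h1 := one_le_Rp hα0 hα
  have h0 := L0_ge hα0 hα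
  have hk1 : (1:ℝ) ≤ 2 ^ k := one_le_pow₀ (by norm_num)
  have hx : 0 < 2 ^ k * r := by positivity
  have hrx : r ≤ 2 ^ k * r := by nlinarith
  have h2 := hC.major hα0 hα hr hk hT (by positivity) hS (e := r / 8) (by positivity)
    (by linarith) (s := s) (by linarith)
  refine h2.trans ?_
  rw [Ct_eq hα0 hα]
  gcongr
  have h3 : (s.re / (2 ^ k * r)) ^ 2 ≤ 1 / 64 / 2 ^ k := by
    have h4 : |s.re| ≤ r / 8 := (Complex.abs_re_le_norm s).trans hs
    have h5 : s.re ^ 2 ≤ (r / 8) ^ 2 := by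
      rw [← sq_abs]; exact pow_le_pow_left₀ (abs_nonneg _) h4 2
    rw [div_pow, div_le_iff₀ (by positivity)]
    have h6 : 1 / 64 / 2 ^ k * (2 ^ k * r) ^ 2 = 2 ^ k * (r / 8) ^ 2 := by
      field_simp; norm_num
    rw [h6]
    nlinarith [sq_nonneg (r / 8)]
  have h4 : max |s.im| (r / 8) / (2 ^ k * r) ≤ 1 / 8 / 2 ^ k := by
    have h5 : max |s.im| (r / 8) ≤ r / 8 := max_le ((Complex.abs_im_le_norm s).trans hs) le_rfl
    rw [div_le_iff₀ hx]
    refine h5.trans (le_of_eq ?_)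
    field_simp
  have h5 : (1 / 4 : ℝ) ^ k / 64 * (2 ^ k * r) / (r / 8) = 1 / 8 / 2 ^ k := by
    have e1 : (1 / 4 : ℝ) ^ k = 1 / (2 ^ k * 2 ^ k) := by
      rw [← mul_pow, one_div, inv_pow, one_div]; norm_num
    rw [e1]
    field_simp
    norm_num
  rw [h5]
  calc 2 ^ k * L0 α * ((s.re / (2 ^ k * r)) ^ 2 + 2 * (max |s.im| (r / 8) / (2 ^ k * r)) +
        1 / 8 / 2 ^ k) ≤ 2 ^ k * L0 α * (1 / 64 / 2 ^ k + 2 * (1 / 8 / 2 ^ k) + 1 / 8 / 2 ^ k) := by
        gcongr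
    _ = L0 α * (25 / 64) := by field_simp; ring
    _ ≤ L0 α / 2 := by linarith

/-- iterated `lemmaR9` at one time -/
lemma iter_R9 {V : ℂ → ℂ} (hV : Differentiable ℂ V) {R x X : ℝ} (hR : 0 < R) (hx : 0 < x)
    (hX : 0 ≤ X) (hb : ∀ w : ℂ, ‖w‖ ≤ x → ‖V w‖ ≤ R * Real.exp X)
    (hm : ∀ y, 0 < y → y ≤ x → volume {t : ℝ | |t| ≤ y ∧ R < ‖V t‖} ≤ ENNReal.ofReal (1 / 500 * y))
    (j : ℕ) : ∀ w : ℂ, ‖w‖ ≤ x / 9 ^ j → ‖V w‖ ≤ R * Real.exp ((47 / 200) ^ j * X + 1) := by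
  induction j with
  | zero =>
    intro w hw
    simp only [pow_zero, div_one, one_mul] at hw ⊢
    refine (hb w hw).trans ?_
    gcongr
    linarith
  | succ j ih =>
    intro w hw
    set y := x / 9 ^ j with hy
    have hy0 : 0 < y := by positivity
    have hyx : y ≤ x := div_le_self hx.le (one_le_pow₀ (by norm_num))
    set g : ℂ → ℂ := fun w => V (y * w) / R with hg
    have hgd : Differentiable ℂ g := (hV.comp (by fun_prop)).div_const _
    have hgn : ∀ w, ‖g w‖ = ‖V (y * w)‖ / R := by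
      intro w
      rw [hg]
      simp only [norm_div, Complex.norm_real, Real.norm_eq_abs, abs_of_pos hR]
    have h1 := lemmaR9 hgd (X := (47 / 200) ^ j * X + 1) (by positivity) (by
        intro w hw
        rw [hgn, div_le_iff₀ hR, mul_comm (Real.exp _) R]
        apply ih
        rw [norm_mul, Complex.norm_real, Real.norm_eq_abs, abs_of_pos hy0]
        nlinarith) (by
        have hsub : {t : ℝ | |t| ≤ 1 ∧ 1 < ‖g t‖} =
            (fun t : ℝ => 0 + y * t) ⁻¹' {t : ℝ | |t| ≤ y ∧ R < ‖V t‖} := by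
          ext t
          simp only [mem_ofPred_eq, mem_preimage, zero_add]
          rw [hgn, lt_div_iff₀ hR, one_mul, abs_mul, abs_of_pos hy0]
          constructor
          · rintro ⟨h1, h2⟩
            refine ⟨by nlinarith, by push_cast; exact h2⟩
          · rintro ⟨h1, h2⟩
            refine ⟨by
              by_contra hc
              push Not at hc
              nlinarith, by push_cast at h2; exact h2⟩
        rw [hsub, vol_affine _ hy0]
        calc ENNReal.ofReal y⁻¹ * volume {t : ℝ | |t| ≤ y ∧ R < ‖V t‖}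
            ≤ ENNReal.ofReal y⁻¹ * ENNReal.ofReal (1 / 500 * y) := by
              gcongr
              exact hm y hy0 hyx
          _ = ENNReal.ofReal (1 / 500) := by
              rw [← ENNReal.ofReal_mul (by positivity)]
              congr 1
              field_simp) (w := w / y) (by
        rw [norm_div, Complex.norm_real, Real.norm_eq_abs, abs_of_pos hy0, div_le_iff₀ hy0]
        rw [pow_succ, ← div_div, ← hy] at hw
        linarith)
    have hyc : (y : ℂ) ≠ 0 := by exact_mod_cast hy0.ne'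
    rw [hgn, mul_div_cancel₀ _ hyc, div_le_iff₀ hR] at h1
    refine h1.trans ?_
    have h2 : (2:ℝ) ≤ Real.exp (7 / 10) := by
      have h3 := Real.quadratic_le_exp_of_nonneg (x := (7/10 : ℝ)) (by norm_num)
      have h4 : (1:ℝ) + 7/10 + (7/10)^2/2 = 1.945 := by norm_num
      have h5 : (2:ℝ) = Real.exp (Real.log 2) := by rw [Real.exp_log (by norm_num)]
      rw [h5]
      apply Real.exp_le_exp.2
      have := Real.log_two_lt_d9
      linarith
    calc 2 * Real.exp (47 / 200 * ((47 / 200) ^ j * X + 1)) * R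
        ≤ Real.exp (7 / 10) * Real.exp (47 / 200 * ((47 / 200) ^ j * X + 1)) * R := by gcongr
      _ = R * Real.exp (7 / 10 + 47 / 200 * ((47 / 200) ^ j * X + 1)) := by
          rw [← Real.exp_add]; ring
      _ ≤ R * Real.exp ((47 / 200) ^ (j + 1) * X + 1) := by
          refine mul_le_mul_of_nonneg_left (Real.exp_le_exp.2 ?_) hR.le
          rw [pow_succ]
          linarith

/-- **CRUDE LOSS.** -/
theorem Chain.crude {b : ℝ} {V : ℕ → ℂ → ℂ} (hC : Chain α b V) (hα0 : α ≠ 0) (hα : ‖α‖ ≤ 1)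
    {r x0 : ℝ} {k : ℕ} (hr : 0 < r) (hrx : r ≤ x0) (hx1 : x0 ≤ 1)
    (hT : Tame α (V 0) r) (hS : ∀ x, 0 < x → x ≤ x0 → Spars α (V k) (1 / 500) x) :
    Tame α (V k) (r * (1 / 3) ^ k / 81) := by
  have hx0 : 0 < x0 := by linarith
  have h1 := one_le_Rp hα0 hα
  have h0 := L0_ge hα0 hα
  have hk1 : (1:ℝ) ≤ 2 ^ k := one_le_pow₀ (by norm_num)
  set r' := min r (x0 / 2 ^ k) with hr'
  have hr'0 : 0 < r' := lt_min hr (by positivity)
  have hr'r : r' ≤ r := min_le_left _ _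
  have hxr : 2 ^ k * r' ≤ x0 := by
    have : r' ≤ x0 / 2 ^ k := min_le_right _ _
    rw [le_div_iff₀ (by positivity)] at this
    linarith
  have hxr2 : r ≤ 2 ^ k * r' := by
    rcases le_total r (x0 / 2 ^ k) with h | h
    · rw [hr', min_eq_left h]
      nlinarith
    · rw [hr', min_eq_right h, mul_div_cancel₀ _ (by positivity)]
      exact hrx
  have hT' : Tame α (V 0) r' := hT.mono hr'r
  have hb : ∀ w : ℂ, ‖w‖ ≤ 2 ^ k * r' → ‖V k w‖ ≤ Rp α * Real.exp (2 ^ k * L0 α) := by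
    intro w hw
    refine (hC.bound hα0 hα (by linarith) hT' hw).trans ?_
    have := Real.exp_pos (2 ^ k * L0 α)
    nlinarith
  set J := (k + 1) / 2 + 1 with hJ
  have h2 := iter_R9 (hC.diff k) (R := Rp α) (x := 2 ^ k * r') (X := 2 ^ k * L0 α) (by linarith)
    (by positivity) (by positivity) hb (fun y hy hy' => hS y hy (hy'.trans hxr)) J
  intro s hs
  have h9 : (9:ℝ) ^ J ≤ 27 * 3 ^ k := by
    have e1 : (9:ℝ) ^ J = 3 ^ (2 * J) := by rw [pow_mul]; norm_num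
    rw [e1]
    calc (3:ℝ) ^ (2 * J) ≤ 3 ^ (k + 3) := pow_le_pow_right₀ (by norm_num) (by omega)
      _ = 27 * 3 ^ k := by rw [pow_add]; ring
  have hs' : ‖s‖ ≤ 2 ^ k * r' / 9 ^ J := by
    refine hs.trans ?_
    rw [le_div_iff₀ (by positivity)]
    calc r * (1 / 3) ^ k / 81 * 9 ^ J ≤ r * (1 / 3) ^ k / 81 * (27 * 3 ^ k) := by gcongr
      _ = r / 3 := by
          rw [one_div, inv_pow]
          field_simp
          norm_num
      _ ≤ r := by linarith
      _ ≤ _ := hxr2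
  refine (h2 s hs').trans ?_
  rw [Ct_eq hα0 hα]
  have h3 : (47 / 200 : ℝ) ^ J * (2 ^ k * L0 α) ≤ 47 / 200 * L0 α := by
    have e2 : (47 / 200 : ℝ) ^ J * 2 ^ k ≤ 47 / 200 := by
      have e3 : (2:ℝ) ^ k ≤ 4 ^ ((k + 1) / 2) := by
        have : (4:ℝ) ^ ((k + 1) / 2) = 2 ^ (2 * ((k + 1) / 2)) := by rw [pow_mul]; norm_num
        rw [this]
        exact pow_le_pow_right₀ (by norm_num) (by omega)
      calc (47 / 200 : ℝ) ^ J * 2 ^ k ≤ (47 / 200 : ℝ) ^ J * 4 ^ ((k + 1) / 2) := by gcongr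
        _ = 47 / 200 * ((47 / 50 : ℝ) ^ ((k + 1) / 2)) := by
            rw [hJ, pow_succ, mul_right_comm, ← mul_pow]; norm_num
            ring
        _ ≤ 47 / 200 * 1 := by
            gcongr
            exact pow_le_one₀ (by norm_num) (by norm_num)
        _ = 47 / 200 := by norm_num
    calc (47 / 200 : ℝ) ^ J * (2 ^ k * L0 α) = ((47 / 200 : ℝ) ^ J * 2 ^ k) * L0 α := by ring
      _ ≤ 47 / 200 * L0 α := by gcongr
  have h4 : Real.exp ((47 / 200) ^ J * (2 ^ k * L0 α) + 1) ≤ Real.exp (L0 α / 2) := by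
    apply Real.exp_le_exp.2
    linarith
  have h5 := Real.exp_pos (L0 α / 2)
  nlinarith [mul_le_mul_of_nonneg_left h4 (by linarith : (0:ℝ) ≤ Rp α)]

end Pool.Agent.W_MP_4481e3_an
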