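import Pool.Agent.W_4481e3_h6.PastR

/-!
Kill certificate, real lemmas of the past, with first order forms in `η = e - ec` for the
coefficients `G`, `S` of `a₀ = G a + S`.
-/

namespace Pool.Agent.W_4481e3_h6

open Pool.Agent.W_4481e3_q42

/-- `a₀ = G a + S`, `G` has the form `(Gc, GE, gr)`, `S` the form `(Sc, SE, sr)` in `η` -/
def PF (η a0 a Gc GE Sc SE : ℂ) (gr sr : ℝ) : Prop :=
  ∃ G S : ℂ, a0 = G * a + S ∧ ‖G - (Gc + GE * η)‖ ≤ gr ∧ ‖S - (Sc + SE * η)‖ ≤ sr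

theorem PF.refl (η a : ℂ) : PF η a a 1 0 0 0 0 0 := ⟨1, 0, by ring, by simp, by simp⟩

/-- forget the first order part -/
theorem PF.toPB {η a0 a Gc GE Sc SE : ℂ} {gr sr ρ : ℝ} (h : PF η a0 a Gc GE Sc SE gr sr)
    (hη : ‖η‖ ≤ ρ) : PB a0 a Gc Sc (gr + ‖GE‖ * ρ) (sr + ‖SE‖ * ρ) := by
  obtain ⟨G, S, e, hG, hS⟩ := h
  refine ⟨G, S, e, ?_, ?_⟩
  · have e1 : G - Gc = (G - (Gc + GE * η)) + GE * η := by ring
    rw [e1]
    refine (norm_add_le _ _).trans ?_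
    rw [norm_mul]
    gcongr
  · have e1 : S - Sc = (S - (Sc + SE * η)) + SE * η := by ring
    rw [e1]
    refine (norm_add_le _ _).trans ?_
    rw [norm_mul]
    gcongr

/-- rounding -/
theorem PF.round {η a0 a Gc GE Sc SE Gc' GE' Sc' SE' : ℂ} {gr sr ρ r1 r2 r3 r4 gr' sr' : ℝ}
    (h : PF η a0 a Gc GE Sc SE gr sr) (hη : ‖η‖ ≤ ρ) (h1 : ‖Gc - Gc'‖ ≤ r1) (h2 : ‖GE - GE'‖ ≤ r2)
    (h3 : ‖Sc - Sc'‖ ≤ r3) (h4 : ‖SE - SE'‖ ≤ r4) (hg : gr + r1 + r2 * ρ ≤ gr')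
    (hs : sr + r3 + r4 * ρ ≤ sr') : PF η a0 a Gc' GE' Sc' SE' gr' sr' := by
  obtain ⟨G, S, e, hG, hS⟩ := h
  refine ⟨G, S, e, ?_, ?_⟩
  · have e1 : G - (Gc' + GE' * η) = (G - (Gc + GE * η)) + (Gc - Gc') + (GE - GE') * η := by ring
    rw [e1]
    have m1 := norm_add_le ((G - (Gc + GE * η)) + (Gc - Gc')) ((GE - GE') * η)
    have m2 := norm_add_le (G - (Gc + GE * η)) (Gc - Gc')
    have m3 : ‖(GE - GE') * η‖ ≤ r2 * ρ := by
      rw [norm_mul]; exact mul_le_mul h2 hη (norm_nonneg _) ((norm_nonneg _).trans h2)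
    linarith
  · have e1 : S - (Sc' + SE' * η) = (S - (Sc + SE * η)) + (Sc - Sc') + (SE - SE') * η := by ring
    rw [e1]
    have m1 := norm_add_le ((S - (Sc + SE * η)) + (Sc - Sc')) ((SE - SE') * η)
    have m2 := norm_add_le (S - (Sc + SE * η)) (Sc - Sc')
    have m3 : ‖(SE - SE') * η‖ ≤ r4 * ρ := by
      rw [norm_mul]; exact mul_le_mul h4 hη (norm_nonneg _) ((norm_nonneg _).trans h4)
    linarith

/-- **One more past digit, first order.**  `x` is the previous point, `b` its slope; `P`, `Q` bound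
`‖ec - v ^ 2‖`, `‖1 - 2 v D‖`, `T` the rest of `e - x ^ 2`. -/
theorem PF.step {η a0 a b x e ec v D c d Gc GE Sc SE : ℂ} {gr sr R ρ : ℝ}
    (h : PF η a0 a Gc GE Sc SE gr sr) (ha : a = ((1 - 2 * c * x) * b + d * (e - x ^ 2)) / 2)
    (hx : ‖x - (v + D * η)‖ ≤ R) (he : e = ec + η) (hη : ‖η‖ ≤ ρ) :
    PF η a0 b (Gc * (1 - 2 * c * v) / 2) ((GE * (1 - 2 * c * v) - 2 * c * D * Gc) / 2)
      (Sc + d * (Gc * (ec - v ^ 2)) / 2)
      (SE + d * (Gc * (1 - 2 * v * D) + GE * (ec - v ^ 2)) / 2)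
      ((2 * ‖c‖ * ‖GE‖ * ‖D‖ * ρ ^ 2 + 2 * ‖c‖ * R * (‖Gc‖ + ‖GE‖ * ρ) +
        gr * (‖1 - 2 * c * v‖ + 2 * ‖c‖ * (‖D‖ * ρ + R))) / 2)
      (sr + ‖d‖ / 2 * (‖GE‖ * ‖1 - 2 * v * D‖ * ρ ^ 2 +
        (‖Gc‖ + ‖GE‖ * ρ) * ((‖D‖ * ρ) ^ 2 + 2 * (‖v‖ + ‖D‖ * ρ) * R + R ^ 2) +
        gr * (‖ec - v ^ 2‖ + ‖1 - 2 * v * D‖ * ρ +
          ((‖D‖ * ρ) ^ 2 + 2 * (‖v‖ + ‖D‖ * ρ) * R + R ^ 2)))) := by
  obtain ⟨G, S, e1, hG, hS⟩ := h
  set g := G - (Gc + GE * η) with hg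
  set u := x - (v + D * η) with hu
  have hR : 0 ≤ R := (norm_nonneg _).trans hx
  have hρ : 0 ≤ ρ := (norm_nonneg _).trans hη
  have hgr : 0 ≤ gr := (norm_nonneg _).trans hG
  have hGg : G = Gc + GE * η + g := by rw [hg]; ring
  have hxu : x = v + D * η + u := by rw [hu]; ring
  have hDη : ‖D * η‖ ≤ ‖D‖ * ρ := by rw [norm_mul]; gcongr
  have hGE : ‖Gc + GE * η‖ ≤ ‖Gc‖ + ‖GE‖ * ρ := by
    refine (norm_add_le _ _).trans ?_
    rw [norm_mul]; gcongr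
  refine ⟨G * (1 - 2 * c * x) / 2, S + G * d * (e - x ^ 2) / 2, by rw [e1, ha]; ring, ?_, ?_⟩
  · have e2 : G * (1 - 2 * c * x) / 2 - (Gc * (1 - 2 * c * v) / 2 +
        (GE * (1 - 2 * c * v) - 2 * c * D * Gc) / 2 * η) =
        (-(2 * c * GE * D * η ^ 2) - 2 * c * u * (Gc + GE * η) +
          g * ((1 - 2 * c * v) - 2 * c * (D * η + u))) / 2 := by rw [hGg, hxu]; ring
    rw [e2, norm_div, Complex.norm_ofNat]
    have n1 := norm_add_le (-(2 * c * GE * D * η ^ 2) - 2 * c * u * (Gc + GE * η))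
      (g * ((1 - 2 * c * v) - 2 * c * (D * η + u)))
    have n2 := norm_sub_le (-(2 * c * GE * D * η ^ 2)) (2 * c * u * (Gc + GE * η))
    have n3 : ‖-(2 * c * GE * D * η ^ 2)‖ ≤ 2 * ‖c‖ * ‖GE‖ * ‖D‖ * ρ ^ 2 := by
      rw [norm_neg, norm_mul, norm_mul, norm_mul, norm_mul, norm_pow, Complex.norm_ofNat]; gcongr
    have n4 : ‖2 * c * u * (Gc + GE * η)‖ ≤ 2 * ‖c‖ * R * (‖Gc‖ + ‖GE‖ * ρ) := by
      rw [norm_mul, norm_mul, norm_mul, Complex.norm_ofNat]; gcongr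
    have n5 : ‖(1 - 2 * c * v) - 2 * c * (D * η + u)‖ ≤ ‖1 - 2 * c * v‖ + 2 * ‖c‖ * (‖D‖ * ρ + R) := by
      refine (norm_sub_le _ _).trans ?_
      rw [norm_mul, norm_mul, Complex.norm_ofNat]
      gcongr
      exact (norm_add_le _ _).trans (add_le_add hDη hx)
    have n6 : ‖g * ((1 - 2 * c * v) - 2 * c * (D * η + u))‖ ≤
        gr * (‖1 - 2 * c * v‖ + 2 * ‖c‖ * (‖D‖ * ρ + R)) := by
      rw [norm_mul]; gcongr
    linarith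
  · set q := -((D * η) ^ 2 + 2 * (v + D * η) * u + u ^ 2) with hq
    have hE : e - x ^ 2 = (ec - v ^ 2) + (1 - 2 * v * D) * η + q := by rw [he, hxu, hq]; ring
    have hqn : ‖q‖ ≤ (‖D‖ * ρ) ^ 2 + 2 * (‖v‖ + ‖D‖ * ρ) * R + R ^ 2 := by
      rw [hq, norm_neg]
      have m1 := norm_add_le ((D * η) ^ 2 + 2 * (v + D * η) * u) (u ^ 2)
      have m2 := norm_add_le ((D * η) ^ 2) (2 * (v + D * η) * u)
      have m3 : ‖(D * η) ^ 2‖ ≤ (‖D‖ * ρ) ^ 2 := by rw [norm_pow]; gcongr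
      have m4 : ‖2 * (v + D * η) * u‖ ≤ 2 * (‖v‖ + ‖D‖ * ρ) * R := by
        rw [norm_mul, norm_mul, Complex.norm_ofNat]
        gcongr
        exact (norm_add_le _ _).trans (by gcongr)
      have m5 : ‖u ^ 2‖ ≤ R ^ 2 := by rw [norm_pow]; gcongr
      linarith
    set T := (‖D‖ * ρ) ^ 2 + 2 * (‖v‖ + ‖D‖ * ρ) * R + R ^ 2 with hT
    have hT0 : 0 ≤ T := (norm_nonneg _).trans hqn
    have e2 : S + G * d * (e - x ^ 2) / 2 - (Sc + d * (Gc * (ec - v ^ 2)) / 2 +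
        (SE + d * (Gc * (1 - 2 * v * D) + GE * (ec - v ^ 2)) / 2) * η) =
        (S - (Sc + SE * η)) + d / 2 * (GE * (1 - 2 * v * D) * η ^ 2 + (Gc + GE * η) * q +
          g * ((ec - v ^ 2) + (1 - 2 * v * D) * η + q)) := by
      rw [hE, hGg]; ring
    rw [e2]
    refine (norm_add_le _ _).trans ?_
    refine add_le_add hS ?_
    rw [norm_mul, norm_div, Complex.norm_ofNat]
    have m0 : ‖GE * (1 - 2 * v * D) * η ^ 2 + (Gc + GE * η) * q +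
          g * ((ec - v ^ 2) + (1 - 2 * v * D) * η + q)‖ ≤
        ‖GE‖ * ‖1 - 2 * v * D‖ * ρ ^ 2 + (‖Gc‖ + ‖GE‖ * ρ) * T +
          gr * (‖ec - v ^ 2‖ + ‖1 - 2 * v * D‖ * ρ + T) := by
      have k1 := norm_add_le (GE * (1 - 2 * v * D) * η ^ 2 + (Gc + GE * η) * q)
        (g * ((ec - v ^ 2) + (1 - 2 * v * D) * η + q))
      have k2 := norm_add_le (GE * (1 - 2 * v * D) * η ^ 2) ((Gc + GE * η) * q)
      have k3 : ‖GE * (1 - 2 * v * D) * η ^ 2‖ ≤ ‖GE‖ * ‖1 - 2 * v * D‖ * ρ ^ 2 := by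
        rw [norm_mul, norm_mul, norm_pow]; gcongr
      have k4 : ‖(Gc + GE * η) * q‖ ≤ (‖Gc‖ + ‖GE‖ * ρ) * T := by
        rw [norm_mul]; gcongr
      have k5 : ‖(ec - v ^ 2) + (1 - 2 * v * D) * η + q‖ ≤ ‖ec - v ^ 2‖ + ‖1 - 2 * v * D‖ * ρ + T := by
        refine (norm_add_le _ _).trans ?_
        refine add_le_add ((norm_add_le _ _).trans ?_) hqn
        rw [norm_mul]; gcongr
      have k6 : ‖g * ((ec - v ^ 2) + (1 - 2 * v * D) * η + q)‖ ≤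
          gr * (‖ec - v ^ 2‖ + ‖1 - 2 * v * D‖ * ρ + T) := by
        rw [norm_mul]; gcongr
      linarith
    gcongr

/-- **Slope at the past time, first order**: `ac + aE η` approximates `(α - S) / G` -/
theorem PF.slope {η a0 a Gc GE Sc SE α ac aE : ℂ} {gr sr ρ δ r t0 t1 : ℝ}
    (h : PF η a0 a Gc GE Sc SE gr sr) (hη : ‖η‖ ≤ ρ) (hα : ‖a0 - α‖ ≤ δ)
    (ht0 : ‖Gc * ac - (α - Sc)‖ ≤ t0) (ht1 : ‖SE + GE * ac + Gc * aE‖ ≤ t1)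
    (hG : gr + ‖GE‖ * ρ < ‖Gc‖)
    (hr : δ + sr + gr * (‖ac‖ + ‖aE‖ * ρ) + t0 + t1 * ρ + ‖GE‖ * ‖aE‖ * ρ ^ 2 ≤
      r * (‖Gc‖ - ‖GE‖ * ρ - gr)) :
    ‖a - (ac + aE * η)‖ ≤ r := by
  obtain ⟨G, S, e1, h1, h2⟩ := h
  have hρ : 0 ≤ ρ := (norm_nonneg _).trans hη
  have h3 : ‖Gc‖ - ‖GE‖ * ρ - gr ≤ ‖G‖ := by
    have e2 : Gc = G - (G - (Gc + GE * η)) - GE * η := by ring
    have m1 : ‖Gc‖ ≤ ‖G‖ + ‖G - (Gc + GE * η)‖ + ‖GE * η‖ := by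
      conv_lhs => rw [e2]
      exact (norm_sub_le _ _).trans (by gcongr; exact norm_sub_le _ _)
    have m2 : ‖GE * η‖ ≤ ‖GE‖ * ρ := by rw [norm_mul]; gcongr
    linarith
  have e2 : G * (a - (ac + aE * η)) = (a0 - α) - (S - (Sc + SE * η)) - (Gc * ac - (α - Sc)) -
      (SE + GE * ac + Gc * aE) * η - (G - (Gc + GE * η)) * (ac + aE * η) - GE * aE * η ^ 2 := by
    rw [e1]; ring
  have h4 : ‖G‖ * ‖a - (ac + aE * η)‖ ≤
      δ + sr + gr * (‖ac‖ + ‖aE‖ * ρ) + t0 + t1 * ρ + ‖GE‖ * ‖aE‖ * ρ ^ 2 := by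
    rw [← norm_mul, e2]
    have m1 := norm_sub_le ((a0 - α) - (S - (Sc + SE * η)) - (Gc * ac - (α - Sc)) -
      (SE + GE * ac + Gc * aE) * η - (G - (Gc + GE * η)) * (ac + aE * η)) (GE * aE * η ^ 2)
    have m2 := norm_sub_le ((a0 - α) - (S - (Sc + SE * η)) - (Gc * ac - (α - Sc)) -
      (SE + GE * ac + Gc * aE) * η) ((G - (Gc + GE * η)) * (ac + aE * η))
    have m3 := norm_sub_le ((a0 - α) - (S - (Sc + SE * η)) - (Gc * ac - (α - Sc)))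
      ((SE + GE * ac + Gc * aE) * η)
    have m4 := norm_sub_le ((a0 - α) - (S - (Sc + SE * η))) (Gc * ac - (α - Sc))
    have m5 := norm_sub_le (a0 - α) (S - (Sc + SE * η))
    have n1 : ‖GE * aE * η ^ 2‖ ≤ ‖GE‖ * ‖aE‖ * ρ ^ 2 := by
      rw [norm_mul, norm_mul, norm_pow]; gcongr
    have n2 : ‖(SE + GE * ac + Gc * aE) * η‖ ≤ t1 * ρ := by
      rw [norm_mul]; exact mul_le_mul ht1 hη (norm_nonneg _) ((norm_nonneg _).trans ht1)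
    have n3 : ‖ac + aE * η‖ ≤ ‖ac‖ + ‖aE‖ * ρ := by
      refine (norm_add_le _ _).trans ?_
      rw [norm_mul]; gcongr
    have n4 : ‖(G - (Gc + GE * η)) * (ac + aE * η)‖ ≤ gr * (‖ac‖ + ‖aE‖ * ρ) := by
      rw [norm_mul]
      exact mul_le_mul h1 n3 (norm_nonneg _) ((norm_nonneg _).trans h1)
    linarith
  have h5 : (‖Gc‖ - ‖GE‖ * ρ - gr) * ‖a - (ac + aE * η)‖ ≤ (‖Gc‖ - ‖GE‖ * ρ - gr) * r := by
    have := mul_le_mul_of_nonneg_right h3 (norm_nonneg (a - (ac + aE * η)))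
    linarith
  exact le_of_mul_le_mul_left h5 (by linarith)

/-- form of the test point, first order slope -/
theorem test_formF {Z w a v D η ac aE : ℂ} {s r ra κ : ℝ} (hw : ‖w - (v + D * η)‖ ≤ r)
    (ha : ‖a - (ac + aE * η)‖ ≤ ra) (hZ : ‖Z - (w + a * s)‖ ≤ κ * s ^ 2 / 2) :
    ‖Z - (v + ac * s + (D + aE * s) * η)‖ ≤ r + |s| * ra + κ * s ^ 2 / 2 := by
  have e1 : Z - (v + ac * s + (D + aE * s) * η) =
      (Z - (w + a * s)) + (w - (v + D * η)) + (s : ℂ) * (a - (ac + aE * η)) := by ring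
  rw [e1]
  have m1 := norm_add_le ((Z - (w + a * s)) + (w - (v + D * η))) ((s : ℂ) * (a - (ac + aE * η)))
  have m2 := norm_add_le (Z - (w + a * s)) (w - (v + D * η))
  rw [norm_mul, Complex.norm_real, Real.norm_eq_abs] at m1
  have m3 : |s| * ‖a - (ac + aE * η)‖ ≤ |s| * ra := by gcongr
  linarith

end Pool.Agent.W_4481e3_h6
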