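import Pool.Agent.W_4481e3_q42.Form2

/-!
Kill certificate, real lemmas of the past: the slope `a₀` as an affine function of the slope in the
past, the two preimages, the slope of the test point.
-/

namespace Pool.Agent.W_4481e3_h6

open Pool.Agent.W_4481e3_q42

/-- `a₀ = G a + S` with `G`, `S` in the balls `(Gc, gr)`, `(Sc, sr)` -/
def PB (a0 a Gc Sc : ℂ) (gr sr : ℝ) : Prop :=
  ∃ G S : ℂ, a0 = G * a + S ∧ ‖G - Gc‖ ≤ gr ∧ ‖S - Sc‖ ≤ sr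

theorem PB.refl (a : ℂ) : PB a a 1 0 0 0 := ⟨1, 0, by ring, by simp, by simp⟩

theorem PB.nonneg {a0 a Gc Sc : ℂ} {gr sr : ℝ} (h : PB a0 a Gc Sc gr sr) : 0 ≤ gr ∧ 0 ≤ sr := by
  obtain ⟨G, S, -, h1, h2⟩ := h
  exact ⟨(norm_nonneg _).trans h1, (norm_nonneg _).trans h2⟩

/-- rounding -/
theorem PB.round {a0 a Gc Sc Gc' Sc' : ℂ} {gr sr r1 r2 gr' sr' : ℝ} (h : PB a0 a Gc Sc gr sr)
    (h1 : ‖Gc - Gc'‖ ≤ r1) (h2 : ‖Sc - Sc'‖ ≤ r2) (hg : gr + r1 ≤ gr') (hs : sr + r2 ≤ sr') :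
    PB a0 a Gc' Sc' gr' sr' := by
  obtain ⟨G, S, e, hG, hS⟩ := h
  refine ⟨G, S, e, ?_, ?_⟩
  · have e1 : G - Gc' = (G - Gc) + (Gc - Gc') := by ring
    rw [e1]
    refine (norm_add_le _ _).trans ?_
    linarith
  · have e1 : S - Sc' = (S - Sc) + (Sc - Sc') := by ring
    rw [e1]
    refine (norm_add_le _ _).trans ?_
    linarith

/-- **One more past digit.**  `x` is the previous point, `b` its slope. -/
theorem PB.step {a0 a b x e ec v c d Gc Sc : ℂ} {gr sr R ρ : ℝ} (h : PB a0 a Gc Sc gr sr)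
    (ha : a = ((1 - 2 * c * x) * b + d * (e - x ^ 2)) / 2) (hx : ‖x - v‖ ≤ R) (he : ‖e - ec‖ ≤ ρ) :
    PB a0 b (Gc * (1 - 2 * c * v) / 2) (Sc + Gc * d * (ec - v ^ 2) / 2)
      ((‖Gc‖ * (2 * ‖c‖ * R) + gr * (‖1 - 2 * c * v‖ + 2 * ‖c‖ * R)) / 2)
      (sr + ‖Gc‖ * ‖d‖ / 2 * (ρ + 2 * ‖v‖ * R + R ^ 2) +
        gr * ‖d‖ / 2 * (‖ec - v ^ 2‖ + (ρ + 2 * ‖v‖ * R + R ^ 2))) := by
  obtain ⟨G, S, e1, hG, hS⟩ := h
  have hR : 0 ≤ R := (norm_nonneg _).trans hx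
  have hgr : 0 ≤ gr := (norm_nonneg _).trans hG
  refine ⟨G * (1 - 2 * c * x) / 2, S + G * d * (e - x ^ 2) / 2, by rw [e1, ha]; ring, ?_, ?_⟩
  · have e2 : G * (1 - 2 * c * x) / 2 - Gc * (1 - 2 * c * v) / 2 =
        (Gc * (-(2 * c * (x - v))) + (G - Gc) * ((1 - 2 * c * v) - 2 * c * (x - v))) / 2 := by ring
    have n1 : ‖2 * c * (x - v)‖ ≤ 2 * ‖c‖ * R := by
      rw [norm_mul, norm_mul, Complex.norm_ofNat]; gcongr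
    rw [e2, norm_div, Complex.norm_ofNat]
    have n2 := norm_add_le (Gc * (-(2 * c * (x - v)))) ((G - Gc) * ((1 - 2 * c * v) - 2 * c * (x - v)))
    rw [norm_mul, norm_neg, norm_mul (G - Gc)] at n2
    have n3 : ‖(1 - 2 * c * v) - 2 * c * (x - v)‖ ≤ ‖1 - 2 * c * v‖ + 2 * ‖c‖ * R :=
      (norm_sub_le _ _).trans (by linarith)
    have n4 : ‖Gc‖ * ‖2 * c * (x - v)‖ ≤ ‖Gc‖ * (2 * ‖c‖ * R) := by gcongr
    have n5 : ‖G - Gc‖ * ‖(1 - 2 * c * v) - 2 * c * (x - v)‖ ≤ gr * (‖1 - 2 * c * v‖ + 2 * ‖c‖ * R) := by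
      gcongr
    linarith
  · have e2 : S + G * d * (e - x ^ 2) / 2 - (Sc + Gc * d * (ec - v ^ 2) / 2) =
        (S - Sc) + Gc * d / 2 * ((e - x ^ 2) - (ec - v ^ 2)) +
          (G - Gc) * d / 2 * ((ec - v ^ 2) + ((e - x ^ 2) - (ec - v ^ 2))) := by ring
    have n0 : ‖(e - x ^ 2) - (ec - v ^ 2)‖ ≤ ρ + 2 * ‖v‖ * R + R ^ 2 := by
      have e3 : (e - x ^ 2) - (ec - v ^ 2) = (e - ec) - (2 * v * (x - v) + (x - v) ^ 2) := by ring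
      rw [e3]
      refine (norm_sub_le _ _).trans ?_
      have m1 := norm_add_le (2 * v * (x - v)) ((x - v) ^ 2)
      rw [norm_mul, norm_mul, norm_pow, Complex.norm_ofNat] at m1
      have m2 : 2 * ‖v‖ * ‖x - v‖ ≤ 2 * ‖v‖ * R := by gcongr
      have m3 : ‖x - v‖ ^ 2 ≤ R ^ 2 := by gcongr
      linarith
    rw [e2]
    have n1 := norm_add_le ((S - Sc) + Gc * d / 2 * ((e - x ^ 2) - (ec - v ^ 2)))
      ((G - Gc) * d / 2 * ((ec - v ^ 2) + ((e - x ^ 2) - (ec - v ^ 2))))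
    have n2 := norm_add_le (S - Sc) (Gc * d / 2 * ((e - x ^ 2) - (ec - v ^ 2)))
    rw [norm_mul, norm_div, norm_mul, Complex.norm_ofNat] at n1
    rw [norm_mul, norm_div, norm_mul, Complex.norm_ofNat] at n2
    have n3 : ‖(ec - v ^ 2) + ((e - x ^ 2) - (ec - v ^ 2))‖ ≤
        ‖ec - v ^ 2‖ + (ρ + 2 * ‖v‖ * R + R ^ 2) := (norm_add_le _ _).trans (by linarith)
    have n4 : ‖Gc‖ * ‖d‖ / 2 * ‖(e - x ^ 2) - (ec - v ^ 2)‖ ≤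
        ‖Gc‖ * ‖d‖ / 2 * (ρ + 2 * ‖v‖ * R + R ^ 2) := by gcongr
    have n5 : ‖G - Gc‖ * ‖d‖ / 2 * ‖(ec - v ^ 2) + ((e - x ^ 2) - (ec - v ^ 2))‖ ≤
        gr * ‖d‖ / 2 * (‖ec - v ^ 2‖ + (ρ + 2 * ‖v‖ * R + R ^ 2)) := by gcongr
    linarith

/-- **Past node.**  `x` is a preimage of `w`, `w` has the form `(v0, D0, r0)`, the candidate
`v + D η` has an image of the form `(v2, D2, r2)`: then `x` has the form `(v, D, r)` or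
`(1 / c - v, - D, r)`. -/
theorem past_node {x w e ec η c v D v0 D0 v2 D2 : ℂ} {ρ r0 r2 r m : ℝ} (hc : c ≠ 0)
    (he : e = ec + η) (hη : ‖η‖ ≤ ρ) (hxw : w = x + c * (e - x ^ 2)) (hw : ‖w - (v0 + D0 * η)‖ ≤ r0)
    (hq : ‖(v + D * η) + c * (e - (v + D * η) ^ 2) - (v2 + D2 * η)‖ ≤ r2)
    (hm : m + 2 * ‖c‖ * ‖D‖ * ρ ≤ ‖1 - 2 * c * v‖) (hr : 0 ≤ r) (hr2 : 2 * ‖c‖ * r ≤ m)
    (hR : ‖v2 - v0‖ + ‖D2 - D0‖ * ρ + r2 + r0 < r * (m - ‖c‖ * r)) :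
    ‖x - (v + D * η)‖ < r ∨ ‖x - ((1 / c - v) + (-D) * η)‖ < r := by
  have h1 : ‖x + c * (e - x ^ 2) - ((v + D * η) + c * (e - (v + D * η) ^ 2))‖ ≤
      ‖v2 - v0‖ + ‖D2 - D0‖ * ρ + r2 + r0 := by
    rw [← hxw]
    have e1 : w - ((v + D * η) + c * (e - (v + D * η) ^ 2)) =
        (w - (v0 + D0 * η)) - ((v + D * η) + c * (e - (v + D * η) ^ 2) - (v2 + D2 * η)) -
          ((v2 - v0) + (D2 - D0) * η) := by ring
    rw [e1]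
    refine (norm_sub_le _ _).trans ?_
    have m1 := norm_sub_le (w - (v0 + D0 * η))
      ((v + D * η) + c * (e - (v + D * η) ^ 2) - (v2 + D2 * η))
    have m2 := norm_add_le (v2 - v0) ((D2 - D0) * η)
    rw [norm_mul] at m2
    have m3 : ‖D2 - D0‖ * ‖η‖ ≤ ‖D2 - D0‖ * ρ := by gcongr
    linarith
  have h2 : m ≤ ‖1 - 2 * c * (v + D * η)‖ := by
    have e1 : 1 - 2 * c * (v + D * η) = (1 - 2 * c * v) - 2 * c * D * η := by ring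
    rw [e1]
    have m1 := norm_sub_norm_le (1 - 2 * c * v) (2 * c * D * η)
    have m2 : ‖2 * c * D * η‖ ≤ 2 * ‖c‖ * ‖D‖ * ρ := by
      rw [norm_mul, norm_mul, norm_mul, Complex.norm_ofNat]; gcongr
    linarith
  rcases back_step hc h1 h2 hr hr2 hR with h | h
  · exact Or.inl h
  · right
    have e1 : x - ((1 / c - v) + (-D) * η) = x - (1 / c - (v + D * η)) := by ring
    rw [e1]; exact h

/-- the past node at `4 / 15`: the far preimage is impossible.  `c = -cn` is the cosine. -/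
theorem past_node_near {x w e ec η v D v0 D0 v2 D2 : ℂ} {c ρ r0 r2 r m : ℝ} (hc : c < 0)
    (he : e = ec + η) (hη : ‖η‖ ≤ ρ) (hxw : w = x + c * (e - x ^ 2)) (hw : ‖w - (v0 + D0 * η)‖ ≤ r0)
    (hq : ‖(v + D * η) + c * (e - (v + D * η) ^ 2) - (v2 + D2 * η)‖ ≤ r2)
    (hm : m + 2 * |c| * ‖D‖ * ρ ≤ ‖1 - 2 * c * v‖) (hr : 0 ≤ r) (hr2 : 2 * |c| * r ≤ m)
    (hR : ‖v2 - v0‖ + ‖D2 - D0‖ * ρ + r2 + r0 < r * (m - |c| * r)) (hx : 2 * c * x.re < 1)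
    (hfar : 2 * |c| * (‖v‖ + ‖D‖ * ρ + r) ≤ 1) :
    ‖x - (v + D * η)‖ < r := by
  have hcn : ‖(c : ℂ)‖ = |c| := by rw [Complex.norm_real, Real.norm_eq_abs]
  have hc0 : (c : ℂ) ≠ 0 := by exact_mod_cast hc.ne
  rw [← hcn] at hm hr2 hR hfar
  rcases past_node hc0 he hη hxw hw hq hm hr hr2 hR with h | h
  · exact h
  exfalso
  -- `x.re < 1 / c + ‖q‖ + r ≤ 1 / (2 c)`
  set q := v + D * η with hq'
  have h1 : ‖q‖ ≤ ‖v‖ + ‖D‖ * ρ := by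
    refine (norm_add_le _ _).trans ?_
    rw [norm_mul]; gcongr
  have h2 : x.re - ((1 / c : ℝ) - q.re) ≤ ‖x - ((1 / c - v) + (-D) * η)‖ := by
    have e1 : x - ((1 / c - v) + (-D) * η) = x - (((1 / c : ℝ) : ℂ) - q) := by
      rw [hq']; push_cast; ring
    rw [e1]
    have := Complex.re_le_norm (x - (((1 / c : ℝ) : ℂ) - q))
    rwa [Complex.sub_re, Complex.sub_re, Complex.ofReal_re] at this
  have h3 : -‖q‖ ≤ q.re := by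
    have := Complex.abs_re_le_norm q
    have := (abs_le.1 this).1
    linarith
  have h4 : x.re ≤ 1 / c + (‖v‖ + ‖D‖ * ρ) + r := by
    have := Complex.re_le_norm q
    linarith
  have h5 : |c| = -c := abs_of_neg hc
  rw [hcn, h5] at hfar
  -- multiply by `2 c < 0`
  have h6 : 2 * c * (1 / c + (‖v‖ + ‖D‖ * ρ) + r) ≤ 2 * c * x.re :=
    mul_le_mul_of_nonpos_left h4 (by linarith)
  have h7 : 2 * c * (1 / c + (‖v‖ + ‖D‖ * ρ) + r) = 2 + 2 * c * (‖v‖ + ‖D‖ * ρ + r) := by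
    have : c * (1 / c) = 1 := mul_one_div_cancel hc.ne
    linear_combination 2 * this
  linarith

/-- both preimages in one ball around the critical point `1 / (2 c)` -/
theorem past_merge {x w e ec η c q v0 D0 : ℂ} {ρ r0 r : ℝ} (hc : c ≠ 0) (hqc : 2 * c * q = 1)
    (he : e = ec + η) (hη : ‖η‖ ≤ ρ) (hxw : w = x + c * (e - x ^ 2)) (hw : ‖w - (v0 + D0 * η)‖ ≤ r0)
    (hr : 0 ≤ r) (hR : ‖q / 2 + c * ec - v0‖ + ‖c - D0‖ * ρ + r0 ≤ ‖c‖ * r ^ 2) :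
    ‖x - q‖ ≤ r := by
  refine back_merge (e := e) hc hqc ?_ hr hR
  rw [← hxw]
  have e1 : w - (q + c * (e - q ^ 2)) =
      (w - (v0 + D0 * η)) - ((q / 2 + c * ec - v0) + (c - D0) * η) := by
    rw [he]; linear_combination q / 2 * hqc
  rw [e1]
  refine (norm_sub_le _ _).trans ?_
  have m2 := norm_add_le (q / 2 + c * ec - v0) ((c - D0) * η)
  rw [norm_mul] at m2
  have m3 : ‖c - D0‖ * ‖η‖ ≤ ‖c - D0‖ * ρ := by gcongr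
  linarith

/-- **Slope at the past time** from the cell `‖a₀ - α‖ ≤ δ`: `ac` approximates `(α - Sc) / Gc` -/
theorem PB.slope {a0 a Gc Sc α ac : ℂ} {gr sr δ r t : ℝ} (h : PB a0 a Gc Sc gr sr) (hα : ‖a0 - α‖ ≤ δ)
    (ht : ‖Gc * ac - (α - Sc)‖ ≤ t) (hG : gr < ‖Gc‖) (hr : δ + sr + gr * ‖ac‖ + t ≤ r * (‖Gc‖ - gr)) :
    ‖a - ac‖ ≤ r := by
  obtain ⟨G, S, e1, h1, h2⟩ := h
  have h3 : ‖Gc‖ - gr ≤ ‖G‖ := by
    have := norm_sub_norm_le Gc G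
    rw [norm_sub_rev] at this
    linarith
  have e2 : G * (a - ac) = (a0 - α) - (S - Sc) - (Gc * ac - (α - Sc)) - (G - Gc) * ac := by
    rw [e1]; ring
  have h4 : ‖G‖ * ‖a - ac‖ ≤ δ + sr + gr * ‖ac‖ + t := by
    rw [← norm_mul, e2]
    have m1 := norm_sub_le ((a0 - α) - (S - Sc) - (Gc * ac - (α - Sc))) ((G - Gc) * ac)
    have m2 := norm_sub_le ((a0 - α) - (S - Sc)) (Gc * ac - (α - Sc))
    have m3 := norm_sub_le (a0 - α) (S - Sc)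
    rw [norm_mul] at m1
    have m4 : ‖G - Gc‖ * ‖ac‖ ≤ gr * ‖ac‖ := by gcongr
    linarith
  have h5 : (‖Gc‖ - gr) * ‖a - ac‖ ≤ (‖Gc‖ - gr) * r := by
    have := mul_le_mul_of_nonneg_right h3 (norm_nonneg (a - ac))
    linarith
  exact le_of_mul_le_mul_left h5 (by linarith)

/-- form of the test point -/
theorem test_form {Z w a v D η ac : ℂ} {s r ra κ : ℝ} (hw : ‖w - (v + D * η)‖ ≤ r) (ha : ‖a - ac‖ ≤ ra)
    (hZ : ‖Z - (w + a * s)‖ ≤ κ * s ^ 2 / 2) :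
    ‖Z - (v + ac * s + D * η)‖ ≤ r + |s| * ra + κ * s ^ 2 / 2 := by
  have e1 : Z - (v + ac * s + D * η) = (Z - (w + a * s)) + (w - (v + D * η)) + (s : ℂ) * (a - ac) := by
    ring
  rw [e1]
  have m1 := norm_add_le ((Z - (w + a * s)) + (w - (v + D * η))) ((s : ℂ) * (a - ac))
  have m2 := norm_add_le (Z - (w + a * s)) (w - (v + D * η))
  rw [norm_mul, Complex.norm_real, Real.norm_eq_abs] at m1
  have m3 : |s| * ‖a - ac‖ ≤ |s| * ra := by gcongr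
  linarith

/-! ### prunes -/

theorem PB.norm_le {a0 a Gc Sc : ℂ} {gr sr B : ℝ} (h : PB a0 a Gc Sc gr sr) (ha : ‖a‖ ≤ B) :
    ‖a0‖ ≤ (‖Gc‖ + gr) * B + (‖Sc‖ + sr) ∧ ‖Sc‖ ≤ ‖a0‖ + (‖Gc‖ + gr) * B + sr ∧
      ‖a0 - Sc‖ ≤ (‖Gc‖ + gr) * B + sr := by
  obtain ⟨G, S, e1, h1, h2⟩ := h
  have hB : 0 ≤ B := (norm_nonneg _).trans ha
  have h3 : ‖G‖ ≤ ‖Gc‖ + gr := by
    have := norm_sub_norm_le G Gc
    linarith
  have h3' : 0 ≤ ‖Gc‖ + gr := (norm_nonneg _).trans h3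
  have h4 : ‖G * a‖ ≤ (‖Gc‖ + gr) * B := by
    rw [norm_mul]; gcongr
  have h5 : ‖a0 - Sc‖ ≤ (‖Gc‖ + gr) * B + sr := by
    have e2 : a0 - Sc = G * a + (S - Sc) := by rw [e1]; ring
    rw [e2]
    refine (norm_add_le _ _).trans ?_
    linarith
  refine ⟨?_, ?_, h5⟩
  · have := norm_sub_norm_le a0 Sc
    linarith
  · have := norm_sub_norm_le Sc a0
    rw [norm_sub_rev] at this
    linarith

/-- PRUNE at a cell, `‖a‖ ≤ B` -/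
theorem PB.prune {a0 a Gc Sc α : ℂ} {gr sr δ B : ℝ} (h : PB a0 a Gc Sc gr sr) (ha : ‖a‖ ≤ B)
    (hα : ‖a0 - α‖ ≤ δ) (hp : (‖Gc‖ + gr) * B + sr + δ < ‖α - Sc‖) : False := by
  have h1 := (h.norm_le ha).2.2
  have h2 : ‖α - Sc‖ ≤ ‖a0 - Sc‖ + ‖a0 - α‖ := by
    have e1 : α - Sc = (a0 - Sc) - (a0 - α) := by ring
    rw [e1]; exact norm_sub_le _ _
  linarith

/-- PRUNE at a cell, `‖a‖ ≤ Λ ‖a₀‖` (phase of the time `0`) -/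
theorem PB.pruneΛ {a0 a Gc Sc α : ℂ} {gr sr δ Λ : ℝ} (h : PB a0 a Gc Sc gr sr) (hΛ : 0 ≤ Λ)
    (ha : ‖a‖ ≤ Λ * ‖a0‖) (hα : ‖a0 - α‖ ≤ δ)
    (hp : (‖Gc‖ + gr) * (Λ * (‖α‖ + δ)) + sr + δ < ‖α - Sc‖) : False := by
  refine h.prune (ha.trans ?_) hα hp
  have h1 : ‖a0‖ ≤ ‖α‖ + δ := by
    have := norm_sub_norm_le a0 α
    linarith
  gcongr

/-- PW low: all `‖a₀‖ ≥ A₁` pruned, `‖a‖ ≤ Λ ‖a₀‖` -/
theorem PB.pw_lowΛ {a0 a Gc Sc : ℂ} {gr sr Λ A₁ : ℝ} (h : PB a0 a Gc Sc gr sr)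
    (ha : ‖a‖ ≤ Λ * ‖a0‖) (hA : A₁ ≤ ‖a0‖) (hA0 : 0 ≤ A₁)
    (hp : (‖Gc‖ + gr) * (Λ * A₁) + (‖Sc‖ + sr) < A₁) : False := by
  have h1 := (h.norm_le ha).1
  have h2 := h.nonneg
  have h3 := norm_nonneg Sc
  have h4 : (‖Gc‖ + gr) * Λ * A₁ < 1 * A₁ := by linarith
  have h5 : (‖Gc‖ + gr) * Λ < 1 := lt_of_mul_lt_mul_right h4 hA0
  have h6 : 0 ≤ (1 - (‖Gc‖ + gr) * Λ) * (‖a0‖ - A₁) := mul_nonneg (by linarith) (by linarith)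
  nlinarith

/-- PW high: all `‖a₀‖ ≤ A₂` pruned, `‖a‖ ≤ Λ ‖a₀‖` -/
theorem PB.pw_highΛ {a0 a Gc Sc : ℂ} {gr sr Λ A₂ : ℝ} (h : PB a0 a Gc Sc gr sr) (hΛ : 0 ≤ Λ)
    (ha : ‖a‖ ≤ Λ * ‖a0‖) (hA : ‖a0‖ ≤ A₂)
    (hp : A₂ + (‖Gc‖ + gr) * (Λ * A₂) + sr < ‖Sc‖) : False := by
  have h1 := (h.norm_le ha).2.1
  have h2 := h.nonneg.1
  have h3 : (‖Gc‖ + gr) * (Λ * ‖a0‖) ≤ (‖Gc‖ + gr) * (Λ * A₂) := by gcongr
  linarith

/-- PW low: all `‖a₀‖ ≥ A₁` pruned, `‖a‖ ≤ B` -/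
theorem PB.pw_low {a0 a Gc Sc : ℂ} {gr sr B A₁ : ℝ} (h : PB a0 a Gc Sc gr sr)
    (ha : ‖a‖ ≤ B) (hA : A₁ ≤ ‖a0‖) (hp : (‖Gc‖ + gr) * B + (‖Sc‖ + sr) < A₁) : False := by
  have h1 := (h.norm_le ha).1
  linarith

/-- PW high: all `‖a₀‖ ≤ A₂` pruned, `‖a‖ ≤ B` -/
theorem PB.pw_high {a0 a Gc Sc : ℂ} {gr sr B A₂ : ℝ} (h : PB a0 a Gc Sc gr sr)
    (ha : ‖a‖ ≤ B) (hA : ‖a0‖ ≤ A₂) (hp : A₂ + (‖Gc‖ + gr) * B + sr < ‖Sc‖) : False := by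
  have h1 := (h.norm_le ha).2.1
  linarith

/-- RANGE -/
theorem range_out {a0 α : ℂ} {δ A₁ A₂ : ℝ} (hα : ‖a0 - α‖ ≤ δ) (h1 : A₁ ≤ ‖a0‖) (h2 : ‖a0‖ ≤ A₂)
    (h : ‖α‖ + δ < A₁ ∨ A₂ + δ < ‖α‖) : False := by
  have h3 := norm_sub_norm_le a0 α
  have h4 := norm_sub_norm_le α a0
  rw [norm_sub_rev] at h4
  rcases h with h | h <;> linarith

end Pool.Agent.W_4481e3_h6
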