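import Mathlib

/-!
Boundedness of the slopes from a backward contraction certificate (sequences only).
-/

open Filter Topology Set Finset

namespace Pool.Agent.W_4481e3_h6

lemma prod_est0 {n : ℕ} {y F : ℕ → ℝ} {S : ℝ} (hS : 0 ≤ S)
    (hF : ∀ j, 0 ≤ F j) (hF1 : ∀ j, F j ≤ 61)
    (h : ∀ j < n, y (j + 1) ≤ (F j * y j + S) / 2) :
    y n ≤ (∏ j ∈ range n, F j) / 2 ^ n * y 0 + S * n * 62 ^ n := by
  have key : ∀ m ≤ n, y m ≤ (∏ j ∈ range m, F j) / 2 ^ m * y 0 + S * m * 62 ^ m := by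
    intro m
    induction m with
    | zero => intro _; simp
    | succ m ih =>
      intro hm
      have h1 := ih (by omega)
      have h2 := h m (by omega)
      have hFm := hF m
      have hFm1 := hF1 m
      have hm0 : (0:ℝ) ≤ m := Nat.cast_nonneg m
      have h62 : (1:ℝ) ≤ 62 ^ m := one_le_pow₀ (by norm_num)
      have h3 : F m * y m ≤ F m * ((∏ j ∈ range m, F j) / 2 ^ m * y 0 + S * m * 62 ^ m) :=
        mul_le_mul_of_nonneg_left h1 hFm
      have h4 : F m * (S * m * 62 ^ m) ≤ 61 * (S * m * 62 ^ m) :=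
        mul_le_mul_of_nonneg_right hFm1 (by positivity)
      have h5 : S * 1 ≤ S * 62 ^ m := mul_le_mul_of_nonneg_left h62 hS
      have h6 : (∏ j ∈ range (m + 1), F j) / 2 ^ (m + 1) * y 0 =
          F m * ((∏ j ∈ range m, F j) / 2 ^ m * y 0) / 2 := by
        rw [prod_range_succ, pow_succ]; field_simp
      rw [h6]
      push_cast
      rw [pow_succ]
      have h7 : 0 ≤ S * m * 62 ^ m := by positivity
      nlinarith
  exact key n le_rfl

/-- **Bounded slopes.** `F` the multipliers, `σ` the weights. -/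
theorem seq_bdd {x F σ : ℕ → ℝ} {S m M : ℝ} {N : ℕ} (hS : 0 ≤ S) (hm : 0 < m)
    (hσm : ∀ k, m ≤ σ k) (hσM : ∀ k, σ k ≤ M) (hF : ∀ j, 0 ≤ F j) (hF1 : ∀ j, F j ≤ 61)
    (h : ∀ k, x (k + 1) ≤ (F k * x k + S) / 2)
    (hc : ∀ k ≥ N, ∃ n, 1 ≤ n ∧ n ≤ N ∧
      (∏ j ∈ range n, F (k - n + j)) * σ (k - n) ≤ 19 / 20 * 2 ^ n * σ k) :
    ∃ C : ℝ, 0 ≤ C ∧ ∀ k, x k ≤ C := by
  have hM : 0 < M := lt_of_lt_of_le hm ((hσm 0).trans (hσM 0))
  obtain ⟨B, hB0, hB⟩ : ∃ B : ℝ, 0 ≤ B ∧ ∀ k < N, x k ≤ B := by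
    refine ⟨∑ k ∈ range N, |x k|, sum_nonneg fun _ _ => abs_nonneg _, fun k hk => ?_⟩
    exact (le_abs_self _).trans (single_le_sum (f := fun k => |x k|) (fun i _ => abs_nonneg _)
      (mem_range.2 hk))
  set K1 : ℝ := (B + 20 * (S * N * 62 ^ N)) / m with hK1
  have hSN : 0 ≤ S * N * 62 ^ N := by positivity
  have hK10 : 0 ≤ K1 := by positivity
  have hK1m : K1 * m = B + 20 * (S * N * 62 ^ N) := by rw [hK1, div_mul_cancel₀ _ hm.ne']
  have key : ∀ k, x k ≤ K1 * σ k := by
    intro k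
    induction k using Nat.strong_induction_on with
    | _ k ih =>
      have hk1 : K1 * m ≤ K1 * σ k := by gcongr; exact hσm k
      rcases lt_or_ge k N with hk | hk
      · have := hB k hk
        linarith
      · obtain ⟨n, hn1, hnN, hn⟩ := hc k hk
        have hkp : k = k - n + n := by omega
        have h1 := prod_est0 (n := n) (y := fun j => x (k - n + j)) (F := fun j => F (k - n + j)) hS
          (fun j => hF _) (fun j => hF1 _) (fun j _ => h (k - n + j))
        simp only [add_zero] at h1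
        rw [← hkp] at h1
        have h2 := ih (k - n) (by omega)
        have hP0 : 0 ≤ ∏ j ∈ range n, F (k - n + j) := prod_nonneg fun j _ => hF _
        have h2n : (0:ℝ) < 2 ^ n := by positivity
        have h3 : (∏ j ∈ range n, F (k - n + j)) / 2 ^ n * x (k - n) ≤ 19 / 20 * σ k * K1 := by
          calc (∏ j ∈ range n, F (k - n + j)) / 2 ^ n * x (k - n)
              ≤ (∏ j ∈ range n, F (k - n + j)) / 2 ^ n * (K1 * σ (k - n)) := by gcongr
            _ = ((∏ j ∈ range n, F (k - n + j)) * σ (k - n)) / 2 ^ n * K1 := by ring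
            _ ≤ (19 / 20 * 2 ^ n * σ k) / 2 ^ n * K1 := by gcongr
            _ = 19 / 20 * σ k * K1 := by field_simp
        have h4 : S * n * 62 ^ n ≤ S * N * 62 ^ N := by
          have hnN' : (n:ℝ) ≤ N := by exact_mod_cast hnN
          have h62 : (62:ℝ) ^ n ≤ 62 ^ N := pow_le_pow_right₀ (by norm_num) hnN
          gcongr
        have h5 : 20 * (S * N * 62 ^ N) ≤ K1 * σ k := by linarith
        linarith
  refine ⟨K1 * M, by positivity, fun k => (key k).trans ?_⟩
  gcongr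
  exact hσM k

end Pool.Agent.W_4481e3_h6
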