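import Pool.Agent.W_4481e3_h6.Seq

/-!
Boundedness of the slopes from a forward contraction certificate (sequences only).
-/

open Filter Topology Set Finset

namespace Pool.Agent.W_4481e3_h6

/-- **Bounded slopes, forward form.** -/
theorem seq_bdd_fwd {x F σ : ℕ → ℝ} {S m M : ℝ} {N k0 : ℕ} (hS : 0 ≤ S) (hm : 0 < m)
    (hσm : ∀ k, m ≤ σ k) (hσM : ∀ k, σ k ≤ M) (hF : ∀ j, 0 ≤ F j) (hF1 : ∀ j, F j ≤ 61)
    (hx : ∀ k, 0 ≤ x k) (h : ∀ k, x (k + 1) ≤ (F k * x k + S) / 2)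
    (hc : ∀ k ≥ k0, ∃ n, 1 ≤ n ∧ n ≤ N ∧
      (∏ j ∈ range n, F (k + j)) * σ k ≤ 19 / 20 * 2 ^ n * σ (k + n)) :
    ∃ C : ℝ, 0 ≤ C ∧ ∀ k, x k ≤ C := by
  have hM : 0 < M := lt_of_lt_of_le hm ((hσm 0).trans (hσM 0))
  have hSN : 0 ≤ S * N * 62 ^ N := by positivity
  set K1 : ℝ := (x k0 + 20 * (S * N * 62 ^ N)) / m with hK1
  have hK10 : 0 ≤ K1 := by have := hx k0; positivity
  have hK1m : K1 * m = x k0 + 20 * (S * N * 62 ^ N) := by rw [hK1, div_mul_cancel₀ _ hm.ne']
  have hN1 : 1 ≤ N := by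
    obtain ⟨n, h1, h2, -⟩ := hc k0 le_rfl
    omega
  -- greedy times
  have key : ∀ i, ∃ g, k0 ≤ g ∧ g ≤ k0 + i ∧ k0 + i < g + N ∧ x g ≤ K1 * σ g := by
    intro i
    induction i with
    | zero =>
      refine ⟨k0, le_rfl, by omega, by omega, ?_⟩
      have : K1 * m ≤ K1 * σ k0 := by gcongr; exact hσm k0
      linarith
    | succ i ih =>
      obtain ⟨g, hg0, hg1, hg2, hg3⟩ := ih
      by_cases hlt : k0 + (i + 1) < g + N
      · exact ⟨g, hg0, by omega, hlt, hg3⟩
      · obtain ⟨n, hn1, hnN, hn⟩ := hc g hg0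
        refine ⟨g + n, by omega, by omega, by omega, ?_⟩
        have h1 := prod_est0 (n := n) (y := fun j => x (g + j)) (F := fun j => F (g + j)) hS
          (fun j => hF _) (fun j => hF1 _) (fun j _ => h (g + j))
        simp only [add_zero] at h1
        have hP0 : 0 ≤ ∏ j ∈ range n, F (g + j) := prod_nonneg fun j _ => hF _
        have h3 : (∏ j ∈ range n, F (g + j)) / 2 ^ n * x g ≤ 19 / 20 * σ (g + n) * K1 := by
          calc (∏ j ∈ range n, F (g + j)) / 2 ^ n * x g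
              ≤ (∏ j ∈ range n, F (g + j)) / 2 ^ n * (K1 * σ g) := by gcongr
            _ = ((∏ j ∈ range n, F (g + j)) * σ g) / 2 ^ n * K1 := by ring
            _ ≤ (19 / 20 * 2 ^ n * σ (g + n)) / 2 ^ n * K1 := by gcongr
            _ = 19 / 20 * σ (g + n) * K1 := by field_simp
        have h4 : S * n * 62 ^ n ≤ S * N * 62 ^ N := by
          have hnN' : (n:ℝ) ≤ N := by exact_mod_cast hnN
          have h62 : (62:ℝ) ^ n ≤ 62 ^ N := pow_le_pow_right₀ (by norm_num) hnN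
          gcongr
        have h5 : K1 * m ≤ K1 * σ (g + n) := by gcongr; exact hσm _
        have := hx k0
        linarith
  -- crude bound between greedy times
  have crude : ∀ g j, x (g + j) ≤ 31 ^ j * (x g + S) := by
    intro g j
    induction j with
    | zero => simp; exact hS
    | succ j ih =>
      have h1 := h (g + j)
      have h2 := hF1 (g + j)
      have h3 := hF (g + j)
      have h4 := hx (g + j)
      have h5 : (1:ℝ) ≤ 31 ^ j := one_le_pow₀ (by norm_num)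
      have h6 := hx g
      have h7 : F (g + j) * x (g + j) ≤ 61 * x (g + j) := mul_le_mul_of_nonneg_right h2 h4
      have h8 : S ≤ 31 ^ j * (x g + S) := by nlinarith
      rw [← add_assoc, pow_succ]
      linarith
  obtain ⟨B, hB0, hB⟩ : ∃ B : ℝ, 0 ≤ B ∧ ∀ k < k0, x k ≤ B := by
    refine ⟨∑ k ∈ range k0, |x k|, sum_nonneg fun _ _ => abs_nonneg _, fun k hk => ?_⟩
    exact (le_abs_self _).trans (single_le_sum (f := fun k => |x k|) (fun i _ => abs_nonneg _)
      (mem_range.2 hk))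
  refine ⟨B + 31 ^ N * (K1 * M + S), by positivity, fun k => ?_⟩
  have hpos : 0 ≤ (31:ℝ) ^ N * (K1 * M + S) := by positivity
  rcases lt_or_ge k k0 with hk | hk
  · have := hB k hk
    linarith
  · obtain ⟨i, rfl⟩ : ∃ i, k = k0 + i := ⟨k - k0, by omega⟩
    obtain ⟨g, hg0, hg1, hg2, hg3⟩ := key i
    obtain ⟨j, hj⟩ : ∃ j, k0 + i = g + j := ⟨k0 + i - g, by omega⟩
    rw [hj]
    have h1 := crude g j
    have h2 : (31:ℝ) ^ j ≤ 31 ^ N := pow_le_pow_right₀ (by norm_num) (by omega)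
    have h3 : x g ≤ K1 * M := hg3.trans (by gcongr; exact hσM g)
    have h4 : (31:ℝ) ^ j * (x g + S) ≤ 31 ^ N * (K1 * M + S) := by
      have := hx g
      gcongr
    linarith

end Pool.Agent.W_4481e3_h6
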