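import Pool.Agent.W_4481e3_h6.EvS
import Pool.Agent.W_4481e3_h6.Gau
import Pool.Agent.W_4481e3_q42.SndK

/-!
Slope chain: packed Gaussian integers.
-/

set_option exponentiation.threshold 1200

namespace Pool.Agent.W_4481e3_h6.Ev

open Complex
open Pool.Agent.W_4481e3_h6.Gau
open Pool.Agent.W_MP_4481e3_an.Ev (gd nrm1 gd_true nrm1_sound)
open Pool.Agent.W_4481e3_q12.Ev (ds ds_cast)
open Pool.Agent.W_4481e3_q42.Ev (nrq nrq_sound)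

/-- `x` represents the Gaussian integer `u` -/
def Rc (x : ℕ) (u : ℂ) : Prop := ∃ a b : ℤ, u = ⟨(a : ℝ), (b : ℝ)⟩ ∧ Rp x a b

theorem Rc.add {x y : ℕ} {u v : ℂ} (hx : Rc x u) (hy : Rc y v) : Rc (x + y) (u + v) := by
  obtain ⟨a, b, rfl, h1⟩ := hx
  obtain ⟨c, d, rfl, h2⟩ := hy
  exact ⟨a + c, b + d, by apply Complex.ext <;> simp, h1.add h2⟩

theorem Rc.mul {x y : ℕ} {u v : ℂ} (hx : Rc x u) (hy : Rc y v) : Rc (x * y) (u * v) := by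
  obtain ⟨a, b, rfl, h1⟩ := hx
  obtain ⟨c, d, rfl, h2⟩ := hy
  exact ⟨a * c - b * d, a * d + b * c, by apply Complex.ext <;> simp, h1.mul h2⟩

theorem Rc.smul {x : ℕ} {u : ℂ} (hx : Rc x u) (n : ℕ) : Rc (n * x) (n * u) := by
  obtain ⟨a, b, rfl, h1⟩ := hx
  exact ⟨n * a, n * b, by apply Complex.ext <;> simp, h1.smul n⟩

theorem Rc.congr {x : ℕ} {u v : ℂ} (hx : Rc x u) (h : u = v) : Rc x v := h ▸ hx

/-- addition or subtraction -/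
structure Op (o : ℕ → ℕ → ℕ) (σ : ℤ) : Prop where
  eq : ∀ x y : ℕ, y ≤ x → ((o x y : ℕ) : ℤ) = x + σ * y
  le : ∀ x y : ℕ, o x y ≤ x + y
  ge : ∀ x y : ℕ, x - y ≤ o x y

lemma op_add : Op Nat.add 1 :=
  ⟨fun x y _ => by simp, fun x y => le_refl _, fun x y => by simp only [Nat.add_eq]; omega⟩

lemma op_sub : Op Nat.sub (-1) :=
  ⟨fun x y h => by simp only [Nat.sub_eq]; push_cast [Nat.cast_sub h]; ring,
    fun x y => by simp only [Nat.sub_eq]; omega, fun x y => le_refl _⟩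

theorem Rc.op {o : ℕ → ℕ → ℕ} {σ : ℤ} (ho : Op o σ) {x y : ℕ} {u v : ℂ} (hx : Rc x u) (hy : Rc y v)
    (h : y ≤ x) : Rc (o x y) (u + σ * v) := by
  obtain ⟨a, b, rfl, h1⟩ := hx
  obtain ⟨c, d, rfl, h2⟩ := hy
  refine ⟨a + σ * c, b + σ * d, by apply Complex.ext <;> simp, ?_⟩
  unfold Rp at *
  rw [ho.eq x y h]
  have h3 := h1.add (h2.mul_left σ)
  have e : a + b * tz + σ * (c + d * tz) = a + σ * c + (b + σ * d) * tz := by ring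
  rwa [e] at h3

theorem Rc.sub {x y : ℕ} {u v : ℂ} (hx : Rc x u) (hy : Rc y v)
    (h : y ≤ x) : Rc (x - y) (u - v) :=
  (hx.op op_sub hy h).congr (by push_cast; ring)

theorem Rc.of_dvd {K : ℕ} (a b : ℤ) (h : Mz ∣ (K : ℤ) - (a + b * tz)) : Rc K ⟨(a:ℝ), (b:ℝ)⟩ :=
  ⟨a, b, rfl, Rp.of_dvd h⟩

/-- packed Gaussian integer -/
def Pk (z : ℕ) (u : ℂ) : Prop := ∃ A B : ℕ, z = A + B * 2 ^ 256 ∧ A < 2 ^ 101 ∧ B < 2 ^ 101 ∧
  u = ⟨(A : ℝ) - 2 ^ 100, (B : ℝ) - 2 ^ 100⟩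

lemma Pk.le {z : ℕ} {u : ℂ} (h : Pk z u) : z ≤ 2 ^ 400 := by
  obtain ⟨A, B, rfl, hA, hB, -⟩ := h
  have h1 : B * 2 ^ 256 ≤ 2 ^ 101 * 2 ^ 256 := Nat.mul_le_mul_right _ hB.le
  have : (2:ℕ) ^ 101 + 2 ^ 101 * 2 ^ 256 ≤ 2 ^ 400 := by norm_num
  omega

lemma fx_eq : ∃ K : ℕ, (∀ z, fx z = z + K) ∧ (K:ℤ) = Mz - 2 ^ 100 - 2 ^ 100 * tz :=
  ⟨_, fun z => rfl, by decide +kernel⟩

lemma cj_eq : ∃ K : ℕ, (∀ z, cj z = 2 * lo z + K - z) ∧ (K:ℤ) = Mz - 2 ^ 100 + 2 ^ 100 * tz :=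
  ⟨_, fun z => rfl, by decide +kernel⟩

lemma Pk.fx_le {z : ℕ} {u : ℂ} (h : Pk z u) : fx z ≤ 2 ^ 513 := by
  obtain ⟨K, hK, hKz⟩ := fx_eq
  rw [hK]
  have h1 := h.le
  have h2 : K ≤ 2 ^ 512 + 1 := by
    have : (K:ℤ) ≤ 2 ^ 512 + 1 := by rw [hKz]; norm_num
    exact_mod_cast this
  have : (2:ℕ) ^ 400 + (2 ^ 512 + 1) ≤ 2 ^ 513 := by norm_num
  omega

lemma Pk.fx {z : ℕ} {u : ℂ} (h : Pk z u) : Rc (fx z) u := by
  obtain ⟨A, B, rfl, hA, hB, rfl⟩ := h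
  obtain ⟨K, hK, hKz⟩ := fx_eq
  refine ⟨(A:ℤ) - 2 ^ 100, (B:ℤ) - 2 ^ 100, by apply Complex.ext <;> (simp only; push_cast; norm_num), ?_⟩
  rw [hK]
  unfold Rp
  rw [Int.modEq_iff_dvd]
  push_cast
  rw [hKz]
  exact ⟨-1, by ring⟩

lemma Pk.lo {z : ℕ} {A B : ℕ} (h : z = A + B * 2 ^ 256) (hA : A < 2 ^ 101) :
    Ev.lo z = A := by
  have e : ∀ z, Ev.lo z = z &&& (2 ^ 256 - 1) := fun z => rfl
  rw [e, Nat.and_two_pow_sub_one_eq_mod, h, Nat.add_mul_mod_self_right, Nat.mod_eq_of_lt]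
  exact hA.trans_le (by norm_num)

lemma Pk.hi {z : ℕ} {A B : ℕ} (h : z = A + B * 2 ^ 256) (hA : A < 2 ^ 101) :
    Ev.hi z = B := by
  unfold Ev.hi
  show z >>> 256 = B
  rw [Nat.shiftRight_eq_div_pow, h, Nat.add_mul_div_right _ _ (by norm_num), Nat.div_eq_of_lt, zero_add]
  exact hA.trans_le (by norm_num)

lemma Pk.cj {z : ℕ} {u : ℂ} (h : Pk z u) : Rc (cj z) ((starRingEnd ℂ) u) ∧ Ev.cj z ≤ 2 ^ 514 := by
  have hle := h.le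
  obtain ⟨A, B, hz, hA, hB, rfl⟩ := h
  have hl := Pk.lo hz hA
  obtain ⟨K, hK, hKz⟩ := cj_eq
  rw [hK, hl]
  have hK1 : 2 ^ 400 ≤ K := by
    have : (2:ℤ) ^ 400 ≤ K := by rw [hKz]; norm_num
    exact_mod_cast this
  have hK2 : K ≤ 2 ^ 513 := by
    have : (K:ℤ) ≤ 2 ^ 513 := by rw [hKz]; norm_num
    exact_mod_cast this
  have hsub : z ≤ 2 * A + K := by omega
  constructor
  · refine ⟨(A:ℤ) - 2 ^ 100, -((B:ℤ) - 2 ^ 100), by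
      apply Complex.ext
      · rw [Complex.conj_re]; simp only; push_cast; norm_num
      · rw [Complex.conj_im]; simp only; push_cast; norm_num, ?_⟩
    unfold Rp
    rw [Int.modEq_iff_dvd, Nat.cast_sub hsub, hz]
    push_cast
    rw [hKz]
    exact ⟨-1, by ring⟩
  · have : (2:ℕ) * 2 ^ 101 + 2 ^ 513 ≤ 2 ^ 514 := by norm_num
    omega

lemma mm_eq : ∀ x y, mm x y = x * y % (2 ^ 512 + 1) := fun x y => by
  have : ∃ K : ℕ, (∀ x y, mm x y = x * y % K) ∧ K = 2 ^ 512 + 1 := ⟨_, fun x y => rfl, by decide +kernel⟩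
  obtain ⟨K, h1, h2⟩ := this
  rw [h1, h2]

/-- exact norm -/
lemma mm_norm {x y : ℕ} {u : ℂ} (hx : Rc x u) (hy : Rc y ((starRingEnd ℂ) u)) (h : ‖u‖ ≤ 2 ^ 200) :
    ((mm x y : ℕ) : ℝ) = ‖u‖ ^ 2 := by
  obtain ⟨a, b, rfl, h1⟩ := hx
  obtain ⟨c, d, h3, h2⟩ := hy
  have e1 : c = a := by
    have := congrArg Complex.re h3
    simp only [Complex.conj_re] at this
    exact_mod_cast this.symm
  have e2 : d = -b := by
    have := congrArg Complex.im h3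
    simp only [Complex.conj_im] at this
    exact_mod_cast this.symm
  subst e1; subst e2
  have hn : ‖(⟨(c:ℝ), (b:ℝ)⟩ : ℂ)‖ ^ 2 = (c:ℝ) ^ 2 + (b:ℝ) ^ 2 := by
    rw [Complex.sq_norm, Complex.normSq_apply]; ring
  have hb : (c:ℝ) ^ 2 + (b:ℝ) ^ 2 ≤ 2 ^ 400 := by
    rw [← hn]
    have := pow_le_pow_left₀ (norm_nonneg _) h 2
    refine this.trans (by norm_num)
  have hb2 : c ^ 2 + b ^ 2 < Mz := by
    have : c ^ 2 + b ^ 2 ≤ 2 ^ 400 := by exact_mod_cast hb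
    exact this.trans_lt (by norm_num)
  have h5 := congrArg (fun z : ℤ => (z : ℝ)) (h1.norm h2 hb2)
  simp only [Int.cast_natCast] at h5
  rw [mm_eq, hn, h5]
  push_cast
  ring

lemma Pk.norm_le {z : ℕ} {u : ℂ} (h : Pk z u) : ‖u‖ ≤ 2 ^ 102 := by
  obtain ⟨A, B, hz, hA, hB, rfl⟩ := h
  refine (Complex.norm_le_abs_re_add_abs_im _).trans ?_
  simp only
  have hA' : (A:ℝ) < 2 ^ 101 := by exact_mod_cast hA
  have hB' : (B:ℝ) < 2 ^ 101 := by exact_mod_cast hB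
  have hA0 : (0:ℝ) ≤ A := Nat.cast_nonneg _
  have hB0 : (0:ℝ) ≤ B := Nat.cast_nonneg _
  have h1 : |(A:ℝ) - 2 ^ 100| ≤ 2 ^ 100 := by
    have e : (2:ℝ) ^ 101 = 2 * 2 ^ 100 := by norm_num
    rw [e] at hA'
    rw [abs_le]
    constructor <;> linarith
  have h2 : |(B:ℝ) - 2 ^ 100| ≤ 2 ^ 100 := by
    have e : (2:ℝ) ^ 101 = 2 * 2 ^ 100 := by norm_num
    rw [e] at hB'
    rw [abs_le]
    constructor <;> linarith
  have : (2:ℝ) ^ 100 + 2 ^ 100 ≤ 2 ^ 102 := by norm_num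
  linarith

lemma nN_sound {z : ℕ} {u : ℂ} (h : Pk z u) : ((nN z : ℕ) : ℝ) = ‖u‖ ^ 2 := by
  unfold nN
  exact mm_norm h.fx h.cj.1 (h.norm_le.trans (by norm_num))

lemma nr2_sound {a b : ℕ} {x : ℝ} (hx : x ^ 2 ≤ (a:ℝ) ^ 2 + (b:ℝ) ^ 2) : x ≤ nr2 a b := by
  unfold nr2
  apply nrm1_sound
  · unfold nrq nrm1
    exact Nat.succ_pos _
  · simp only [Nat.add_eq, Nat.mul_eq]
    push_cast
    linarith

lemma np_aux {A B : ℕ} {u : ℂ} (h : u = ⟨(A : ℝ) - 2 ^ 100, (B : ℝ) - 2 ^ 100⟩) {O : ℕ} (hO : O = 2 ^ 100) :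
    ‖u‖ ^ 2 = ((ds A O : ℕ) : ℝ) ^ 2 + ((ds B O : ℕ) : ℝ) ^ 2 := by
  rw [ds_cast, ds_cast, sq_abs, sq_abs, Complex.sq_norm, Complex.normSq_apply, h, hO]
  push_cast
  ring

lemma np1_sound {z : ℕ} {u : ℂ} (h : Pk z u) : ‖u‖ ≤ np1 z := by
  obtain ⟨A, B, hz, hA, hB, hu⟩ := h
  unfold np1
  rw [Pk.lo hz hA, Pk.hi hz hA]
  exact nrq_sound (np_aux hu (by norm_num)).le

lemma np2_sound {z : ℕ} {u : ℂ} (h : Pk z u) : ‖u‖ ≤ np2 z := by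
  obtain ⟨A, B, hz, hA, hB, hu⟩ := h
  unfold np2
  rw [Pk.lo hz hA, Pk.hi hz hA]
  exact nr2_sound (np_aux hu (by norm_num)).le

/-- `z` is the floor of `x / 2 ^ m` -/
def Fl (m : ℕ) (x u : ℂ) : Prop := |x.re - 2 ^ m * u.re| ≤ 2 ^ m ∧ |x.im - 2 ^ m * u.im| ≤ 2 ^ m

lemma Fl.norm {m : ℕ} {x u : ℂ} (h : Fl m x u) : ‖u - x / 2 ^ m‖ ≤ 14143 / 10000 := by
  have hm : (0:ℝ) < 2 ^ m := by positivity
  have e : u - x / 2 ^ m = -(((x - 2 ^ m * u)) / ((2 ^ m : ℝ) : ℂ)) := by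
    have : ((2:ℂ) ^ m) ≠ 0 := pow_ne_zero _ (by norm_num)
    push_cast
    field_simp
    ring
  rw [e, norm_neg, norm_div, Complex.norm_real, Real.norm_eq_abs, abs_of_pos hm, div_le_iff₀ hm]
  have e2 : ((2:ℂ) ^ m) = ((2 ^ m : ℝ) : ℂ) := by push_cast; rfl
  have h1 : |(x - 2 ^ m * u).re| ≤ 2 ^ m := by
    rw [e2, Complex.sub_re, Complex.re_ofReal_mul]; exact h.1
  have h2 : |(x - 2 ^ m * u).im| ≤ 2 ^ m := by
    rw [e2, Complex.sub_im, Complex.im_ofReal_mul]; exact h.2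
  have h3 : ‖x - 2 ^ m * u‖ ^ 2 ≤ (14143 / 10000 * 2 ^ m) ^ 2 := by
    rw [Complex.sq_norm, Complex.normSq_apply]
    have q1 : (x - 2 ^ m * u).re * (x - 2 ^ m * u).re ≤ 2 ^ m * 2 ^ m := by
      rw [← abs_mul_abs_self]; exact mul_le_mul h1 h1 (abs_nonneg _) hm.le
    have q2 : (x - 2 ^ m * u).im * (x - 2 ^ m * u).im ≤ 2 ^ m * 2 ^ m := by
      rw [← abs_mul_abs_self]; exact mul_le_mul h2 h2 (abs_nonneg _) hm.le
    have q3 : (0:ℝ) ≤ 2 ^ m * 2 ^ m := by positivity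
    nlinarith
  exact le_of_sq_le_sq h3 (by positivity)

/-- rounding -/
theorem rnd_sound {f : ℕ → ℕ} {m : ℕ} (hm : m ≤ 49)
    (hf : ∀ x, f x = ((x % (2 ^ 512 + 1)) >>> m) &&& ((2 ^ (256 - m) - 1) * 2 ^ 256 + (2 ^ (256 - m) - 1)))
    {x : ℕ} {u0 : ℂ} (h : Rc x (u0 + ⟨2 ^ (m + 100), 2 ^ (m + 100)⟩)) (hb : ‖u0‖ ≤ 2 ^ (m + 99)) :
    ∃ u, Pk (f x) u ∧ Fl m u0 u := by
  obtain ⟨a, b, he, hr⟩ := h
  have hre : u0.re + 2 ^ (m + 100) = a := by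
    have := congrArg Complex.re he
    simpa using this
  have him : u0.im + 2 ^ (m + 100) = b := by
    have := congrArg Complex.im he
    simpa using this
  have b1 := abs_le.1 ((Complex.abs_re_le_norm u0).trans hb)
  have b2 := abs_le.1 ((Complex.abs_im_le_norm u0).trans hb)
  have hp : (0:ℝ) < 2 ^ (m + 99) := by positivity
  have e100 : (2:ℝ) ^ (m + 100) = 2 * 2 ^ (m + 99) := by rw [pow_succ]; ring
  have ha0 : (0:ℝ) ≤ a := by rw [← hre]; linarith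
  have hb0 : (0:ℝ) ≤ b := by rw [← him]; linarith
  have e101 : (2:ℝ) ^ (m + 101) = 4 * 2 ^ (m + 99) := by
    rw [show m + 101 = m + 99 + 2 by ring, pow_add]; ring
  have ha1 : (a:ℝ) < 2 ^ (m + 101) := by rw [← hre]; linarith
  have hb1 : (b:ℝ) < 2 ^ (m + 101) := by rw [← him]; linarith
  obtain ⟨a', rfl⟩ := Int.eq_ofNat_of_zero_le (by exact_mod_cast ha0 : (0:ℤ) ≤ a)
  obtain ⟨b', rfl⟩ := Int.eq_ofNat_of_zero_le (by exact_mod_cast hb0 : (0:ℤ) ≤ b)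
  have ha2 : a' < 2 ^ (m + 101) := by exact_mod_cast ha1
  have hb2 : b' < 2 ^ (m + 101) := by exact_mod_cast hb1
  have h256 : (2:ℕ) ^ (m + 101) ≤ 2 ^ 256 := Nat.pow_le_pow_right (by norm_num) (by omega)
  have hx := hr.eq (ha2.trans_le h256) (hb2.trans_le h256)
  have hsh := field_shift (m := m) (by omega) (ha2.trans_le h256) (hb2.trans_le h256)
  have hpm : 0 < 2 ^ m := Nat.two_pow_pos m
  have hpmr : (0:ℝ) < 2 ^ m := by positivity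
  refine ⟨⟨((a' / 2 ^ m : ℕ) : ℝ) - 2 ^ 100, ((b' / 2 ^ m : ℕ) : ℝ) - 2 ^ 100⟩,
    ⟨a' / 2 ^ m, b' / 2 ^ m, ?_, ?_, ?_, rfl⟩, ?_, ?_⟩
  · rw [hf, hx, hsh]
  · rw [Nat.div_lt_iff_lt_mul hpm, ← pow_add, add_comm 101 m]; exact ha2
  · rw [Nat.div_lt_iff_lt_mul hpm, ← pow_add, add_comm 101 m]; exact hb2
  · have e1 : u0.re = a' - 2 ^ (m + 100) := by
      have : ((a' : ℤ) : ℝ) = (a' : ℝ) := by push_cast; rfl
      rw [← this]; linarith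
    rw [e1]
    simp only
    have h1 := Nat.div_add_mod a' (2 ^ m)
    have h2 := Nat.mod_lt a' hpm
    have h1r : (2:ℝ) ^ m * ((a' / 2 ^ m : ℕ) : ℝ) + ((a' % 2 ^ m : ℕ) : ℝ) = a' := by exact_mod_cast h1
    have h2r : ((a' % 2 ^ m : ℕ) : ℝ) < 2 ^ m := by exact_mod_cast h2
    have h3r : (0:ℝ) ≤ ((a' % 2 ^ m : ℕ) : ℝ) := Nat.cast_nonneg _
    have e2 : (a' : ℝ) - 2 ^ (m + 100) - 2 ^ m * (((a' / 2 ^ m : ℕ) : ℝ) - 2 ^ 100) =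
        ((a' % 2 ^ m : ℕ) : ℝ) := by
      rw [pow_add]; linarith
    rw [e2, abs_of_nonneg h3r]; exact h2r.le
  · have e1 : u0.im = b' - 2 ^ (m + 100) := by
      have : ((b' : ℤ) : ℝ) = (b' : ℝ) := by push_cast; rfl
      rw [← this]; linarith
    rw [e1]
    simp only
    have h1 := Nat.div_add_mod b' (2 ^ m)
    have h2 := Nat.mod_lt b' hpm
    have h1r : (2:ℝ) ^ m * ((b' / 2 ^ m : ℕ) : ℝ) + ((b' % 2 ^ m : ℕ) : ℝ) = b' := by exact_mod_cast h1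
    have h2r : ((b' % 2 ^ m : ℕ) : ℝ) < 2 ^ m := by exact_mod_cast h2
    have h3r : (0:ℝ) ≤ ((b' % 2 ^ m : ℕ) : ℝ) := Nat.cast_nonneg _
    have e2 : (b' : ℝ) - 2 ^ (m + 100) - 2 ^ m * (((b' / 2 ^ m : ℕ) : ℝ) - 2 ^ 100) =
        ((b' % 2 ^ m : ℕ) : ℝ) := by
      rw [pow_add]; linarith
    rw [e2, abs_of_nonneg h3r]; exact h2r.le

lemma rz_form {f : ℕ → ℕ} {m : ℕ}
    (h : ∃ M K : ℕ, (∀ x, f x = ((x % M) >>> m) &&& K) ∧ M = 2 ^ 512 + 1 ∧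
      K = (2 ^ (256 - m) - 1) * 2 ^ 256 + (2 ^ (256 - m) - 1)) :
    ∀ x, f x = ((x % (2 ^ 512 + 1)) >>> m) &&& ((2 ^ (256 - m) - 1) * 2 ^ 256 + (2 ^ (256 - m) - 1)) := by
  obtain ⟨M, K, h1, h2, h3⟩ := h
  intro x
  rw [h1, h2, h3]

lemma rz25_f : ∀ x, rz25 x = ((x % (2 ^ 512 + 1)) >>> 25) &&&
    ((2 ^ (256 - 25) - 1) * 2 ^ 256 + (2 ^ (256 - 25) - 1)) := rz_form (f := rz25) (m := 25) ⟨_, _, fun _ => rfl, by decide +kernel, by decide +kernel⟩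
lemma rz40_f : ∀ x, rz40 x = ((x % (2 ^ 512 + 1)) >>> 40) &&&
    ((2 ^ (256 - 40) - 1) * 2 ^ 256 + (2 ^ (256 - 40) - 1)) := rz_form (f := rz40) (m := 40) ⟨_, _, fun _ => rfl, by decide +kernel, by decide +kernel⟩
lemma rz48_f : ∀ x, rz48 x = ((x % (2 ^ 512 + 1)) >>> 48) &&&
    ((2 ^ (256 - 48) - 1) * 2 ^ 256 + (2 ^ (256 - 48) - 1)) := rz_form (f := rz48) (m := 48) ⟨_, _, fun _ => rfl, by decide +kernel, by decide +kernel⟩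
lemma rz49_f : ∀ x, rz49 x = ((x % (2 ^ 512 + 1)) >>> 49) &&&
    ((2 ^ (256 - 49) - 1) * 2 ^ 256 + (2 ^ (256 - 49) - 1)) := rz_form (f := rz49) (m := 49) ⟨_, _, fun _ => rfl, by decide +kernel, by decide +kernel⟩

end Pool.Agent.W_4481e3_h6.Ev
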