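import Pool.Agent.W_4481e3_h6.StP

/-!
Slope chain: soundness of one packed step.
-/

set_option exponentiation.threshold 1200

namespace Pool.Agent.W_4481e3_h6.Ev

open Complex
open Pool.Agent.W_4481e3_h6.Gau
open Pool.Agent.W_MP_4481e3_an.Ev (gd nrm1 gd_true nrm1_sound)
open Pool.Agent.W_4481e3_q12.Ev (ds ds_cast)
open Pool.Agent.W_4481e3_q42.Ev (nrq nrq_sound)

lemma rcK {K : ℕ} (u : ℂ) (a b : ℤ) (hu : u = ⟨(a:ℝ), (b:ℝ)⟩) (h : Mz ∣ (K : ℤ) - (a + b * tz)) :
    Rc K u := ⟨a, b, hu, Rp.of_dvd h⟩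

lemma c_l48 : Rc 14742040721959145907193572581985425355144223517251720423344555860334469384344331453461432520225229560708860839963921269139728846210643721220943102544659251494993788928 281474976710656 :=
  rcK _ (2 ^ 48) 0 (by apply Complex.ext <;> norm_num) (by decide +kernel)
lemma c_kl : Rc 14742040721959145907193572581985425355144223517251720423344555860334469384344331453461432520225229560708860839963921269139728846210643721220943102544658970020017078272 0 :=
  rcK _ 0 0 (by apply Complex.ext <;> norm_num) (by decide +kernel)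
lemma c_l25 : Rc 14742040721959145907193572581985425355144223517251725348595330409644370919224343971413158155192638368889694333500596799854950283404505443869342271092035896777486893056 (0 + ⟨2 ^ (25 + 100), 2 ^ (25 + 100)⟩) :=
  rcK _ (2 ^ 125) (2 ^ 125) (by apply Complex.ext <;> (simp only [zero_add]; push_cast; norm_num)) (by decide +kernel)
lemma c_v : Rc 61172327492847069472032393719205726809135813743440799050195397570919697796091958321786863938157971792315844506873509046544459008355036150650333616890210630248505090593675840694281388897307279292840560060701758501280635677350042223264484028606545834923051668802173612758717380868425663923255694323183516775602731987305961373404095014408957349330944 (0 + ⟨2 ^ (48 + 100), 2 ^ (48 + 100)⟩) :=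
  rcK _ (2 ^ 148) (2 ^ 148) (by apply Complex.ext <;> (simp only [zero_add]; push_cast; norm_num)) (by decide +kernel)
lemma c_q : Rc 41315998049390537434494706752048189989275292685267576205290549704650361952269815925997502142452469874466813125348055580672 (0 + ⟨2 ^ (48 + 100), 2 ^ (48 + 100)⟩) :=
  rcK _ (2 ^ 148) (2 ^ 148) (by apply Complex.ext <;> (simp only [zero_add]; push_cast; norm_num)) (by decide +kernel)
lemma c_y : Rc 61172327492847069472032393719205726809135813743440799050195397570919697796091958321786863938157971792315844506873509046544459008355036150650333616890210630248505090593675840694281388897307279292840560060701758501280635677350083539262533419143980329629803716992162888051402648444630954472960344685135786591528729489448413843278561827534305404911616 (0 + ⟨2 ^ (49 + 100), 2 ^ (49 + 100)⟩) :=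
  rcK _ (2 ^ 149) (2 ^ 149) (by apply Complex.ext <;> (simp only [zero_add]; push_cast; norm_num)) (by decide +kernel)
lemma c_w : Rc 55635907749862844386400314505595567251599107970324256757699365672051224279213746123593285972818168186054976565058958882713758619825090273161853126012111379394359656174561533311390475225659683285667197251952310126736384079674236789819679064799049144322002385432005298754318926685118898956467609436660542663951364060209675756245736226816 (0 + ⟨2 ^ (49 + 100), 2 ^ (49 + 100)⟩) :=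
  rcK _ (2 ^ 149) (2 ^ 149) (by apply Complex.ext <;> (simp only [zero_add]; push_cast; norm_num)) (by decide +kernel)

/-- the rounded value with its error -/
lemma rnd' {f : ℕ → ℕ} {m : ℕ} (hm : m ≤ 49)
    (hf : ∀ x, f x = ((x % (2 ^ 512 + 1)) >>> m) &&& ((2 ^ (256 - m) - 1) * 2 ^ 256 + (2 ^ (256 - m) - 1)))
    {x : ℕ} {u0 : ℂ} (h : Rc x (u0 + ⟨2 ^ (m + 100), 2 ^ (m + 100)⟩)) (hb : ‖u0‖ ≤ 2 ^ (m + 99)) :
    ∃ u θ, Pk (f x) u ∧ ‖θ‖ ≤ 14143 / 10000 ∧ u = u0 / 2 ^ m + θ := by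
  obtain ⟨u, h1, h2⟩ := rnd_sound hm hf h hb
  exact ⟨u, u - u0 / 2 ^ m, h1, h2.norm, by ring⟩

/-- admissible constants of a phase -/
structure PhS (oc on od : ℕ → ℕ → ℕ) (C2 D2 C D C1 D1 OP OE U V : ℕ) (c d : ℝ) (cz dz : ℤ) : Prop where
  ex : ∃ σ τ : ℤ, (σ = 1 ∨ σ = -1) ∧ (τ = 1 ∨ τ = -1) ∧ Op oc σ ∧ Op on (-σ) ∧ Op od τ ∧
    cz = σ * C ∧ dz = τ * D ∧ (V : ℤ) = U + σ * 2 ^ 48
  hC2 : C2 = 2 * C
  hD2 : D2 = 2 * D
  hC1 : C1 = C + 1
  hD1 : D1 = D + 11
  hOP : Rc OP ((cz * 1099511627776 : ℂ) + ⟨2 ^ (48 + 100), 2 ^ (48 + 100)⟩)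
  hOE : Rc OE ((dz * 1099511627776 : ℂ) + ⟨2 ^ (49 + 100), 2 ^ (49 + 100)⟩)
  lOE : 2 ^ 1100 ≤ OE
  hU : U = C2 * 2 ^ 100
  hC : C ≤ 16410594
  hD : D ≤ 104836886
  hc : |c - (cz:ℝ) / 16777216| ≤ 1 / 16777216
  hd : |d - (dz:ℝ) / 16777216| ≤ 11 / 16777216

/-- the norm of `f` -/
lemma nf_sound {σ : ℤ} (hσ : σ = 1 ∨ σ = -1) {C2 U V : ℕ} (hU : U = C2 * 2 ^ 100)
    (hV : (V : ℤ) = U + σ * 2 ^ 48) {zv : ℕ} {v : ℂ} (hv : Pk zv v) :
    ‖281474976710656 - σ * C2 * v‖ ≤ 4294967296 *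
      ((nr2 (Nat.shiftRight (ds (C2 * lo zv) V) 32 + 1) (Nat.shiftRight (ds (C2 * hi zv) U) 32 + 1) : ℕ) : ℝ) := by
  obtain ⟨A, B, hz, hA, hB, rfl⟩ := hv
  rw [Pk.lo hz hA, Pk.hi hz hA]
  set n1 := Nat.shiftRight (ds (C2 * A) V) 32 + 1 with h1
  set n2 := Nat.shiftRight (ds (C2 * B) U) 32 + 1 with h2
  have l1 := shr_low (ds (C2 * A) V) 32 (m := 4294967296) (by norm_num)
  have l2 := shr_low (ds (C2 * B) U) 32 (m := 4294967296) (by norm_num)
  rw [ds_cast] at l1 l2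
  have hVr : (V:ℝ) = U + σ * 2 ^ 48 := by exact_mod_cast hV
  have hUr : (U:ℝ) = C2 * 2 ^ 100 := by exact_mod_cast hU
  have q1 : |(C2:ℝ) * ((A:ℝ) - 2 ^ 100) - σ * 2 ^ 48| ≤ 4294967296 * (n1:ℝ) := by
    have e : (C2:ℝ) * ((A:ℝ) - 2 ^ 100) - σ * 2 ^ 48 = ((C2 * A : ℕ) : ℝ) - V := by
      rw [hVr, hUr]; push_cast; ring
    rw [e]
    have : (n1:ℝ) = ((Nat.shiftRight (ds (C2 * A) V) 32 : ℕ) : ℝ) + 1 := by rw [h1]; push_cast; rfl
    rw [this]
    linarith
  have q2 : |(C2:ℝ) * ((B:ℝ) - 2 ^ 100)| ≤ 4294967296 * (n2:ℝ) := by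
    have e : (C2:ℝ) * ((B:ℝ) - 2 ^ 100) = ((C2 * B : ℕ) : ℝ) - U := by
      rw [hUr]; push_cast; ring
    rw [e]
    have : (n2:ℝ) = ((Nat.shiftRight (ds (C2 * B) U) 32 : ℕ) : ℝ) + 1 := by rw [h2]; push_cast; rfl
    rw [this]
    linarith
  set F : ℂ := 281474976710656 - σ * C2 * ⟨(A:ℝ) - 2 ^ 100, (B:ℝ) - 2 ^ 100⟩ with hF
  have hre : F.re = 281474976710656 - σ * (C2 * ((A:ℝ) - 2 ^ 100)) := by
    rw [hF]; simp; ring
  have him : F.im = -(σ * (C2 * ((B:ℝ) - 2 ^ 100))) := by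
    rw [hF]; simp; ring
  have hs : (σ:ℝ) ^ 2 = 1 := by rcases hσ with h | h <;> rw [h] <;> norm_num
  have r1 : F.re ^ 2 = (C2 * ((A:ℝ) - 2 ^ 100) - σ * 2 ^ 48) ^ 2 := by
    rw [hre]
    linear_combination ((C2 * ((A:ℝ) - 2 ^ 100)) ^ 2 - (2:ℝ) ^ 96) * hs
  have r2 : F.im ^ 2 = (C2 * ((B:ℝ) - 2 ^ 100)) ^ 2 := by
    rw [him]
    linear_combination ((C2 * ((B:ℝ) - 2 ^ 100)) ^ 2) * hs
  have hx : (‖F‖ / 4294967296) ^ 2 ≤ (n1:ℝ) ^ 2 + (n2:ℝ) ^ 2 := by
    have e1 : ‖F‖ ^ 2 = F.re ^ 2 + F.im ^ 2 := by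
      rw [Complex.sq_norm, Complex.normSq_apply]; ring
    rw [div_pow, e1, r1, r2, div_le_iff₀ (by norm_num)]
    have s1 : (C2 * ((A:ℝ) - 2 ^ 100) - σ * 2 ^ 48) ^ 2 ≤ (4294967296 * n1) ^ 2 := by
      rw [← sq_abs]; exact pow_le_pow_left₀ (abs_nonneg _) q1 2
    have s2 : (C2 * ((B:ℝ) - 2 ^ 100)) ^ 2 ≤ (4294967296 * n2) ^ 2 := by
      rw [← sq_abs]; exact pow_le_pow_left₀ (abs_nonneg _) q2 2
    linarith
  have := nr2_sound hx
  rw [div_le_iff₀ (by norm_num)] at this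
  linarith

/-- the norm of `h` from its rounding -/
lemma nq1_sound {z : ℕ} {x u : ℂ} (h : Pk z u) (hf : Fl 25 x u) : ‖x‖ ≤ 33554432 * (nq1 z : ℝ) := by
  obtain ⟨A, B, hz, hA, hB, hu⟩ := h
  obtain ⟨h1, h2⟩ := hf
  unfold nq1
  rw [Pk.lo hz hA, Pk.hi hz hA]
  simp only [Nat.succ_eq_add_one]
  have hO : ∀ {a : ℕ}, ((ds a 1267650600228229401496703205376 : ℕ) : ℝ) = |(a:ℝ) - 2 ^ 100| := by
    intro a; rw [ds_cast]; norm_num
  have hure : u.re = (A:ℝ) - 2 ^ 100 := by rw [hu]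
  have huim : u.im = (B:ℝ) - 2 ^ 100 := by rw [hu]
  have k1 : |x.re| ≤ 33554432 * (((ds A 1267650600228229401496703205376 + 1 : ℕ)) : ℝ) := by
    push_cast
    rw [hO, ← hure]
    have e : x.re = (x.re - 2 ^ 25 * u.re) + 33554432 * u.re := by norm_num
    have := abs_add_le (x.re - 2 ^ 25 * u.re) (33554432 * u.re)
    rw [← e, abs_mul, abs_of_pos (by norm_num : (0:ℝ) < 33554432)] at this
    norm_num at h1 ⊢
    norm_num at this
    linarith
  have k2 : |x.im| ≤ 33554432 * (((ds B 1267650600228229401496703205376 + 1 : ℕ)) : ℝ) := by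
    push_cast
    rw [hO, ← huim]
    have e : x.im = (x.im - 2 ^ 25 * u.im) + 33554432 * u.im := by norm_num
    have := abs_add_le (x.im - 2 ^ 25 * u.im) (33554432 * u.im)
    rw [← e, abs_mul, abs_of_pos (by norm_num : (0:ℝ) < 33554432)] at this
    norm_num at h2 ⊢
    norm_num at this
    linarith
  have hx : (‖x‖ / 33554432) ^ 2 ≤ ((ds A 1267650600228229401496703205376 + 1 : ℕ) : ℝ) ^ 2 +
      ((ds B 1267650600228229401496703205376 + 1 : ℕ) : ℝ) ^ 2 := by
    have e1 : ‖x‖ ^ 2 = x.re ^ 2 + x.im ^ 2 := by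
      rw [Complex.sq_norm, Complex.normSq_apply]; ring
    rw [div_pow, e1, div_le_iff₀ (by norm_num)]
    have s1 := pow_le_pow_left₀ (abs_nonneg _) k1 2
    have s2 := pow_le_pow_left₀ (abs_nonneg _) k2 2
    rw [sq_abs] at s1 s2
    linarith
  have := nrq_sound hx
  rw [div_le_iff₀ (by norm_num)] at this
  linarith

end Pool.Agent.W_4481e3_h6.Ev
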