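import Pool.Agent.W_4481e3_h6.SndT

/-!
Slope chain: soundness of one packed step, second part.
-/

set_option exponentiation.threshold 1200

namespace Pool.Agent.W_4481e3_h6.Ev

open Complex
open Pool.Agent.W_4481e3_h6.Gau
open Pool.Agent.W_MP_4481e3_an.Ev (gd nrm1 gd_true nrm1_sound)
open Pool.Agent.W_4481e3_q12.Ev (ds ds_cast)
open Pool.Agent.W_4481e3_q42.Ev (nrq nrq_sound)

lemma nsz {x : ℂ} {a : ℝ} (σ : ℤ) (hσ : σ = 1 ∨ σ = -1) (hx : ‖x‖ ≤ a) : ‖(σ : ℂ) * x‖ ≤ a := by
  rcases hσ with rfl | rfl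
  · simpa using hx
  · simpa using hx

lemma nnat {x : ℂ} {a : ℝ} (n : ℕ) (hx : ‖x‖ ≤ a) : ‖(n : ℂ) * x‖ ≤ n * a := by
  rw [norm_mul, Complex.norm_natCast]
  exact mul_le_mul_of_nonneg_left hx (Nat.cast_nonneg _)

/-- floor of a product divided by a power of two, from below -/
lemma shr_mul (x y n : ℕ) {m : ℝ} (hm : (2:ℝ) ^ n = m) :
    (x:ℝ) * y / m - 1 ≤ ((Nat.shiftRight (x * y) n : ℕ) : ℝ) := by
  have := shr_low (x * y) n hm
  push_cast at this
  exact this

section
variable {oc on od : ℕ → ℕ → ℕ} {C2 D2 C D C1 D1 OP OE U V : ℕ} {c d : ℝ} {cz dz : ℤ}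

set_option maxHeartbeats 4000000 in
theorem sl3_sound (hp : PhS oc on od C2 D2 C D C1 D1 OP OE U V c d cz dz)
    {t dl ra te ts j : ℕ} {k : ℕ → ℕ → ℕ → ℕ → ℕ → ℕ → ℕ → ℕ → ℕ → ℕ → ℕ → Bool}
    {vN pN qN r yN EN WN R nW ny M sN fN hN nf nh dw da CW DW : ℕ}
    {K η ω π W A G v p q y yE yW : ℂ} {β : ℝ}
    (Rv : Rc vN v) (Rpp : Rc pN p) (Rq : Rc qN q) (Ry : Rc yN y) (RE : Rc EN yE) (RW : Rc WN yW)
    (Rs : Rc sN (16777216 * K - v * v))
    (Rf : Rc fN (281474976710656 - 2 * (cz : ℂ) * v))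
    (Rh : Rc hN (2 * (cz : ℂ) * y + 2 * dz * v))
    (lp : pN ≤ 2 ^ 513) (lq : qN ≤ 2 ^ 513) (ls : sN ≤ 2 ^ 1115) (lh : hN ≤ 2 ^ 554)
    (hK : ‖K‖ ≤ 33554432) (hv : ‖v‖ ≤ 86000000)
    (hη : ‖η‖ ≤ t) (hω : ‖ω‖ ≤ dl) (hπ : ‖π‖ ≤ ra)
    (hte : ((t:ℝ) + dl) * (22 / 1000000) + 33 ≤ te)
    (hts : ((t:ℝ) + dl) * (228 / 10000000) + 11 / 1000000 * ra + 160 ≤ ts)
    (hβ : 1 ≤ β) (hβ2 : β ≤ 4096)
    (S : SS η ω π j W A G v p q r y yE yW R nW ny M)
    (bp : ‖p‖ ≤ 8589934592 * β) (bq : ‖q‖ ≤ 8589934592 * β) (bY : ‖y‖ ≤ 8796093022208 * β)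
    (bE : ‖yE‖ ≤ 1125899906842624 * (β * β)) (bW : ‖yW‖ ≤ 1125899906842624 * (β * β))
    (hnf : ‖281474976710656 - 2 * (cz : ℂ) * v‖ ≤ 4294967296 * (nf : ℝ))
    (hnh : ‖2 * (cz : ℂ) * y + 2 * dz * v‖ ≤ 33554432 * (nh : ℝ))
    (hdw : ‖p / 65536 * η + q / 65536 * ω‖ + r ≤ dw)
    (hda : ‖yE / 65536 * η + yW / 65536 * ω + q / 65536 / 2 ^ j * π‖ + R ≤ da)
    (hCW : ((C:ℝ) + 1) * dw / 16777216 + 11 ≤ CW)
    (hDW : ((D:ℝ) + 11) * dw / 33554432 + 2 * ny + 119 ≤ DW)
    (h : sl3 oc od C D OP OE te ts vN pN qN r yN EN WN R nW ny M sN fN hN nf nh dw da CW DW k = true) :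
    ∃ zv' zp' zq' r' zy' zE' zW' R' nW' ny' M' : ℕ,
      k zv' zp' zq' r' zy' zE' zW' R' nW' ny' M' = true ∧
      StP (16 * β) η ω π (j + 1) (W + c * ((K + η) - W ^ 2 / 16777216))
        (((1 - 2 * c * (W / 16777216)) * A + d * ((K + η) - W ^ 2 / 16777216)) / 2)
        (G * ((1 - 2 * c * (W / 16777216)) / 2)) zv' zp' zq' r' zy' zE' zW' R' nW' ny' M' := by
  obtain ⟨⟨σ, τ, hσ, hτ, oc', on', od', hcz, hdz, hV⟩, hC2, hD2, hC1, hD1, hOP, hOE, lOE, hU, hC, hD, hc, hd⟩ := hp
  have ecz : (cz : ℂ) = σ * C := by rw [hcz]; push_cast; ring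
  have edz : (dz : ℂ) = τ * D := by rw [hdz]; push_cast; ring
  have hCr : (C:ℝ) ≤ 16410594 := by exact_mod_cast hC
  have hDr : (D:ℝ) ≤ 104836886 := by exact_mod_cast hD
  have hC0 : (0:ℝ) ≤ C := Nat.cast_nonneg _
  have hD0 : (0:ℝ) ≤ D := Nat.cast_nonneg _
  have nczC : ‖(cz : ℂ)‖ ≤ C := by
    rw [ecz, norm_mul, Complex.norm_natCast]
    rcases hσ with rfl | rfl <;> simp
  have ndzD : ‖(dz : ℂ)‖ ≤ D := by
    rw [edz, norm_mul, Complex.norm_natCast]
    rcases hτ with rfl | rfl <;> simp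
  have hβ0 : 0 ≤ β := by linarith
  have hbb1 : 1 ≤ β * β := by nlinarith
  have hbb0 : 0 ≤ β * β := by linarith
  have hbb2 : β * β ≤ 16777216 := by nlinarith
  have hββ : β ≤ β * β := by nlinarith
  -- norms of the values
  set F : ℂ := 281474976710656 - 2 * (cz : ℂ) * v with hF
  set H : ℂ := 2 * (cz : ℂ) * y + 2 * dz * v with hH
  set s : ℂ := 16777216 * K - v * v with hs
  have nF : ‖F‖ ≤ 3110000000000000 := by
    have a1 : ‖2 * (cz : ℂ) * v‖ ≤ (2 * 16410594) * 86000000 := by
      refine nm2 ?_ hv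
      rw [norm_mul]; simp only [Complex.norm_ofNat]; linarith
    have a2 := norm_sub_le (281474976710656 : ℂ) (2 * (cz : ℂ) * v)
    rw [← hF] at a2
    simp only [Complex.norm_ofNat] at a2
    linarith
  have nH : ‖H‖ ≤ 590295810358705651712 * β := by
    have a1 : ‖2 * (cz : ℂ) * y‖ ≤ (2 * 16410594) * (8796093022208 * β) := by
      refine nm2 ?_ bY
      rw [norm_mul]; simp only [Complex.norm_ofNat]; linarith
    have a2 : ‖2 * (dz : ℂ) * v‖ ≤ (2 * 104836886) * 86000000 := by
      refine nm2 ?_ hv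
      rw [norm_mul]; simp only [Complex.norm_ofNat]; linarith
    have a3 := norm_add_le (2 * (cz : ℂ) * y) (2 * dz * v)
    rw [← hH] at a3
    linarith
  have ns : ‖s‖ ≤ 7960000000000000 := by
    have a1 : ‖16777216 * K‖ ≤ 16777216 * 33554432 := nm2 (by simp) hK
    have a2 : ‖v * v‖ ≤ 86000000 * 86000000 := nm2 hv hv
    have a3 := norm_sub_le (16777216 * K) (v * v)
    rw [← hs] at a3
    linarith
  have nFp : ‖F * p‖ ≤ 3110000000000000 * (8589934592 * β) := nm2 nF bp
  have nFq : ‖F * q‖ ≤ 3110000000000000 * (8589934592 * β) := nm2 nF bq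
  have nFy : ‖F * y‖ ≤ 3110000000000000 * (8796093022208 * β) := nm2 nF bY
  have nFE : ‖F * yE‖ ≤ 3110000000000000 * (1125899906842624 * (β * β)) := nm2 nF bE
  have nFW : ‖F * yW‖ ≤ 3110000000000000 * (1125899906842624 * (β * β)) := nm2 nF bW
  have nHp : ‖H * p‖ ≤ (590295810358705651712 * 8589934592) * (β * β) := by
    refine (nm2 nH bp).trans (le_of_eq (by ring))
  have nHq : ‖H * q‖ ≤ (590295810358705651712 * 8589934592) * (β * β) := by
    refine (nm2 nH bq).trans (le_of_eq (by ring))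
  have nCs : ‖(cz : ℂ) * s‖ ≤ 16410594 * 7960000000000000 := nm2 (nczC.trans hCr) ns
  have nDs : ‖(dz : ℂ) * s‖ ≤ 104836886 * 7960000000000000 := nm2 (ndzD.trans hDr) ns
  have nC40 : ‖(cz : ℂ) * 1099511627776‖ ≤ 16410594 * 1099511627776 :=
    nm2 (nczC.trans hCr) (by simp)
  have nD40 : ‖(dz : ℂ) * 1099511627776‖ ≤ 104836886 * 1099511627776 :=
    nm2 (ndzD.trans hDr) (by simp)
  unfold sl3 at h
  simp only [Nat.add_eq, Nat.mul_eq, Nat.sub_eq] at h
  -- the six rounded fields
  have lC : C * sN ≤ 281474976710656 * vN + 61172327492847069472032393719205726809135813743440799050195397570919697796091958321786863938157971792315844506873509046544459008355036150650333616890210630248505090593675840694281388897307279292840560060701758501280635677350042223264484028606545834923051668802173612758717380868425663923255694323183516775602731987305961373404095014408957349330944 := by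
    refine (Nat.mul_le_mul hC ls).trans (le_trans ?_ (Nat.le_add_left _ _))
    decide +kernel
  have Qv : Rc (oc (281474976710656 * vN + 61172327492847069472032393719205726809135813743440799050195397570919697796091958321786863938157971792315844506873509046544459008355036150650333616890210630248505090593675840694281388897307279292840560060701758501280635677350042223264484028606545834923051668802173612758717380868425663923255694323183516775602731987305961373404095014408957349330944) (C * sN))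
      ((281474976710656 * v + cz * s) + ⟨2 ^ (48 + 100), 2 ^ (48 + 100)⟩) := by
    refine (((Rv.smul 281474976710656).add c_v).op oc' (Rs.smul C) lC).congr ?_
    rw [ecz]; push_cast; ring
  obtain ⟨v', θ1, Pv', hθ1, ev'⟩ := rnd' (m := 48) (by norm_num) rz48_f Qv (by
    have a1 : ‖281474976710656 * v‖ ≤ 281474976710656 * 86000000 := nm2 (by simp) hv
    refine (norm_add_le _ _).trans ((add_le_add a1 nCs).trans (by norm_num)))
  have Qp : Rc (fN * pN + OP) ((F * p + cz * 1099511627776) + ⟨2 ^ (48 + 100), 2 ^ (48 + 100)⟩) :=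
    ((Rf.mul Rpp).add hOP).congr (by ring)
  obtain ⟨p', θ2, Pp', hθ2, ep'⟩ := rnd' (m := 48) (by norm_num) rz48_f Qp (by
    refine (norm_add_le _ _).trans ((add_le_add nFp nC40).trans ?_)
    norm_num; linarith)
  have RQ3 : Rc (fN * qN + 41315998049390537434494706752048189989275292685267576205290549704650361952269815925997502142452469874466813125348055580672) (F * q + ⟨2 ^ (48 + 100), 2 ^ (48 + 100)⟩) :=
    ((Rf.mul Rq).add c_q).congr (by ring)
  obtain ⟨q', θ3, Pq', hθ3, eq'⟩ := rnd' (m := 48) (by norm_num) rz48_f RQ3 (by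
    refine nFq.trans ?_
    norm_num; linarith)
  have lD : D * sN ≤ fN * yN + 61172327492847069472032393719205726809135813743440799050195397570919697796091958321786863938157971792315844506873509046544459008355036150650333616890210630248505090593675840694281388897307279292840560060701758501280635677350083539262533419143980329629803716992162888051402648444630954472960344685135786591528729489448413843278561827534305404911616 := by
    refine (Nat.mul_le_mul hD ls).trans (le_trans ?_ (Nat.le_add_left _ _))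
    decide +kernel
  have Qy : Rc (od (fN * yN + 61172327492847069472032393719205726809135813743440799050195397570919697796091958321786863938157971792315844506873509046544459008355036150650333616890210630248505090593675840694281388897307279292840560060701758501280635677350083539262533419143980329629803716992162888051402648444630954472960344685135786591528729489448413843278561827534305404911616) (D * sN)) ((F * y + dz * s) + ⟨2 ^ (49 + 100), 2 ^ (49 + 100)⟩) := by
    refine (((Rf.mul Ry).add c_y).op od' (Rs.smul D) lD).congr ?_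
    rw [edz]; push_cast; ring
  obtain ⟨y', θ4, Py', hθ4, ey'⟩ := rnd' (m := 49) (by norm_num) rz49_f Qy (by
    refine (norm_add_le _ _).trans ((add_le_add nFy nDs).trans ?_)
    norm_num; linarith)
  have lHp : hN * pN ≤ fN * EN + OE := by
    refine (Nat.mul_le_mul lh lp).trans (le_trans ?_ (Nat.le_add_left _ _))
    refine le_trans ?_ lOE
    decide +kernel
  have QE : Rc (fN * EN + OE - hN * pN)
      ((F * yE + dz * 1099511627776 - H * p) + ⟨2 ^ (49 + 100), 2 ^ (49 + 100)⟩) :=
    (((Rf.mul RE).add hOE).sub (Rh.mul Rpp) lHp).congr (by ring)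
  obtain ⟨E', θ5, PE', hθ5, eE'⟩ := rnd' (m := 49) (by norm_num) rz49_f QE (by
    refine (norm_sub_le _ _).trans ((add_le_add ((norm_add_le _ _).trans (add_le_add nFE nD40)) nHp).trans ?_)
    norm_num; linarith)
  have lHq : hN * qN ≤ fN * WN + 55635907749862844386400314505595567251599107970324256757699365672051224279213746123593285972818168186054976565058958882713758619825090273161853126012111379394359656174561533311390475225659683285667197251952310126736384079674236789819679064799049144322002385432005298754318926685118898956467609436660542663951364060209675756245736226816 := by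
    refine (Nat.mul_le_mul lh lq).trans (le_trans ?_ (Nat.le_add_left _ _))
    decide +kernel
  have QW : Rc (fN * WN + 55635907749862844386400314505595567251599107970324256757699365672051224279213746123593285972818168186054976565058958882713758619825090273161853126012111379394359656174561533311390475225659683285667197251952310126736384079674236789819679064799049144322002385432005298754318926685118898956467609436660542663951364060209675756245736226816 - hN * qN)
      ((F * yW - H * q) + ⟨2 ^ (49 + 100), 2 ^ (49 + 100)⟩) :=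
    (((Rf.mul RW).add c_w).sub (Rh.mul Rq) lHq).congr (by ring)
  obtain ⟨W', θ6, PW', hθ6, eW'⟩ := rnd' (m := 49) (by norm_num) rz49_f QW (by
    refine (norm_sub_le _ _).trans ((add_le_add nFW nHq).trans ?_)
    norm_num; linarith)
  refine ⟨_, _, _, _, _, _, _, _, _, _, _, h, v', p', q', y', E', W', Pv', Pp', Pq', Py', PE', PW', ?_, ?_, ?_,
    ?_, ?_, ?_⟩
  rotate_left
  · -- size of p'
    rw [ep']
    refine (norm_add_le _ _).trans ?_
    rw [norm_div, norm_pow]
    simp only [Complex.norm_ofNat]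
    have := (norm_add_le (F * p) (cz * 1099511627776)).trans (add_le_add nFp nC40)
    rw [div_add' _ _ _ (by positivity), div_le_iff₀ (by positivity)]
    norm_num
    linarith
  · rw [eq']
    refine (norm_add_le _ _).trans ?_
    rw [norm_div, norm_pow]
    simp only [Complex.norm_ofNat]
    rw [div_add' _ _ _ (by positivity), div_le_iff₀ (by positivity)]
    have e48 : (2:ℝ) ^ 48 = 281474976710656 := by norm_num
    rw [e48]
    linarith
  · rw [ey']
    refine (norm_add_le _ _).trans ?_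
    rw [norm_div, norm_pow]
    simp only [Complex.norm_ofNat]
    have := (norm_add_le (F * y) (dz * s)).trans (add_le_add nFy nDs)
    rw [div_add' _ _ _ (by positivity), div_le_iff₀ (by positivity)]
    norm_num
    linarith
  · rw [eE']
    refine (norm_add_le _ _).trans ?_
    rw [norm_div, norm_pow]
    simp only [Complex.norm_ofNat]
    have a1 := (norm_sub_le (F * yE + dz * 1099511627776) (H * p)).trans
      (add_le_add ((norm_add_le _ _).trans (add_le_add nFE nD40)) nHp)
    rw [div_add' _ _ _ (by positivity), div_le_iff₀ (by positivity)]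
    have e16 : 16 * β * (16 * β) = 256 * (β * β) := by ring
    rw [e16]
    norm_num
    linarith
  · rw [eW']
    refine (norm_add_le _ _).trans ?_
    rw [norm_div, norm_pow]
    simp only [Complex.norm_ofNat]
    have a1 := (norm_sub_le (F * yW) (H * q)).trans (add_le_add nFW nHq)
    rw [div_add' _ _ _ (by positivity), div_le_iff₀ (by positivity)]
    have e16 : 16 * β * (16 * β) = 256 * (β * β) := by ring
    rw [e16]
    norm_num
    linarith
  -- the state
  have f1 : ‖1 - 2 * (((cz:ℝ)) : ℂ) * v / 281474976710656‖ ≤ (nf:ℝ) / 65536 := by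
    have e : 1 - 2 * (((cz:ℝ)) : ℂ) * v / 281474976710656 = F / 281474976710656 := by
      rw [hF]; push_cast; ring
    rw [e, norm_div]
    simp only [Complex.norm_ofNat]
    rw [div_le_iff₀ (by norm_num)]
    linarith
  have h1 : ‖(2 * (((cz:ℝ)) : ℂ) * y + 2 * (((dz:ℝ)) : ℂ) * v) / 281474976710656‖ ≤ 2 * ((nh:ℝ) / 16777216) := by
    have e : (2 * (((cz:ℝ)) : ℂ) * y + 2 * (((dz:ℝ)) : ℂ) * v) = H := by
      rw [hH]; push_cast; ring
    rw [e, norm_div]
    simp only [Complex.norm_ofNat]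
    rw [div_le_iff₀ (by norm_num)]
    linarith
  have aC : |(cz:ℝ)| ≤ C := by
    have := nczC
    rw [← Complex.ofReal_intCast, Complex.norm_real] at this
    exact this
  have aD : |(dz:ℝ)| ≤ D := by
    have := ndzD
    rw [← Complex.ofReal_intCast, Complex.norm_real] at this
    exact this
  obtain ⟨ρ, hρ⟩ : ∃ ρ, W = v + p / 65536 * η + q / 65536 * ω + ρ :=
    ⟨W - (v + p / 65536 * η + q / 65536 * ω), by ring⟩
  obtain ⟨ρa, hρa⟩ : ∃ ρa, A = y + yE / 65536 * η + yW / 65536 * ω + q / 65536 / 2 ^ j * π + ρa :=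
    ⟨A - (y + yE / 65536 * η + yW / 65536 * ω + q / 65536 / 2 ^ j * π), by ring⟩
  have nρ : ‖ρ‖ ≤ r := by
    have := S.fw
    rwa [hρ, show v + p / 65536 * η + q / 65536 * ω + ρ - (v + p / 65536 * η + q / 65536 * ω) = ρ by ring] at this
  have nρa : ‖ρa‖ ≤ R := by
    have := S.fa
    rwa [hρa, show y + yE / 65536 * η + yW / 65536 * ω + q / 65536 / 2 ^ j * π + ρa -
      (y + yE / 65536 * η + yW / 65536 * ω + q / 65536 / 2 ^ j * π) = ρa by ring] at this
  have nΔ : ‖p / 65536 * η + q / 65536 * ω + ρ‖ ≤ dw := (norm_add_le _ _).trans (by linarith)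
  have nm : ‖yE / 65536 * η + yW / 65536 * ω + q / 65536 / 2 ^ j * π + ρa‖ ≤ da :=
    (norm_add_le _ _).trans (by linarith)
  have ev2 : v' = v + (((cz:ℝ)) : ℂ) / 16777216 * (K - v ^ 2 / 16777216) + θ1 := by
    rw [ev', hs]; push_cast; ring
  have ep2 : p' = (1 - 2 * (((cz:ℝ)) : ℂ) * v / 281474976710656) * p + (((cz:ℝ)) : ℂ) / 256 + θ2 := by
    rw [ep', hF]; push_cast; ring
  have eq2 : q' = (1 - 2 * (((cz:ℝ)) : ℂ) * v / 281474976710656) * q + θ3 := by
    rw [eq', hF]; push_cast; ring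
  have ey2 : y' = ((1 - 2 * (((cz:ℝ)) : ℂ) * v / 281474976710656) * y +
      (((dz:ℝ)) : ℂ) / 16777216 * (K - v ^ 2 / 16777216)) / 2 + θ4 := by
    rw [ey', hF, hs]; push_cast; ring
  have eE2 : E' = ((1 - 2 * (((cz:ℝ)) : ℂ) * v / 281474976710656) * yE + (((dz:ℝ)) : ℂ) / 256 -
      (2 * (((cz:ℝ)) : ℂ) * y + 2 * (((dz:ℝ)) : ℂ) * v) / 281474976710656 * p) / 2 + θ5 := by
    rw [eE', hF, hH]; push_cast; ring
  have eW2 : W' = ((1 - 2 * (((cz:ℝ)) : ℂ) * v / 281474976710656) * yW -
      (2 * (((cz:ℝ)) : ℂ) * y + 2 * (((dz:ℝ)) : ℂ) * v) / 281474976710656 * q) / 2 + θ6 := by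
    rw [eW', hF, hH]; push_cast; ring
  have hdw0 : (0:ℝ) ≤ dw := Nat.cast_nonneg _
  have hda0 : (0:ℝ) ≤ da := Nat.cast_nonneg _
  have mCWdw : (((C:ℝ) + 1) * dw / 16777216 + 11) * dw ≤ CW * dw := mul_le_mul_of_nonneg_right hCW hdw0
  have mCWda : (((C:ℝ) + 1) * dw / 16777216 + 11) * da ≤ CW * da := mul_le_mul_of_nonneg_right hCW hda0
  have mDWdw : (((D:ℝ) + 11) * dw / 33554432 + 2 * ny + 119) * dw ≤ DW * dw :=
    mul_le_mul_of_nonneg_right hDW hdw0
  refine ⟨?_, ?_, ?_, ?_, ?_⟩
  · -- the point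
    rw [ev2, ep2, eq2, hρ]
    refine (stepW (C := C) (t := t) (dl := dl) (nf := (nf:ℝ) / 65536) (dw := dw) (r := r) hc aC hη hω hK hv f1 nρ
      nΔ hθ1 hθ2 hθ3).trans ?_
    have s1 := shr_mul nf r 16 (m := 65536) (by norm_num)
    have s2 := shr_mul CW dw 24 (m := 16777216) (by norm_num)
    push_cast
    have e1 : ((C:ℝ) + 1) * dw * dw / 281474976710656 + 11 * dw / 16777216 =
        (((C:ℝ) + 1) * dw / 16777216 + 11) * dw / 16777216 := by ring
    have e2 : (nf:ℝ) / 65536 * r = nf * r / 65536 := by ring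
    rw [e2, add_assoc ((nf:ℝ) * r / 65536), e1]
    have e3 : (((C:ℝ) + 1) * dw / 16777216 + 11) * dw / 16777216 ≤ CW * dw / 16777216 := by
      gcongr
    linarith
  · -- the slope
    rw [ey2, eE2, eW2, eq2, hρ, hρa]
    refine (stepA (C := C) (D := D) (t := t) (dl := dl) (ra := ra) (nf := (nf:ℝ) / 65536)
      (nh := (nh:ℝ) / 16777216) (dw := dw) (da := da) (r := r) (R := R) (ny := ny) hc aC hd aD hη hω hπ hK hv f1
      h1 nρ nΔ nρa nm S.hy hθ3 hθ4 hθ5 hθ6).trans ?_
    have s1 := shr_mul nf R 17 (m := 131072) (by norm_num)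
    have s2 := shr_low (nh * r + CW * da + DW * dw) 24 (m := 16777216) (by norm_num)
    push_cast at s2 ⊢
    have e1 : ((C:ℝ) + 1) * dw * da / 281474976710656 + 11 * da / 16777216 =
        (((C:ℝ) + 1) * dw / 16777216 + 11) * da / 16777216 := by ring
    have e4 : ((D:ℝ) + 11) * dw * dw / 562949953421312 + (2 * ny + 119) * dw / 16777216 =
        (((D:ℝ) + 11) * dw / 33554432 + 2 * ny + 119) * dw / 16777216 := by ring
    have e2 : (nf:ℝ) / 65536 * R / 2 = nf * R / 131072 := by ring
    have e5 : (nh:ℝ) / 16777216 * r = nh * r / 16777216 := by ring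
    have e3 : (((C:ℝ) + 1) * dw / 16777216 + 11) * da / 16777216 ≤ CW * da / 16777216 := by
      gcongr
    have e6 : (((D:ℝ) + 11) * dw / 33554432 + 2 * ny + 119) * dw / 16777216 ≤ DW * dw / 16777216 := by
      gcongr
    have hny0 : (0:ℝ) ≤ ny := Nat.cast_nonneg _
    linarith
  · -- |q'|
    have s1 := shr_mul nf nW 16 (m := 65536) (by norm_num)
    rw [eq']
    refine (norm_add_le _ _).trans ?_
    rw [norm_div, norm_pow]
    simp only [Complex.norm_ofNat]
    have a1 : ‖F * q‖ ≤ (4294967296 * nf) * nW := nm2 hnf S.hq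
    have a2 : ‖F * q‖ / 2 ^ 48 ≤ (4294967296 * nf) * nW / 2 ^ 48 := by gcongr
    have a3 : (4294967296 * (nf:ℝ)) * nW / 2 ^ 48 = nf * nW / 65536 := by norm_num; ring
    rw [a3] at a2
    push_cast
    linarith
  · -- |y'|
    have s1 := shr_mul nf ny 17 (m := 131072) (by norm_num)
    rw [ey']
    refine (norm_add_le _ _).trans ?_
    rw [norm_div, norm_pow]
    simp only [Complex.norm_ofNat]
    have a1 : ‖F * y‖ ≤ (4294967296 * nf) * (16777216 * ny) := nm2 hnf S.hy
    have a2 := (norm_add_le (F * y) (dz * s)).trans (add_le_add a1 nDs)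
    have a4 : ‖F * y + dz * s‖ / 2 ^ 49 ≤
      ((4294967296 * nf) * (16777216 * ny) + 104836886 * 7960000000000000) / 2 ^ 49 := by gcongr
    have a3 : ((4294967296 * (nf:ℝ)) * (16777216 * ny) + 104836886 * 7960000000000000) / 2 ^ 49 ≤
        16777216 * (nf * ny / 131072) + 1482500000 := by norm_num; linarith
    push_cast
    linarith
  · -- product of derivatives
    have s1 := shr_mul M (nf + Nat.shiftRight CW 7 + 2) 17 (m := 131072) (by norm_num)
    have s2 := shr_low CW 7 (m := 128) (by norm_num)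
    have key : ‖1 - 2 * (c:ℂ) * (W / 16777216)‖ ≤ (nf:ℝ) / 65536 + 1 / 16777216 * (2 * (86000000 / 16777216)) +
        ((C:ℝ) + 1) / 16777216 * (2 * (dw / 16777216)) := by
      have e : 1 - 2 * (c:ℂ) * (W / 16777216) = (1 - 2 * (((cz:ℝ)) : ℂ) * v / 281474976710656) +
          (-(((c - (cz:ℝ) / 16777216 : ℝ) : ℂ) * (2 * (v / 16777216))) +
          -((c:ℂ) * (2 * ((p / 65536 * η + q / 65536 * ω + ρ) / 16777216)))) := by
        rw [hρ]; push_cast; ring
      rw [e]
      refine (norm_add_le _ _).trans ?_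
      rw [add_assoc ((nf:ℝ) / 65536)]
      refine add_le_add f1 ((norm_add_le _ _).trans ?_)
      rw [norm_neg, norm_neg]
      refine add_le_add (nm2 (nr1 hc) (nm2 (by simp) ?_)) (nm2 ?_ (nm2 (by simp) ?_))
      · rw [norm_div]; simp only [Complex.norm_ofNat]; gcongr
      · rw [Complex.norm_real, Real.norm_eq_abs]
        have e1 : c = (cz:ℝ) / 16777216 + (c - (cz:ℝ) / 16777216) := by ring
        have e3 := abs_add_le ((cz:ℝ) / 16777216) (c - (cz:ℝ) / 16777216)
        rw [← e1, abs_div, abs_of_pos (by norm_num : (0:ℝ) < 16777216)] at e3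
        have : ((C:ℝ) + 1) / 16777216 = C / 16777216 + 1 / 16777216 := by ring
        have e4 : |(cz:ℝ)| / 16777216 ≤ C / 16777216 := by gcongr
        linarith
      · rw [norm_div]; simp only [Complex.norm_ofNat]; gcongr
    have key2 : ‖1 - 2 * (c:ℂ) * (W / 16777216)‖ ≤ ((nf:ℝ) + ((Nat.shiftRight CW 7 : ℕ) : ℝ) + 2) / 65536 := by
      refine key.trans ?_
      linarith
    have hM0 : (0:ℝ) ≤ M := Nat.cast_nonneg _
    have a1 : ‖G * ((1 - 2 * (c:ℂ) * (W / 16777216)) / 2)‖ * 65536 ≤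
        M * (((nf:ℝ) + ((Nat.shiftRight CW 7 : ℕ) : ℝ) + 2) / 65536 / 2) := by
      rw [norm_mul, norm_div]
      simp only [Complex.norm_ofNat]
      have a2 := mul_le_mul S.hM (div_le_div_of_nonneg_right key2 (by norm_num : (0:ℝ) ≤ 2))
        (by positivity) hM0
      linarith
    push_cast at s1 ⊢
    have a4 : (M:ℝ) * (((nf:ℝ) + ((Nat.shiftRight CW 7 : ℕ) : ℝ) + 2) / 65536 / 2) =
        M * ((nf:ℝ) + ((Nat.shiftRight CW 7 : ℕ) : ℝ) + 2) / 131072 := by ring
    rw [a4] at a1
    linarith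

end

end Pool.Agent.W_4481e3_h6.Ev
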