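import Pool.Agent.W_4481e3_h6.SndU

/-!
Slope chain: soundness of one packed step, third part.
-/

set_option exponentiation.threshold 1200

namespace Pool.Agent.W_4481e3_h6.Ev

open Complex
open Pool.Agent.W_4481e3_h6.Gau
open Pool.Agent.W_MP_4481e3_an.Ev (gd nrm1 gd_true nrm1_sound)
open Pool.Agent.W_4481e3_q12.Ev (ds ds_cast)
open Pool.Agent.W_4481e3_q42.Ev (nrq nrq_sound)

section
variable {oc on od : ℕ → ℕ → ℕ} {C2 D2 C D C1 D1 OP OE U V : ℕ} {c d : ℝ} {cz dz : ℤ}

set_option maxHeartbeats 4000000 in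
theorem sl_sound (hp : PhS oc on od C2 D2 C D C1 D1 OP OE U V c d cz dz)
    {eK t dl ra te ts j : ℕ} {k : ℕ → ℕ → ℕ → ℕ → ℕ → ℕ → ℕ → ℕ → ℕ → ℕ → ℕ → Bool}
    {zv zp zq r zy zE zW R nW ny M : ℕ}
    {K η ω π W A G : ℂ} {β : ℝ}
    (Re : Rc eK (16777216 * K)) (le1 : 2 ^ 1100 ≤ eK) (le2 : eK ≤ 2 ^ 1115)
    (hK : ‖K‖ ≤ 33554432)
    (hη : ‖η‖ ≤ t) (hω : ‖ω‖ ≤ dl) (hπ : ‖π‖ ≤ ra)
    (hte : ((t:ℝ) + dl) * (22 / 1000000) + 33 ≤ te)
    (hts : ((t:ℝ) + dl) * (228 / 10000000) + 11 / 1000000 * ra + 160 ≤ ts)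
    (hβ : 1 ≤ β) (hβ2 : β ≤ 4096)
    (hS : StP β η ω π j W A G zv zp zq r zy zE zW R nW ny M)
    (h : sl oc on od C2 D2 C D C1 D1 OP OE U V eK t dl ra te ts j k zv zp zq r zy zE zW R nW ny M = true) :
    ∃ zv' zp' zq' r' zy' zE' zW' R' nW' ny' M' : ℕ,
      k zv' zp' zq' r' zy' zE' zW' R' nW' ny' M' = true ∧
      StP (16 * β) η ω π (j + 1) (W + c * ((K + η) - W ^ 2 / 16777216))
        (((1 - 2 * c * (W / 16777216)) * A + d * ((K + η) - W ^ 2 / 16777216)) / 2)
        (G * ((1 - 2 * c * (W / 16777216)) / 2)) zv' zp' zq' r' zy' zE' zW' R' nW' ny' M' := by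
  obtain ⟨v, p, q, y, yE, yW, Pv, Pp, Pq, Py, PE, PW, S, bp, bq, bY, bE, bW⟩ := hS
  have hp' := hp
  obtain ⟨⟨σ, τ, hσ, hτ, oc', on', od', hcz, hdz, hV⟩, hC2, hD2, hC1, hD1, hOP, hOE, lOE, hU, hC, hD, hc, hd⟩ := hp
  have ecz : (cz : ℂ) = σ * C := by rw [hcz]; push_cast; ring
  have edz : (dz : ℂ) = τ * D := by rw [hdz]; push_cast; ring
  unfold sl sl1 sl2 at h
  simp only [Nat.add_eq, Nat.mul_eq, Nat.sub_eq, Nat.succ_eq_add_one] at h
  rw [gd_true] at h
  obtain ⟨hg, h⟩ := h
  have hg2 := Nat.le_of_ble_eq_true hg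
  clear hg
  have hvn : ‖v‖ ^ 2 ≤ 7396000000000000 := by
    rw [← mm_norm Pv.fx Pv.cj.1 (Pv.norm_le.trans (by norm_num))]
    exact_mod_cast hg2
  have hv : ‖v‖ ≤ 86000000 := le_of_sq_le_sq (hvn.trans (by norm_num)) (by norm_num)
  have hCr : (C:ℝ) ≤ 16410594 := by exact_mod_cast hC
  have hDr : (D:ℝ) ≤ 104836886 := by exact_mod_cast hD
  have hC0 : (0:ℝ) ≤ C := Nat.cast_nonneg _
  have hD0 : (0:ℝ) ≤ D := Nat.cast_nonneg _
  have lv := Pv.fx_le
  have ly := Py.fx_le
  have Rs : Rc (eK - fx zv * fx zv) (16777216 * K - v * v) := Re.sub (Pv.fx.mul Pv.fx)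
    ((Nat.mul_le_mul lv lv).trans (le_trans (by decide +kernel) le1))
  have ls : eK - fx zv * fx zv ≤ 2 ^ 1115 := (Nat.sub_le _ _).trans le2
  have lCv : C2 * fx zv ≤ 33554432 * 2 ^ 513 := Nat.mul_le_mul (by omega) lv
  have lCy : C2 * fx zy ≤ 33554432 * 2 ^ 513 := Nat.mul_le_mul (by omega) ly
  have lDv : D2 * fx zv ≤ 268435456 * 2 ^ 513 := Nat.mul_le_mul (by omega) lv
  have Rf : Rc (on 14742040721959145907193572581985425355144223517251720423344555860334469384344331453461432520225229560708860839963921269139728846210643721220943102544659251494993788928 (C2 * fx zv)) (281474976710656 - 2 * (cz : ℂ) * v) := by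
    refine (c_l48.op on' (Pv.fx.smul C2) (lCv.trans (by decide +kernel))).congr ?_
    rw [ecz, hC2]; push_cast; ring
  have g1 := oc'.ge 14742040721959145907193572581985425355144223517251720423344555860334469384344331453461432520225229560708860839963921269139728846210643721220943102544658970020017078272 (C2 * fx zy)
  have g2 := oc'.le 14742040721959145907193572581985425355144223517251720423344555860334469384344331453461432520225229560708860839963921269139728846210643721220943102544658970020017078272 (C2 * fx zy)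
  have lKL : 33554432 * 2 ^ 513 + 268435456 * 2 ^ 513 ≤ 14742040721959145907193572581985425355144223517251720423344555860334469384344331453461432520225229560708860839963921269139728846210643721220943102544658970020017078272 := by decide +kernel
  have lKL2 : 14742040721959145907193572581985425355144223517251720423344555860334469384344331453461432520225229560708860839963921269139728846210643721220943102544658970020017078272 + 33554432 * 2 ^ 513 + 268435456 * 2 ^ 513 ≤ 2 ^ 554 := by decide +kernel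
  have Rh : Rc (od (oc 14742040721959145907193572581985425355144223517251720423344555860334469384344331453461432520225229560708860839963921269139728846210643721220943102544658970020017078272 (C2 * fx zy)) (D2 * fx zv)) (2 * (cz : ℂ) * y + 2 * dz * v) := by
    refine ((c_kl.op oc' (Py.fx.smul C2) (by omega)).op od' (Pv.fx.smul D2) (by omega)).congr ?_
    rw [ecz, hC2, edz, hD2]; push_cast; ring
  have g3 := od'.le (oc 14742040721959145907193572581985425355144223517251720423344555860334469384344331453461432520225229560708860839963921269139728846210643721220943102544658970020017078272 (C2 * fx zy)) (D2 * fx zv)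
  have lh : od (oc 14742040721959145907193572581985425355144223517251720423344555860334469384344331453461432520225229560708860839963921269139728846210643721220943102544658970020017078272 (C2 * fx zy)) (D2 * fx zv) ≤ 2 ^ 554 := by omega
  have f1 := oc'.ge 14742040721959145907193572581985425355144223517251725348595330409644370919224343971413158155192638368889694333500596799854950283404505443869342271092035896777486893056 (C2 * fx zy)
  have lL25 : 33554432 * 2 ^ 513 + 268435456 * 2 ^ 513 ≤ 14742040721959145907193572581985425355144223517251725348595330409644370919224343971413158155192638368889694333500596799854950283404505443869342271092035896777486893056 := by decide +kernel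
  have Rh25 : Rc (od (oc 14742040721959145907193572581985425355144223517251725348595330409644370919224343971413158155192638368889694333500596799854950283404505443869342271092035896777486893056 (C2 * fx zy)) (D2 * fx zv))
      ((2 * (cz : ℂ) * y + 2 * dz * v) + ⟨2 ^ (25 + 100), 2 ^ (25 + 100)⟩) := by
    refine ((c_l25.op oc' (Py.fx.smul C2) (by omega)).op od' (Pv.fx.smul D2) (by omega)).congr ?_
    rw [ecz, hC2, edz, hD2]; push_cast; ring
  have nczC : ‖(cz : ℂ)‖ ≤ C := by
    rw [ecz, norm_mul, Complex.norm_natCast]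
    rcases hσ with rfl | rfl <;> simp
  have ndzD : ‖(dz : ℂ)‖ ≤ D := by
    rw [edz, norm_mul, Complex.norm_natCast]
    rcases hτ with rfl | rfl <;> simp
  have nH : ‖2 * (cz : ℂ) * y + 2 * dz * v‖ ≤ 2 ^ (25 + 99) := by
    have a1 : ‖2 * (cz : ℂ) * y‖ ≤ (2 * 16410594) * (8796093022208 * β) := by
      refine nm2 ?_ bY
      rw [norm_mul]; simp only [Complex.norm_ofNat]; linarith
    have a2 : ‖2 * (dz : ℂ) * v‖ ≤ (2 * 104836886) * 86000000 := by
      refine nm2 ?_ hv
      rw [norm_mul]; simp only [Complex.norm_ofNat]; linarith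
    refine (norm_add_le _ _).trans ((add_le_add a1 a2).trans ?_)
    have : (2:ℝ) ^ (25 + 99) = 21267647932558653966460912964485513216 := by norm_num
    rw [this]
    linarith
  obtain ⟨uh, Puh, Fuh⟩ := rnd_sound (by norm_num) rz25_f Rh25 nH
  have hnh := nq1_sound Puh Fuh
  have hnf := nf_sound hσ hU hV Pv
  have enf : (281474976710656 - σ * C2 * v : ℂ) = 281474976710656 - 2 * (cz : ℂ) * v := by
    rw [ecz, hC2]; push_cast; ring
  rw [enf] at hnf
  have nE := np2_sound Pp
  have nyE := np1_sound PE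
  have nyW := np1_sound PW
  have l1 := lin2 hη hω nE S.hq
  have l2 := lin2 hη hω nyE nyW
  refine sl3_sound hp' Pv.fx Pp.fx Pq.fx Py.fx PE.fx PW.fx Rs Rf Rh Pp.fx_le Pq.fx_le ls lh hK hv hη hω hπ
    hte hts hβ hβ2 S bp bq bY bE bW hnf hnh ?_ ?_ ?_ ?_ h
  · have s1 := shr_low (np2 zp * t + nW * dl) 16 (m := 65536) (by norm_num)
    push_cast at s1 ⊢
    linarith
  · have s1 := shr_low (np1 zE * t + np1 zW * dl + Nat.shiftRight (nW * ra) j) 16 (m := 65536) (by norm_num)
    have s2 := shr_low (nW * ra) j (m := 2 ^ j) rfl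
    have hj : (0:ℝ) < 2 ^ j := by positivity
    have l3 : ‖q / 65536 / 2 ^ j * π‖ ≤ (nW * ra : ℝ) / 2 ^ j / 65536 := by
      rw [norm_mul, norm_div, norm_div, norm_pow]
      simp only [Complex.norm_ofNat]
      have : ‖q‖ * ‖π‖ ≤ nW * ra := mul_le_mul S.hq hπ (norm_nonneg _) (Nat.cast_nonneg _)
      have e : ‖q‖ / 65536 / 2 ^ j * ‖π‖ = ‖q‖ * ‖π‖ / 2 ^ j / 65536 := by ring
      rw [e]
      gcongr
    have l4 := norm_add_le (yE / 65536 * η + yW / 65536 * ω) (q / 65536 / 2 ^ j * π)
    push_cast at s1 s2 ⊢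
    linarith
  · have s1 := shr_mul C1 (Nat.shiftRight (np2 zp * t + nW * dl) 16 + 1 + r) 24 (m := 16777216) (by norm_num)
    rw [hC1] at s1 ⊢
    push_cast at s1 ⊢
    linarith
  · have s1 := shr_mul D1 (Nat.shiftRight (np2 zp * t + nW * dl) 16 + 1 + r) 25 (m := 33554432) (by norm_num)
    rw [hD1] at s1 ⊢
    push_cast at s1 ⊢
    linarith

end

end Pool.Agent.W_4481e3_h6.Ev
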