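import Pool.Agent.W_4481e3_h6.SndV
import Pool.Agent.W_4481e3_h6.Dd
import Pool.Agent.W_4481e3_q25.CellR

/-!
Slope chain: the four steps.
-/

set_option exponentiation.threshold 1200

namespace Pool.Agent.W_4481e3_h6.Ev

open Complex
open Pool.Agent.W_4481e3_h6.Gau
open Pool.Agent.W_4481e3_q42 (ww aa cc dd)
open Pool.Agent.W_MP_4481e3_an.Ev (gd nrm1 gd_true nrm1_sound pt)
open Pool.Agent.W_4481e3_q12.Ev (ds ds_cast)
open Pool.Agent.W_4481e3_q42.Ev (nrq nrq_sound cf k0)

lemma c_of {x : ℝ} {n : ℤ} {b : ℝ} (h : |x * 16777216 - n| ≤ b) : |x - (n:ℝ) / 16777216| ≤ b / 16777216 := by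
  have e : x - (n:ℝ) / 16777216 = (x * 16777216 - n) / 16777216 := by ring
  rw [e, abs_div, abs_of_pos (by norm_num : (0:ℝ) < 16777216)]
  gcongr

lemma phs0 : PhS Nat.add Nat.sub Nat.sub 30653498 85751764 15326749 42875882 15326750 42875893
    55635907749862844386400314505595567251599107970324256757699365672051224279213746123593285972818168186054976565058958882713758619825090273161853126012111379394359656174561533311390475225659683285667197251952310126695068081624846252385184358047000954332727092746737722549028376980468537004197793510663040521498894185759714569639184826368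
    55635907749862844386400314505595567251599107970324256757699365672051224279213746123593285972818168186054976565058958882713758619825090273161853126012111379394359656174561533311390475225659683285667197251952310126736384079674236789819679064799049144322002385432005298754318926685118898956467609436660542663951364060162533225435584528384
    38857925138794829502320388712586805248
    38857925138794829502320670187563515904
    (cc 0) (dd 0) (15326749) (-42875882) where
  ex := ⟨1, -1, by norm_num, by norm_num, op_add, op_sub, op_sub, by norm_num, by norm_num, by norm_num⟩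
  hC2 := by norm_num
  hD2 := by norm_num
  hC1 := by norm_num
  hD1 := by norm_num
  hOP := rcK _ (15326749 * 1099511627776 + 2 ^ 148) (2 ^ 148) (by apply Complex.ext <;> (simp; norm_num)) (by decide +kernel)
  hOE := rcK _ (-42875882 * 1099511627776 + 2 ^ 149) (2 ^ 149) (by apply Complex.ext <;> (simp; norm_num)) (by decide +kernel)
  lOE := by decide +kernel
  hU := by norm_num
  hC := by norm_num
  hD := by norm_num
  hc := c_of (by simpa [cci] using cc_approx (p := 0) (by norm_num))
  hd := c_of (by simpa [ddi] using dd_approx (p := 0) (by norm_num))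

lemma phs1 : PhS Nat.add Nat.sub Nat.sub 22452298 156676268 11226149 78338134 11226150 78338145
    55635907749862844386400314505595567251599107970324256757699365672051224279213746123593285972818168186054976565058958882713758619825090273161853126012111379394359656174561533311390475225659683285667197251952310126695068081624846252385184358047000954332727092746737722549028376980468537004197793510663040521498894185755205912258326560768
    55635907749862844386400314505595567251599107970324256757699365672051224279213746123593285972818168186054976565058958882713758619825090273161853126012111379394359656174561533311390475225659683285667197251952310126736384079674236789819679064799049144322002385432005298754318926685118898956467609436660542663951364060123542067014461816832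
    28461669036203074534765626384657154048
    28461669036203074534765907859633864704
    (cc 1) (dd 1) (11226149) (-78338134) where
  ex := ⟨1, -1, by norm_num, by norm_num, op_add, op_sub, op_sub, by norm_num, by norm_num, by norm_num⟩
  hC2 := by norm_num
  hD2 := by norm_num
  hC1 := by norm_num
  hD1 := by norm_num
  hOP := rcK _ (11226149 * 1099511627776 + 2 ^ 148) (2 ^ 148) (by apply Complex.ext <;> (simp; norm_num)) (by decide +kernel)
  hOE := rcK _ (-78338134 * 1099511627776 + 2 ^ 149) (2 ^ 149) (by apply Complex.ext <;> (simp; norm_num)) (by decide +kernel)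
  lOE := by decide +kernel
  hU := by norm_num
  hC := by norm_num
  hD := by norm_num
  hc := c_of (by simpa [cci] using cc_approx (p := 1) (by norm_num))
  hd := c_of (by simpa [ddi] using dd_approx (p := 1) (by norm_num))

lemma phs2 : PhS Nat.sub Nat.add Nat.sub 3507394 209673772 1753697 104836886 1753698 104836897
    55635907749862844386400314505595567251599107970324256757699365672051224279213746123593285972818168186054976565058958882713758619825090273161853126012111379394359656174561533311390475225659683285667197251952310126695068081624846252385184358047000954332727092746737722549028376980468537004197793510663040521498894185740934420654584758272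
    55635907749862844386400314505595567251599107970324256757699365672051224279213746123593285972818168186054976565058958882713758619825090273161853126012111379394359656174561533311390475225659683285667197251952310126736384079674236789819679064799049144322002385432005298754318926685118898956467609436660542663951364060094406381068909281280
    4446150109336890433433127842316550144
    4446150109336890433432846367339839488
    (cc 2) (dd 2) (-1753697) (-104836886) where
  ex := ⟨-1, -1, by norm_num, by norm_num, op_sub, op_add, op_sub, by norm_num, by norm_num, by norm_num⟩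
  hC2 := by norm_num
  hD2 := by norm_num
  hC1 := by norm_num
  hD1 := by norm_num
  hOP := rcK _ (-1753697 * 1099511627776 + 2 ^ 148) (2 ^ 148) (by apply Complex.ext <;> (simp; norm_num)) (by decide +kernel)
  hOE := rcK _ (-104836886 * 1099511627776 + 2 ^ 149) (2 ^ 149) (by apply Complex.ext <;> (simp; norm_num)) (by decide +kernel)
  lOE := by decide +kernel
  hU := by norm_num
  hC := by norm_num
  hD := by norm_num
  hc := c_of (by simpa [cci] using cc_approx (p := 2) (by norm_num))
  hd := c_of (by simpa [ddi] using dd_approx (p := 2) (by norm_num))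

lemma phs3 : PhS Nat.sub Nat.add Nat.add 32821188 43833754 16410594 21916877 16410595 21916888
    55635907749862844386400314505595567251599107970324256757699365672051224279213746123593285972818168186054976565058958882713758619825090273161853126012111379394359656174561533311390475225659683285667197251952310126695068081624846252385184358047000954332727092746737722549028376980468537004197793510663040521498894185724818991975969587200
    55635907749862844386400314505595567251599107970324256757699365672051224279213746123593285972818168186054976565058958882713758619825090273161853126012111379394359656174561533311390475225659683285667197251952310126736384079674236789819679064799049144322002385432005298754318926685118898956467609436660542663951364060233773617351772602368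
    41605798668403560093650777283848306688
    41605798668403560093650495808871596032
    (cc 3) (dd 3) (-16410594) (21916877) where
  ex := ⟨-1, 1, by norm_num, by norm_num, op_sub, op_add, op_add, by norm_num, by norm_num, by norm_num⟩
  hC2 := by norm_num
  hD2 := by norm_num
  hC1 := by norm_num
  hD1 := by norm_num
  hOP := rcK _ (-16410594 * 1099511627776 + 2 ^ 148) (2 ^ 148) (by apply Complex.ext <;> (simp; norm_num)) (by decide +kernel)
  hOE := rcK _ (21916877 * 1099511627776 + 2 ^ 149) (2 ^ 149) (by apply Complex.ext <;> (simp; norm_num)) (by decide +kernel)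
  lOE := by decide +kernel
  hU := by norm_num
  hC := by norm_num
  hD := by norm_num
  hc := c_of (by simpa [cci] using cc_approx (p := 3) (by norm_num))
  hd := c_of (by simpa [ddi] using dd_approx (p := 3) (by norm_num))

/-- product of the half derivatives -/
noncomputable def gg (e : ℂ) (p : ℕ) (w : ℂ) : ℕ → ℂ
  | 0 => 1
  | j + 1 => gg e p w j * ((1 - 2 * cc (p + j) * ww e p w j) / 2)

/-- the slope is affine in the initial slope -/
theorem aa_lin (e : ℂ) (p : ℕ) (w a : ℂ) (j : ℕ) : aa e p w a j = aa e p w 0 j + gg e p w j * a := by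
  induction j with
  | zero => simp [aa, gg]
  | succ j ih => rw [aa, aa, gg, ih]; ring

lemma cc4 : cc 4 = cc 0 := by
  unfold cc
  rw [show 2 * Real.pi * (2 ^ 4 / 15) = 2 * Real.pi * (2 ^ 0 / 15) + 2 * Real.pi by ring, Real.cos_add_two_pi]

lemma dd4 : dd 4 = dd 0 := by
  unfold dd
  rw [show 2 * Real.pi * (2 ^ 4 / 15) = 2 * Real.pi * (2 ^ 0 / 15) + 2 * Real.pi by ring, Real.sin_add_two_pi]

/-- the scaled state of the orbit -/
def StO (β : ℝ) (η ω π : ℂ) (j : ℕ) (e w a : ℂ) (zv zp zq r zy zE zW R nW ny M : ℕ) : Prop :=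
  StP β η ω π j (16777216 * ww e 1 w j) (16777216 * aa e 1 w a j) (gg e 1 w j) zv zp zq r zy zE zW R nW ny M

/-- one step of the orbit -/
lemma StO.conv {β : ℝ} {η ω π K : ℂ} {j : ℕ} {e w a : ℂ} {c d : ℝ} {zv zp zq r zy zE zW R nW ny M : ℕ}
    (he : 16777216 * e = K + η) (hc : cc (1 + j) = c) (hd : dd (1 + j) = d)
    (h : StP β η ω π (j + 1) (16777216 * ww e 1 w j + c * ((K + η) - (16777216 * ww e 1 w j) ^ 2 / 16777216))
        (((1 - 2 * c * ((16777216 * ww e 1 w j) / 16777216)) * (16777216 * aa e 1 w a j) +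
          d * ((K + η) - (16777216 * ww e 1 w j) ^ 2 / 16777216)) / 2)
        (gg e 1 w j * ((1 - 2 * c * ((16777216 * ww e 1 w j) / 16777216)) / 2)) zv zp zq r zy zE zW R nW ny M) :
    StO β η ω π (j + 1) e w a zv zp zq r zy zE zW R nW ny M := by
  unfold StO
  rw [ww, aa, gg, hc, hd]
  have e1 : 16777216 * (ww e 1 w j + c * (e - ww e 1 w j ^ 2)) =
      16777216 * ww e 1 w j + c * ((K + η) - (16777216 * ww e 1 w j) ^ 2 / 16777216) := by
    rw [← he]; ring
  have e2 : 16777216 * (((1 - 2 * c * ww e 1 w j) * aa e 1 w a j + d * (e - ww e 1 w j ^ 2)) / 2) =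
      ((1 - 2 * c * ((16777216 * ww e 1 w j) / 16777216)) * (16777216 * aa e 1 w a j) +
          d * ((K + η) - (16777216 * ww e 1 w j) ^ 2 / 16777216)) / 2 := by
    rw [← he]; ring
  have e3 : gg e 1 w j * ((1 - 2 * c * ww e 1 w j) / 2) =
      gg e 1 w j * ((1 - 2 * c * ((16777216 * ww e 1 w j) / 16777216)) / 2) := by ring
  rw [e1, e2, e3]
  exact h

/-- what is fixed along the chain -/
structure Fx (eK t dl ra te ts : ℕ) (K η ω π e : ℂ) : Prop where
  Re : Rc eK (16777216 * K)
  le1 : 2 ^ 1100 ≤ eK
  le2 : eK ≤ 2 ^ 1115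
  he : 16777216 * e = K + η
  hK : ‖K‖ ≤ 33554432
  hη : ‖η‖ ≤ t
  hω : ‖ω‖ ≤ dl
  hπ : ‖π‖ ≤ ra
  hte : ((t:ℝ) + dl) * (22 / 1000000) + 33 ≤ te
  hts : ((t:ℝ) + dl) * (228 / 10000000) + 11 / 1000000 * ra + 160 ≤ ts

theorem StO.step {oc on od : ℕ → ℕ → ℕ} {C2 D2 C D C1 D1 OP OE U V : ℕ} {c d : ℝ} {cz dz : ℤ}
    (hp : PhS oc on od C2 D2 C D C1 D1 OP OE U V c d cz dz)
    {eK t dl ra te ts i j : ℕ} {k : ℕ → ℕ → ℕ → ℕ → ℕ → ℕ → ℕ → ℕ → ℕ → ℕ → ℕ → Bool}
    {zv zp zq r zy zE zW R nW ny M : ℕ} {K η ω π e w a : ℂ} {β β' : ℝ}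
    (hF : Fx eK t dl ra te ts K η ω π e) (hc : cc i = c) (hd : dd i = d) (hi : 1 + j = i)
    (hβ : 1 ≤ β) (hβ2 : β ≤ 4096) (hβ' : 16 * β = β')
    (hS : StO β η ω π j e w a zv zp zq r zy zE zW R nW ny M)
    (h : sl oc on od C2 D2 C D C1 D1 OP OE U V eK t dl ra te ts j k zv zp zq r zy zE zW R nW ny M = true) :
    ∃ zv' zp' zq' r' zy' zE' zW' R' nW' ny' M' : ℕ,
      k zv' zp' zq' r' zy' zE' zW' R' nW' ny' M' = true ∧
      StO β' η ω π (j + 1) e w a zv' zp' zq' r' zy' zE' zW' R' nW' ny' M' := by
  subst hβ'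
  obtain ⟨a1, a2, a3, a4, a5, a6, a7, a8, a9, a10, a11, h1, S1⟩ := sl_sound hp hF.Re hF.le1 hF.le2 hF.hK
    hF.hη hF.hω hF.hπ hF.hte hF.hts hβ hβ2 hS h
  exact ⟨a1, a2, a3, a4, a5, a6, a7, a8, a9, a10, a11, h1,
    StO.conv hF.he (by rw [hi, hc]) (by rw [hi, hd]) S1⟩

theorem s1_sound {eK t dl ra te ts i j : ℕ}
    {k : ℕ → ℕ → ℕ → ℕ → ℕ → ℕ → ℕ → ℕ → ℕ → ℕ → ℕ → Bool}
    {zv zp zq r zy zE zW R nW ny M : ℕ} {K η ω π e w a : ℂ} {β β' : ℝ}
    (hF : Fx eK t dl ra te ts K η ω π e) (hc : cc i = cc 1) (hd : dd i = dd 1) (hi : 1 + j = i)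
    (hβ : 1 ≤ β) (hβ2 : β ≤ 4096) (hβ' : 16 * β = β')
    (hS : StO β η ω π j e w a zv zp zq r zy zE zW R nW ny M)
    (h : sl_1 eK t dl ra te ts j k zv zp zq r zy zE zW R nW ny M = true) :
    ∃ zv' zp' zq' r' zy' zE' zW' R' nW' ny' M' : ℕ,
      k zv' zp' zq' r' zy' zE' zW' R' nW' ny' M' = true ∧
      StO β' η ω π (j + 1) e w a zv' zp' zq' r' zy' zE' zW' R' nW' ny' M' := by
  rw [sl_1] at h
  exact StO.step phs1 hF hc hd hi hβ hβ2 hβ' hS h

theorem s2_sound {eK t dl ra te ts i j : ℕ}
    {k : ℕ → ℕ → ℕ → ℕ → ℕ → ℕ → ℕ → ℕ → ℕ → ℕ → ℕ → Bool}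
    {zv zp zq r zy zE zW R nW ny M : ℕ} {K η ω π e w a : ℂ} {β β' : ℝ}
    (hF : Fx eK t dl ra te ts K η ω π e) (hc : cc i = cc 2) (hd : dd i = dd 2) (hi : 1 + j = i)
    (hβ : 1 ≤ β) (hβ2 : β ≤ 4096) (hβ' : 16 * β = β')
    (hS : StO β η ω π j e w a zv zp zq r zy zE zW R nW ny M)
    (h : sl_2 eK t dl ra te ts j k zv zp zq r zy zE zW R nW ny M = true) :
    ∃ zv' zp' zq' r' zy' zE' zW' R' nW' ny' M' : ℕ,
      k zv' zp' zq' r' zy' zE' zW' R' nW' ny' M' = true ∧
      StO β' η ω π (j + 1) e w a zv' zp' zq' r' zy' zE' zW' R' nW' ny' M' := by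
  rw [sl_2] at h
  exact StO.step phs2 hF hc hd hi hβ hβ2 hβ' hS h

theorem s3_sound {eK t dl ra te ts i j : ℕ}
    {k : ℕ → ℕ → ℕ → ℕ → ℕ → ℕ → ℕ → ℕ → ℕ → ℕ → ℕ → Bool}
    {zv zp zq r zy zE zW R nW ny M : ℕ} {K η ω π e w a : ℂ} {β β' : ℝ}
    (hF : Fx eK t dl ra te ts K η ω π e) (hc : cc i = cc 3) (hd : dd i = dd 3) (hi : 1 + j = i)
    (hβ : 1 ≤ β) (hβ2 : β ≤ 4096) (hβ' : 16 * β = β')
    (hS : StO β η ω π j e w a zv zp zq r zy zE zW R nW ny M)
    (h : sl_3 eK t dl ra te ts j k zv zp zq r zy zE zW R nW ny M = true) :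
    ∃ zv' zp' zq' r' zy' zE' zW' R' nW' ny' M' : ℕ,
      k zv' zp' zq' r' zy' zE' zW' R' nW' ny' M' = true ∧
      StO β' η ω π (j + 1) e w a zv' zp' zq' r' zy' zE' zW' R' nW' ny' M' := by
  rw [sl_3] at h
  exact StO.step phs3 hF hc hd hi hβ hβ2 hβ' hS h

theorem s0_sound {eK t dl ra te ts i j : ℕ}
    {k : ℕ → ℕ → ℕ → ℕ → ℕ → ℕ → ℕ → ℕ → ℕ → ℕ → ℕ → Bool}
    {zv zp zq r zy zE zW R nW ny M : ℕ} {K η ω π e w a : ℂ} {β β' : ℝ}
    (hF : Fx eK t dl ra te ts K η ω π e) (hc : cc i = cc 0) (hd : dd i = dd 0) (hi : 1 + j = i)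
    (hβ : 1 ≤ β) (hβ2 : β ≤ 4096) (hβ' : 16 * β = β')
    (hS : StO β η ω π j e w a zv zp zq r zy zE zW R nW ny M)
    (h : sl_0 eK t dl ra te ts j k zv zp zq r zy zE zW R nW ny M = true) :
    ∃ zv' zp' zq' r' zy' zE' zW' R' nW' ny' M' : ℕ,
      k zv' zp' zq' r' zy' zE' zW' R' nW' ny' M' = true ∧
      StO β' η ω π (j + 1) e w a zv' zp' zq' r' zy' zE' zW' R' nW' ny' M' := by
  rw [sl_0] at h
  exact StO.step phs0 hF hc hd hi hβ hβ2 hβ' hS h

/-- the four steps -/
theorem sl4_sound {eK t dl ra te ts zv zp zy ny : ℕ}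
    {k : ℕ → ℕ → ℕ → ℕ → ℕ → ℕ → ℕ → ℕ → ℕ → ℕ → ℕ → Bool}
    {K η ω π e w a : ℂ} (hF : Fx eK t dl ra te ts K η ω π e)
    (hS : StO 1 η ω π 0 e w a zv zp 146783911423364576743092537299333564210980159306769991919205685720763064069664295367081415628449540642766848 0 zy
      146783911423364576743092537299333564210980159306769991919205685720763064069664295367081415628449540642701312
      146783911423364576743092537299333564210980159306769991919205685720763064069664295367081415628449540642701312 0 65536 ny 65536)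
    (h : sl4 eK t dl ra te ts zv zp zy ny k = true) :
    ∃ zv' zp' zq' r' zy' zE' zW' R' nW' ny' M' : ℕ,
      k zv' zp' zq' r' zy' zE' zW' R' nW' ny' M' = true ∧
      StO 65536 η ω π 4 e w a zv' zp' zq' r' zy' zE' zW' R' nW' ny' M' := by
  rw [sl4] at h
  obtain ⟨_, _, _, _, _, _, _, _, _, _, _, h1, S1⟩ := s1_sound (i := 1) (β' := 16) hF rfl rfl rfl
    (by norm_num) (by norm_num) (by norm_num) hS h
  obtain ⟨_, _, _, _, _, _, _, _, _, _, _, h2, S2⟩ := s2_sound (i := 2) (β' := 256) hF rfl rfl rfl
    (by norm_num) (by norm_num) (by norm_num) S1 h1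
  obtain ⟨_, _, _, _, _, _, _, _, _, _, _, h3, S3⟩ := s3_sound (i := 3) (β' := 4096) hF rfl rfl rfl
    (by norm_num) (by norm_num) (by norm_num) S2 h2
  obtain ⟨_, _, _, _, _, _, _, _, _, _, _, h4, S4⟩ := s0_sound (i := 4) (β' := 65536) hF cc4 dd4 rfl
    (by norm_num) (by norm_num) (by norm_num) S3 h3
  exact ⟨_, _, _, _, _, _, _, _, _, _, _, h4, S4⟩

/-- packed literals -/
lemma pk_lit {Z : ℕ} (a b : ℕ) (ha : a < 2 ^ 101) (hb : b < 2 ^ 101) (hZ : Z = a + b * 2 ^ 256) (u : ℂ)
    (hu : u = ⟨(a:ℝ) - 2 ^ 100, (b:ℝ) - 2 ^ 100⟩) : Pk Z u := ⟨a, b, hZ, ha, hb, hu⟩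

lemma pk_z0 : Pk 146783911423364576743092537299333564210980159306769991919205685720763064069664295367081415628449540642701312 0 :=
  pk_lit (2 ^ 100) (2 ^ 100) (by norm_num) (by norm_num) (by decide +kernel) 0
    (by apply Complex.ext <;> norm_num)
lemma pk_z1 : Pk 146783911423364576743092537299333564210980159306769991919205685720763064069664295367081415628449540642766848 65536 :=
  pk_lit (2 ^ 100 + 65536) (2 ^ 100) (by norm_num) (by norm_num) (by decide +kernel) 65536
    (by apply Complex.ext <;> norm_num)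

/-- centre of the slope cell, scale `2 ^ 24` -/
noncomputable def ysl (P Q : ℕ) : ℂ := ⟨1024 * ((P:ℝ) - 16777216), 1024 * ((Q:ℝ) - 16777216)⟩

/-- packed number from two fields and a literal -/
lemma pk_off {A B L a : ℕ} {m : ℕ} (hL : L = a + a * 2 ^ 256) (hA : m * A + a < 2 ^ 101)
    (hB : m * B + a < 2 ^ 101) :
    Pk (m * (A + Nat.shiftLeft B 256) + L) ⟨(m * A + a : ℝ) - 2 ^ 100, (m * B + a : ℝ) - 2 ^ 100⟩ := by
  refine ⟨m * A + a, m * B + a, ?_, hA, hB, by push_cast; rfl⟩
  have : Nat.shiftLeft B 256 = B * 2 ^ 256 := Nat.shiftLeft_eq B 256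
  rw [this, hL]
  ring

end Pool.Agent.W_4481e3_h6.Ev
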