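import Pool.Agent.W_4481e3_h6.SndW
import Pool.Agent.W_4481e3_q25.GsAsm

/-!
Slope chain: soundness of `slc`.
-/

set_option exponentiation.threshold 1200

namespace Pool.Agent.W_4481e3_h6.Ev

open Complex
open Pool.Agent.W_4481e3_h6.Gau
open Pool.Agent.W_4481e3_q42 (ww aa cc dd)
open Pool.Agent.W_MP_4481e3_an.Ev (gd nrm1 gd_true nrm1_sound pt)
open Pool.Agent.W_4481e3_q12.Ev (ds ds_cast)
open Pool.Agent.W_4481e3_q42.Ev (nrq nrq_sound cf k0)
open Pool.Agent.W_4481e3_q25.EvR (SlcOK xsl Gp)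

lemma gg_eq (e w : ℂ) : gg e 1 w 4 = Gp e w := by
  unfold Gp
  show (1 * ((1 - 2 * cc (1 + 0) * ww e 1 w 0) / 2)) * ((1 - 2 * cc (1 + 1) * ww e 1 w 1) / 2) *
    ((1 - 2 * cc (1 + 2) * ww e 1 w 2) / 2) * ((1 - 2 * cc (1 + 3) * ww e 1 w 3) / 2) = _
  rw [one_mul]

lemma nfield {z : ℂ} {a b c : ℝ} (h1 : |z.re| ≤ a) (h2 : |z.im| ≤ b) (h : a + b ≤ c) : ‖z‖ ≤ c :=
  (Complex.norm_le_abs_re_add_abs_im z).trans (by linarith)

theorem slc1_sound {X Y t dl ra A B F G P Q : ℕ}
    {k : ℕ → ℕ → ℕ → ℕ → ℕ → ℕ → ℕ → ℕ → ℕ → ℕ → ℕ → Bool} {eK zv zp zy : ℕ} {e w a : ℂ}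
    (Re : Rc eK (16777216 * k0 X Y)) (le1 : 2 ^ 1100 ≤ eK) (le2 : eK ≤ 2 ^ 1115)
    (Pv : Pk zv (pt A B)) (Pp : Pk zp (65536 * cf F G)) (Py : Pk zy (xsl P Q))
    (hXY : X + Y + t ≤ 33554432) (hAF : A + B + (F + G + (P + Q)) ≤ 4294967296)
    (h : slc1 eK t dl ra zv zp zy k = true)
    (hη : ‖16777216 * e - k0 X Y‖ ≤ t)
    (hω : ‖16777216 * w - (pt A B + cf F G * (16777216 * e - k0 X Y))‖ ≤ dl)
    (hπ : ‖16777216 * a - xsl P Q‖ ≤ ra) :
    ∃ zv zp zq r zy zE zW R nW ny M : ℕ, k zv zp zq r zy zE zW R nW ny M = true ∧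
      StP 65536 (16777216 * e - k0 X Y)
        (16777216 * w - (pt A B + cf F G * (16777216 * e - k0 X Y))) (16777216 * a - xsl P Q) 4
        (16777216 * ww e 1 w 4) (16777216 * aa e 1 w a 4) (Gp e w) zv zp zq r zy zE zW R nW ny M := by
  rw [slc1] at h
  have hX0 : (0:ℝ) ≤ X := Nat.cast_nonneg _
  have hY0 : (0:ℝ) ≤ Y := Nat.cast_nonneg _
  have hXY' : (X:ℝ) + Y ≤ 33554432 := by
    have : X + Y ≤ 33554432 := by omega
    exact_mod_cast this
  have hK : ‖k0 X Y‖ ≤ 33554432 := by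
    refine nfield (a := X) (b := Y) ?_ ?_ hXY'
    · unfold k0; simp
    · unfold k0; simp
  have hF : Fx eK t dl ra (Nat.add (Nat.shiftRight (Nat.mul 3 (Nat.add t dl)) 17) 42)
      (Nat.add (Nat.add (Nat.shiftRight (Nat.mul 3 (Nat.add t dl)) 17) (Nat.shiftRight (Nat.mul 3 ra) 18)) 212)
      (k0 X Y) (16777216 * e - k0 X Y)
      (16777216 * w - (pt A B + cf F G * (16777216 * e - k0 X Y))) (16777216 * a - xsl P Q) e := by
    refine ⟨Re, le1, le2, by ring, hK, hη, hω, hπ, ?_, ?_⟩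
    · simp only [Nat.add_eq, Nat.mul_eq]
      have s1 := shr_low (3 * (t + dl)) 17 (m := 131072) (by norm_num)
      have t0 : (0:ℝ) ≤ t := Nat.cast_nonneg _
      have d0 : (0:ℝ) ≤ dl := Nat.cast_nonneg _
      push_cast at s1 ⊢
      linarith
    · simp only [Nat.add_eq, Nat.mul_eq]
      have s1 := shr_low (3 * (t + dl)) 17 (m := 131072) (by norm_num)
      have s2 := shr_low (3 * ra) 18 (m := 262144) (by norm_num)
      have t0 : (0:ℝ) ≤ t := Nat.cast_nonneg _
      have d0 : (0:ℝ) ≤ dl := Nat.cast_nonneg _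
      have r0 : (0:ℝ) ≤ ra := Nat.cast_nonneg _
      push_cast at s1 s2 ⊢
      linarith
  have bF : (F:ℝ) + G ≤ 4294967296 := by
    have : F + G ≤ 4294967296 := by omega
    exact_mod_cast this
  have bP : (P:ℝ) + Q ≤ 4294967296 := by
    have : P + Q ≤ 4294967296 := by omega
    exact_mod_cast this
  have F0 : (0:ℝ) ≤ F := Nat.cast_nonneg _
  have G0 : (0:ℝ) ≤ G := Nat.cast_nonneg _
  have P0 : (0:ℝ) ≤ P := Nat.cast_nonneg _
  have Q0 : (0:ℝ) ≤ Q := Nat.cast_nonneg _
  have e65 : (65536 * cf F G : ℂ) = ⟨(F:ℝ) - 268435456, (G:ℝ) - 268435456⟩ := by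
    unfold cf
    apply Complex.ext <;> simp <;> ring
  have np : ‖65536 * cf F G‖ ≤ 8589934592 * 1 := by
    rw [e65]
    refine nfield (a := F + 268435456) (b := G + 268435456) ?_ ?_ (by linarith)
    · simp only; rw [abs_le]; constructor <;> linarith
    · simp only; rw [abs_le]; constructor <;> linarith
  have ex : xsl P Q = ⟨1024 * ((P:ℝ) - 16777216), 1024 * ((Q:ℝ) - 16777216)⟩ := by
    unfold xsl
    apply Complex.ext <;> simp
  have ny : ‖xsl P Q‖ ≤ 8796093022208 * 1 := by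
    rw [ex]
    refine nfield (a := 1024 * (P + 16777216)) (b := 1024 * (Q + 16777216)) ?_ ?_ (by linarith)
    · simp only; rw [abs_le]; constructor <;> linarith
    · simp only; rw [abs_le]; constructor <;> linarith
  have hS : StO 1 (16777216 * e - k0 X Y)
      (16777216 * w - (pt A B + cf F G * (16777216 * e - k0 X Y))) (16777216 * a - xsl P Q) 0 e w a
      zv zp 146783911423364576743092537299333564210980159306769991919205685720763064069664295367081415628449540642766848 0 zy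
      146783911423364576743092537299333564210980159306769991919205685720763064069664295367081415628449540642701312
      146783911423364576743092537299333564210980159306769991919205685720763064069664295367081415628449540642701312 0 65536
      (Nat.add (Nat.shiftRight (np1 zy) 24) 2) 65536 := by
    refine ⟨pt A B, 65536 * cf F G, 65536, xsl P Q, 0, 0, Pv, Pp, pk_z1, Py, pk_z0, pk_z0, ⟨?_, ?_, ?_, ?_, ?_⟩,
      np, by simp; norm_num, ny, by simp, by simp⟩
    · rw [ww]
      have : 16777216 * w - (pt A B + 65536 * cf F G / 65536 * (16777216 * e - k0 X Y) +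
          65536 / 65536 * (16777216 * w - (pt A B + cf F G * (16777216 * e - k0 X Y)))) = 0 := by ring
      rw [this]; simp
    · rw [aa]
      have : 16777216 * a - (xsl P Q + 0 / 65536 * (16777216 * e - k0 X Y) +
          0 / 65536 * (16777216 * w - (pt A B + cf F G * (16777216 * e - k0 X Y))) +
          65536 / 65536 / 2 ^ 0 * (16777216 * a - xsl P Q)) = 0 := by ring
      rw [this]; simp
    · simp
    · have s1 := shr_low (np1 zy) 24 (m := 16777216) (by norm_num)
      have s2 := np1_sound Py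
      simp only [Nat.add_eq]
      push_cast
      linarith
    · rw [gg]; simp
  obtain ⟨b1, b2, b3, b4, b5, b6, b7, b8, b9, b10, b11, h1, S1⟩ := sl4_sound hF hS h
  refine ⟨b1, b2, b3, b4, b5, b6, b7, b8, b9, b10, b11, h1, ?_⟩
  unfold StO at S1
  rw [gg_eq] at S1
  exact S1

lemma pk_add {A B L a : ℕ} (hL : L = a + a * 2 ^ 256) (ha : a ≤ 2 ^ 100) (hA : A ≤ 2 ^ 99)
    (hB : B ≤ 2 ^ 99) :
    Pk (A + Nat.shiftLeft B 256 + L) ⟨(A + a : ℝ) - 2 ^ 100, (B + a : ℝ) - 2 ^ 100⟩ := by
  have h1 : A + a < 2 ^ 101 := by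
    have : (2:ℕ) ^ 99 + 2 ^ 100 < 2 ^ 101 := by norm_num
    omega
  have h2 : B + a < 2 ^ 101 := by
    have : (2:ℕ) ^ 99 + 2 ^ 100 < 2 ^ 101 := by norm_num
    omega
  refine ⟨A + a, B + a, ?_, h1, h2, by push_cast; rfl⟩
  have : Nat.shiftLeft B 256 = B * 2 ^ 256 := Nat.shiftLeft_eq B 256
  rw [this, hL]
  ring

theorem slcOK : SlcOK := by
  intro X Y t A B F G dl P Q ra k e w a h hη hω hπ
  unfold slc at h
  rw [gd_true, gd_true] at h
  obtain ⟨g1, g2, h⟩ := h
  have g1 := Nat.le_of_ble_eq_true g1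
  have g2 := Nat.le_of_ble_eq_true g2
  simp only [Nat.add_eq] at g1 g2
  have hA : A ≤ 4294967296 := by omega
  have hB : B ≤ 4294967296 := by omega
  have hF : F ≤ 4294967296 := by omega
  have hG : G ≤ 4294967296 := by omega
  have hP : P ≤ 4294967296 := by omega
  have hQ : Q ≤ 4294967296 := by omega
  have hX : X ≤ 33554432 := by omega
  have hY : Y ≤ 33554432 := by omega
  have e99 : 4294967296 ≤ 2 ^ 99 := by norm_num
  have esl : Nat.shiftLeft Y 256 = Y * 2 ^ 256 := Nat.shiftLeft_eq Y 256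
  refine slc1_sound (A := A) (B := B) (F := F) (G := G) (P := P) (Q := Q) ?_ ?_ ?_ ?_ ?_ ?_ g1 g2 h hη hω hπ
  · -- eK
    simp only [Nat.add_eq, Nat.mul_eq]
    rw [esl]
    have h1 : Rc (X + Y * 2 ^ 256) (k0 X Y) :=
      ⟨X, Y, by unfold k0; simp, by
        unfold Rp; push_cast; exact Int.ModEq.refl _⟩
    have h2 : Rc 55635907749862844386400314505595567251599107970324256757699365672051224279213746123593285972818168186054976565058958882713758619825090273161853126012111379394359656174561533311390475225659683285667197251952310126653752083575455714950689651294952764343451800061470146343737827275818175051927977584665538379046424311276049505549625065472 0 :=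
      rcK _ 0 0 (by apply Complex.ext <;> norm_num) (by decide +kernel)
    exact ((h1.smul 16777216).add h2).congr (by push_cast; ring)
  · refine le_trans ?_ (Nat.le_add_left _ _)
    decide +kernel
  · simp only [Nat.add_eq, Nat.mul_eq]
    rw [esl]
    have h1 : X + Y * 2 ^ 256 ≤ 33554432 + 33554432 * 2 ^ 256 :=
      add_le_add hX (Nat.mul_le_mul_right _ hY)
    refine (add_le_add (Nat.mul_le_mul_left _ h1) (le_refl _)).trans ?_
    decide +kernel
  · refine (?_ : Pk _ _)
    have := pk_add (A := A) (B := B)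
      (L := 146783911423364576743030371894782340880710736525751639314193128701913395604984237369969770691322973433888768)
      (a := 2 ^ 100 - 2 ^ 29) (by decide +kernel) (by norm_num) (hA.trans e99) (hB.trans e99)
    have ept : pt A B = ⟨((A:ℝ) + ((2 ^ 100 - 2 ^ 29 : ℕ) : ℝ)) - 2 ^ 100, (B + ((2 ^ 100 - 2 ^ 29 : ℕ) : ℝ)) - 2 ^ 100⟩ := by
      unfold pt
      apply Complex.ext <;> (simp only; push_cast; norm_num; ring)
    rw [ept]
    exact this
  · have := pk_add (A := F) (B := G)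
      (L := 146783911423364576743061454597057952545845447916260815616699407211338229837324266368525593159886257038295040)
      (a := 2 ^ 100 - 2 ^ 28) (by decide +kernel) (by norm_num) (hF.trans e99) (hG.trans e99)
    have ept : 65536 * cf F G = ⟨((F:ℝ) + ((2 ^ 100 - 2 ^ 28 : ℕ) : ℝ)) - 2 ^ 100, (G + ((2 ^ 100 - 2 ^ 28 : ℕ) : ℝ)) - 2 ^ 100⟩ := by
      unfold cf
      apply Complex.ext <;> (simp; ring)
    rw [ept]
    exact this
  · unfold zsl
    simp only [Nat.add_eq, Nat.mul_eq]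
    have := pk_off (A := P) (B := Q) (m := 1024)
      (L := 146783911423364576741103244353694417642358630314182708558803861117573673199902439459508777640399389960699904)
      (a := 2 ^ 100 - 2 ^ 34) (by decide +kernel)
      (by have : 1024 * P ≤ 1024 * 4294967296 := Nat.mul_le_mul_left _ hP
          have : 1024 * 4294967296 + (2 ^ 100 - 2 ^ 34) < 2 ^ 101 := by norm_num
          omega)
      (by have : 1024 * Q ≤ 1024 * 4294967296 := Nat.mul_le_mul_left _ hQ
          have : 1024 * 4294967296 + (2 ^ 100 - 2 ^ 34) < 2 ^ 101 := by norm_num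
          omega)
    have ept : xsl P Q = ⟨((1024 : ℕ) * (P:ℝ) + ((2 ^ 100 - 2 ^ 34 : ℕ) : ℝ)) - 2 ^ 100,
        ((1024 : ℕ) * (Q:ℝ) + ((2 ^ 100 - 2 ^ 34 : ℕ) : ℝ)) - 2 ^ 100⟩ := by
      unfold xsl
      apply Complex.ext <;> (simp; ring)
    rw [ept]
    exact this

end Pool.Agent.W_4481e3_h6.Ev
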